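import Pool.Agent.Lib.MP_5de024_nt.S.PatX.CoreB

/-!
# Patching: truncations of `x` (part PAT, file CoreC)
-/

set_option autoImplicit false
set_option linter.unusedSectionVars false

namespace Pool.Agent.AB3


open Polynomial

variable {k R H : Type} [Field k] [CommRing R] [Algebra k[X] R] [Group H] [Finite H] {N : ℕ}
  (B : RBas k R N) (P : ℕ)

private theorem corec_and {U V : ℤ → ℤ → Prop} {z : MM k P R} (h1 : Lat B P U z)
    (h2 : Lat B P V z) : Lat B P (fun n m => U n m ∧ V n m) z := by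
  intro i n m h
  by_cases hU : U n m
  · exact h2 i n m fun hV => h ⟨hU, hV⟩
  · exact h1 i n m hU

private theorem corec_sum {U : ℤ → ℤ → Prop} (n : ℕ) (f : ℕ → MM k P R)
    (h : ∀ i, Lat B P U (f i)) : Lat B P U (∑ i ∈ Finset.range n, f i) := by
  induction n with
  | zero =>
    rw [Finset.sum_range_zero]
    exact Lat_zero B P U
  | succ n ih =>
    rw [Finset.sum_range_succ]
    exact Lat_add B P ih (h n)

private theorem corec_iA (j : ℕ) : iA k (Polynomial.C (bL k ^ j)) = bz k (j : ℤ) := by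
  rw [iA_C, map_pow]
  have h1 : hmap (LaurentPolynomial.C : k →+* LaurentPolynomial k) (bL k) =
      HahnSeries.single 1 1 := by
    apply HahnSeries.ext
    funext n
    rw [hmap_coeff, HahnSeries.coeff_single, HahnSeries.coeff_single]
    split_ifs
    · exact map_one _
    · exact map_zero _
  rw [h1, HahnSeries.single_pow, one_pow]
  unfold bz
  rw [nsmul_eq_mul, mul_one]

/-- the truncations of `x`: for every `J` there is `x'` in `OL` with `x' - 1` of exponents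
`1 ≤ n`, `0 ≤ m ≤ b` and `u = HH x' ^ n + w`, `w` in `OL` of exponents `J ≤ n`, `0 ≤ m ≤ b'`.
(`Lat_split` of `x - 1` by `n < J`, `Lat_bdd`, `iM_surj`; the difference `u - HH x' ^ n` is
`HH (x ^ n - x' ^ n)`, of exponents `J ≤ n`, `0 ≤ m`, and both terms are bounded in `m`.) -/
theorem pat_trunc_x (hP : 2 ≤ P) (C : Cov k R H) (n D : ℕ) (η : R)
    (hη : B.Lt (η - algebraMap k[X] R (X ^ (n * D))) (n * D)) {u : OL k P R} {x y : MM k P R}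
    (h : IsPat B P n D η u x y) (J : ℕ) :
    ∃ (b : ℕ) (x' w : OL k P R),
      Lat B P (fun a m => 1 ≤ a ∧ 0 ≤ m ∧ m ≤ b) (iM k P R (x' - 1)) ∧
      Lat B P (fun a m => (J : ℤ) ≤ a ∧ 0 ≤ m ∧ m ≤ b) (iM k P R w) ∧
      u = algebraMap (LaurentSeries k)[X] (OL k P R) (Polynomial.C (bL k ^ (n * D))) *
        Bs.inR (evg k (LaurentSeries k) (gb (LaurentSeries k) P (bL k))) R η * x' ^ n + w := by
  obtain ⟨h1, -, h3, -⟩ := h
  have hP1 : 1 ≤ P := by omega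
  obtain ⟨s, r, hsr, hs, hr⟩ := Lat_split B P (fun a _ => a < (J : ℤ)) h1
  obtain ⟨b1, hb1⟩ := Lat_bdd B P 1 J hs (by
    rintro a m ⟨⟨h4, -⟩, h5⟩
    exact ⟨h4, h5⟩)
  obtain ⟨z, hz⟩ := iM_surj B P 1 b1 s (Lat_mono B P (by
    rintro a m ⟨⟨⟨h4, h5⟩, -⟩, -, h6⟩
    exact ⟨h4, h5, h6⟩) hb1)
  obtain ⟨x', hx'⟩ : ∃ x', x' = 1 + z := ⟨_, rfl⟩
  have hx1 : iM k P R (x' - 1) = s := by
    rw [hx', add_sub_cancel_left, hz]
  have hx2 : iM k P R x' = 1 + s := by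
    rw [hx', map_add, map_one, hz]
  obtain ⟨hh, hhe⟩ : ∃ hh : OL k P R, hh =
      algebraMap (LaurentSeries k)[X] (OL k P R) (Polynomial.C (bL k ^ (n * D))) *
        Bs.inR (evg k (LaurentSeries k) (gb (LaurentSeries k) P (bL k))) R η := ⟨_, rfl⟩
  have hiH : iM k P R hh = HHe P n D η := by
    rw [hhe, map_mul, iM_alg, iM_inR, corec_iA]
    rfl
  obtain ⟨w, hw⟩ : ∃ w, w = u - hh * x' ^ n := ⟨_, rfl⟩
  have hiw : iM k P R w = HHe P n D η * (x ^ n - (1 + s) ^ n) := by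
    rw [hw, map_sub, map_mul, map_pow, hiH, hx2, h3, mul_sub]
  have hcl : ∀ n m n' m' n'' m'' : ℤ, (0 ≤ n ∧ 0 ≤ m) → (0 ≤ n' ∧ 0 ≤ m') → 0 ≤ n'' →
      0 ≤ m'' → m'' ≤ KB B P → (0 ≤ n + n' + n'' ∧ 0 ≤ m + m' + m'') := by
    rintro n m n' m' n'' m'' ⟨h4, h5⟩ ⟨h6, h7⟩ h8 h9 -
    exact ⟨by omega, by omega⟩
  have hone : Lat B P (fun a m => 0 ≤ a ∧ 0 ≤ m) (1 : MM k P R) :=
    Lat_mono B P (by
      rintro a m ⟨rfl, rfl⟩
      exact ⟨le_rfl, le_rfl⟩) (Lat_one B P)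
  have hxl : Lat B P (fun a m => 0 ≤ a ∧ 0 ≤ m) x := by
    have h4 := Lat_add B P (Lat_mono B P (V := fun a m => 0 ≤ a ∧ 0 ≤ m) (by
      rintro a m ⟨h5, h6⟩
      exact ⟨by omega, h6⟩) h1) hone
    rwa [sub_add_cancel] at h4
  have hsl : Lat B P (fun a m => 0 ≤ a ∧ 0 ≤ m) (1 + s) :=
    Lat_add B P hone (Lat_mono B P (by
      rintro a m ⟨⟨h5, h6⟩, -⟩
      exact ⟨by omega, h6⟩) hs)
  have hrl : Lat B P (fun a m => (J : ℤ) ≤ a ∧ 0 ≤ m) (x - (1 + s)) := by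
    have h4 : x - (1 + s) = r := by
      rw [← sub_sub, hsr]
      ring
    rw [h4]
    exact Lat_mono B P (by
      rintro a m ⟨⟨h5, h6⟩, h7⟩
      exact ⟨not_lt.1 h7, h6⟩) hr
  have hpow : ∀ (v : MM k P R), Lat B P (fun a m => 0 ≤ a ∧ 0 ≤ m) v → ∀ i : ℕ,
      Lat B P (fun a m => 0 ≤ a ∧ 0 ≤ m) (v ^ i) := fun v hv i =>
    Lat_pow B P hP1 hv ⟨le_rfl, le_rfl⟩ hcl i
  have hsum : Lat B P (fun a m => 0 ≤ a ∧ 0 ≤ m)
      (∑ i ∈ Finset.range n, x ^ i * (1 + s) ^ (n - 1 - i)) :=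
    corec_sum B P n _ fun i => Lat_mul B P hP1 (hpow x hxl i) (hpow _ hsl _) hcl
  have hcJ : ∀ n m n' m' n'' m'' : ℤ, (0 ≤ n ∧ 0 ≤ m) → ((J : ℤ) ≤ n' ∧ 0 ≤ m') → 0 ≤ n'' →
      0 ≤ m'' → m'' ≤ KB B P → ((J : ℤ) ≤ n + n' + n'' ∧ 0 ≤ m + m' + m'') := by
    rintro n m n' m' n'' m'' ⟨h4, h5⟩ ⟨h6, h7⟩ h8 h9 -
    exact ⟨by omega, by omega⟩
  have hdiff : Lat B P (fun a m => (J : ℤ) ≤ a ∧ 0 ≤ m) (x ^ n - (1 + s) ^ n) := by
    rw [← geom_sum₂_mul]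
    exact Lat_mul B P hP1 hsum hrl hcJ
  obtain ⟨⟨b2, hb2⟩, -⟩ := hh_lat B P hP n D η hη
  have hwJ : Lat B P (fun a m => (J : ℤ) ≤ a ∧ 0 ≤ m) (iM k P R w) := by
    rw [hiw]
    exact Lat_mul B P hP1 (Lat_mono B P (V := fun a m => 0 ≤ a ∧ 0 ≤ m) (by
      rintro a m ⟨h5, h6, -⟩
      exact ⟨h5, h6⟩) hb2) hdiff hcJ
  obtain ⟨J0, b3, hb3⟩ := Lat_iM B P w
  refine ⟨max b1 b3, x', w, ?_, ?_, ?_⟩
  · rw [hx1]
    exact Lat_mono B P (by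
      rintro a m ⟨⟨⟨h4, h5⟩, -⟩, -, h6⟩
      refine ⟨h4, h5, h6.trans ?_⟩
      exact_mod_cast le_max_left b1 b3) hb1
  · exact Lat_mono B P (by
      rintro a m ⟨⟨h4, h5⟩, -, -, h6⟩
      refine ⟨h4, h5, h6.trans ?_⟩
      exact_mod_cast le_max_right b1 b3) (corec_and B P hwJ hb3)
  · rw [← hhe, hw]
    ring

end Pool.Agent.AB3
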