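import Pool.Agent.Lib.MP_5de024_nt.S.PatX.CoreB

/-!
# Patching: truncations of `y` (part PAT, file CoreD)
-/

set_option autoImplicit false
set_option linter.unusedSectionVars false

namespace Pool.Agent.AB3


open Polynomial

variable {k R H : Type} [Field k] [CommRing R] [Algebra k[X] R] [Group H] [Finite H] {N : ℕ}
  (B : RBas k R N) (P : ℕ)

theorem CoreD_inter {U V : ℤ → ℤ → Prop} {z : MM k P R} (hU : Lat B P U z)
    (hV : Lat B P V z) : Lat B P (fun i m => U i m ∧ V i m) z := by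
  intro i a b hab
  by_cases h : U a b
  · exact hV i a b fun hv => hab ⟨h, hv⟩
  · exact hU i a b h

/-- the order in `β` of the difference of two powers -/
theorem CoreD_pow (hP : 1 ≤ P) (J : ℤ) {y z : MM k P R}
    (hy : Lat B P (fun i _ => 0 ≤ i) y) (hz : Lat B P (fun i _ => 0 ≤ i) z)
    (hd : Lat B P (fun i _ => J ≤ i) (y - z)) (n : ℕ) :
    Lat B P (fun i _ => J ≤ i) (y ^ n - z ^ n) := by
  induction n with
  | zero =>
    rw [pow_zero, pow_zero, sub_self]
    exact Lat_zero B P _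
  | succ n ih =>
    have e : y ^ (n + 1) - z ^ (n + 1) = y ^ n * (y - z) + (y ^ n - z ^ n) * z := by ring
    rw [e]
    refine Lat_add B P ?_ ?_
    · refine Lat_mul B P hP (Lat_pow B P hP hy (le_refl _) ?_ n) hd ?_
      · intro a b a' b' a'' b'' h h' h'' _ _
        omega
      · intro a b a' b' a'' b'' h h' h'' _ _
        omega
    · refine Lat_mul B P hP ih hz ?_
      intro a b a' b' a'' b'' h h' h'' _ _
      omega

/-- the truncations of `y`, with a bound `b` for the loss of the precision which does not depend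
on `J`: `y'` of exponents `-M ≤ m < 0`, `a = t ^ M (1 + y')`,
`t ^ (n M) u = t ^ (n D) a ^ n + w`, `w` of exponents `J ≤ n`, `0 ≤ m ≤ b + n M`. -/
theorem pat_trunc_y (hP : 2 ≤ P) (C : Cov k R H) (n D : ℕ) (η : R)
    (hη : B.Lt (η - algebraMap k[X] R (X ^ (n * D))) (n * D)) {u : OL k P R} {x y : MM k P R}
    (h : IsPat B P n D η u x y) :
    ∃ b : ℕ, ∀ J : ℕ, ∃ (M : ℕ) (a w : OL k P R),
      Lat B P (fun i m => 1 ≤ i ∧ 0 ≤ m ∧ m < M)
        (iM k P R (a - algebraMap (LaurentSeries k)[X] (OL k P R) (X ^ M))) ∧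
      Lat B P (fun i m => (J : ℤ) ≤ i ∧ 0 ≤ m ∧ m ≤ ((b + n * M : ℕ) : ℤ)) (iM k P R w) ∧
      algebraMap (LaurentSeries k)[X] (OL k P R) (X ^ (n * M)) * u =
        algebraMap (LaurentSeries k)[X] (OL k P R) (X ^ (n * D)) * a ^ n + w := by
  have hP1 : 1 ≤ P := by omega
  obtain ⟨b₀, hb₀⟩ := pat_bdd B P hP n D η hη h
  obtain ⟨-, hy, -, hu⟩ := h
  have hX : ∀ i : ℕ, iM k P R (algebraMap (LaurentSeries k)[X] (OL k P R) (X ^ i)) =
      algebraMap (BA k) (MM k P R) (tz k (i : ℤ)) := by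
    intro i
    rw [iM_alg, map_pow, iA_X, tz_pow, mul_one]
  refine ⟨b₀ + n * D + KB B P * n, fun J => ?_⟩
  obtain ⟨y₁, y₂, hy12, hy₁, hy₂⟩ := Lat_split B P (fun a _ => a < (J : ℤ)) hy
  obtain ⟨M, hM⟩ := Lat_bdd B P 1 J hy₁ (fun a b hab => ⟨hab.1.1, hab.2⟩)
  have hty : Lat B P (fun i m => 1 ≤ i ∧ 0 ≤ m ∧ m < M)
      (algebraMap (BA k) (MM k P R) (tz k (M : ℤ)) * y₁) := by
    refine Lat_smul B P (SU_tz (M : ℤ)) hM ?_
    rintro a b a' b' ⟨ha, hb⟩ ⟨⟨⟨h1, h2⟩, -⟩, h3, -⟩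
    omega
  have hone : Lat B P (fun i m => i = 0 ∧ m = M)
      (algebraMap (BA k) (MM k P R) (tz k (M : ℤ))) := Lat_alg B P (SU_tz (M : ℤ))
  have ha₀ : Lat B P (fun i m => 0 ≤ i ∧ 0 ≤ m ∧ m ≤ M)
      (algebraMap (BA k) (MM k P R) (tz k (M : ℤ)) * (1 + y₁)) := by
    rw [mul_add, mul_one]
    refine Lat_add B P (Lat_mono B P ?_ hone) (Lat_mono B P ?_ hty)
    · rintro a b ⟨h1, h2⟩
      omega
    · rintro a b ⟨h1, h2, h3⟩
      omega
  obtain ⟨a, ha⟩ := iM_surj B P 0 M _ ha₀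
  refine ⟨M, a, algebraMap (LaurentSeries k)[X] (OL k P R) (X ^ (n * M)) * u -
    algebraMap (LaurentSeries k)[X] (OL k P R) (X ^ (n * D)) * a ^ n, ?_, ?_, ?_⟩
  · rw [map_sub, hX, ha, mul_add, mul_one, add_sub_cancel_left]
    exact hty
  · have hw1 : Lat B P (fun i m => 0 ≤ i ∧ 0 ≤ m ∧
        m ≤ ((b₀ + n * D + KB B P * n + n * M : ℕ) : ℤ))
        (iM k P R (algebraMap (LaurentSeries k)[X] (OL k P R) (X ^ (n * M)) * u -
          algebraMap (LaurentSeries k)[X] (OL k P R) (X ^ (n * D)) * a ^ n)) := by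
      rw [map_sub, map_mul, map_mul, hX, hX, map_pow, ha]
      refine Lat_sub B P ?_ ?_
      · refine Lat_smul B P (SU_tz _) hb₀ ?_
        rintro i m i' m' ⟨h1, h2⟩ ⟨h3, h4, h5⟩
        refine ⟨by omega, by omega, ?_⟩
        push_cast at h2 ⊢
        have q1 : (0 : ℤ) ≤ (n : ℤ) * D := by positivity
        have q2 : (0 : ℤ) ≤ (KB B P : ℤ) * n := by positivity
        linarith
      · refine Lat_smul B P (SU_tz _) (Lat_pow_bdd' B P hP1 ha₀ n) ?_
        rintro i m i' m' ⟨h1, h2⟩ ⟨h3, h4, h5⟩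
        refine ⟨by omega, by omega, ?_⟩
        push_cast at h2 h5 ⊢
        have q1 : (0 : ℤ) ≤ (b₀ : ℤ) := by positivity
        nlinarith
    have hw2 : Lat B P (fun i _ => (J : ℤ) ≤ i)
        (iM k P R (algebraMap (LaurentSeries k)[X] (OL k P R) (X ^ (n * M)) * u -
          algebraMap (LaurentSeries k)[X] (OL k P R) (X ^ (n * D)) * a ^ n)) := by
      have e : iM k P R (algebraMap (LaurentSeries k)[X] (OL k P R) (X ^ (n * M)) * u -
          algebraMap (LaurentSeries k)[X] (OL k P R) (X ^ (n * D)) * a ^ n) =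
          algebraMap (BA k) (MM k P R) (tz k ((n * M : ℕ) : ℤ)) *
          (algebraMap (BA k) (MM k P R) (tz k ((n * D : ℕ) : ℤ)) * (y ^ n - (1 + y₁) ^ n)) := by
        have e1 : algebraMap (BA k) (MM k P R) (tz k (M : ℤ)) ^ n =
            algebraMap (BA k) (MM k P R) (tz k ((n * M : ℕ) : ℤ)) := by
          rw [← map_pow, tz_pow]
          push_cast
          rfl
        rw [map_sub, map_mul, map_mul, hX, hX, map_pow, ha, hu, mul_pow, e1]
        ring
      rw [e]
      have hz1 : Lat B P (fun i _ => 0 ≤ i) (1 + y₁) :=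
        Lat_add B P (Lat_mono B P (fun a b hab => le_of_eq hab.1.symm) (Lat_one B P))
          (Lat_mono B P (fun a b hab => by have := hab.1.1; omega) hy₁)
      have hyy : y = 1 + (y - 1) := by ring
      have hy0 : Lat B P (fun i _ => 0 ≤ i) y := by
        rw [hyy]
        exact Lat_add B P (Lat_mono B P (fun a b hab => le_of_eq hab.1.symm) (Lat_one B P))
          (Lat_mono B P (fun a b hab => by have := hab.1; omega) hy)
      have hyd : Lat B P (fun i _ => (J : ℤ) ≤ i) (y - (1 + y₁)) := by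
        have e2 : y - (1 + y₁) = y₂ := by
          rw [← sub_sub, hy12, add_sub_cancel_left]
        rw [e2]
        exact Lat_mono B P (fun a b hab => not_lt.mp hab.2) hy₂
      refine Lat_smul B P (SU_tz _) (Lat_smul B P (SU_tz _)
        (CoreD_pow B P hP1 J hy0 hz1 hyd n) (W := fun i _ => (J : ℤ) ≤ i) ?_) ?_
      · rintro i m i' m' ⟨h1, h2⟩ h3
        omega
      · rintro i m i' m' ⟨h1, h2⟩ h3
        omega
    refine Lat_mono B P ?_ (CoreD_inter B P hw2 hw1)
    rintro i m ⟨h1, h2, h3, h4⟩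
    exact ⟨h1, h3, h4⟩
  · ring

end Pool.Agent.AB3
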