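import Pool.Agent.Lib.MP_5de024_nt.S.PatX.RhoC
import Pool.Agent.Lib.MP_5de024_nt.S.PatX.CoreC
import Pool.Agent.Lib.MP_5de024_nt.S.PatX.CoreD

/-!
# Patching: the images of `u` in `R((β))` (part PAT, file IndA)
-/

set_option autoImplicit false
set_option linter.unusedSectionVars false

namespace Pool.Agent.AB3


open Polynomial

variable {k R H : Type} [Field k] [CommRing R] [Algebra k[X] R] [Group H] [Finite H] {N : ℕ}
  (B : RBas k R N) (P : ℕ)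

theorem IndA_bL (k : Type) [Field k] : LD 1 1 (bL k) :=
  ⟨LO_single 1 1, HahnSeries.coeff_single_same 1 1⟩

/-- `ρ₀ u = β ^ (n D) (η + β ..)`: `pat_trunc_x` with `J = n D + 1`; `ρ₀ x' = 1 + β ..`,
`ρ₀ w` has order `≥ n D + 1` (`rho_LO_zero`). -/
theorem rho_u_zero (hP : 2 ≤ P) (C : Cov k R H) (n D : ℕ) (η : R)
    (hη : B.Lt (η - algebraMap k[X] R (X ^ (n * D))) (n * D)) {u : OL k P R} {x y : MM k P R}
    (h : IsPat B P n D η u x y) (T : PowerSeries R)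
    (ρ : OL k P R →+* LaurentSeries R) (hρ : IsRho P T (0 : k) ρ) :
    LD ((n * D : ℕ) : ℤ) η (ρ u) := by
  obtain ⟨b, x', w, hx, hw, hu⟩ := pat_trunc_x B P hP C n D η hη h (n * D + 1)
  have h1 : LD ((n * D : ℕ) : ℤ) 1
      (ρ (algebraMap (LaurentSeries k)[X] (OL k P R) (Polynomial.C (bL k ^ (n * D))))) := by
    rw [rho_C P T 0 ρ hρ, map_pow]
    have h2 := LD_pow (LD_hmap (kR k R) (IndA_bL k)) (n * D)
    rw [mul_one, map_one, one_pow] at h2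
    exact h2
  have h2 : LD 0 η (ρ (Bs.inR (evg k (LaurentSeries k) (gb (LaurentSeries k) P (bL k))) R η)) := by
    rw [hρ.1]
    exact LD_C η
  have h3 : LD 0 1 (ρ x') := by
    have h4 : x' = 1 + (x' - 1) := by ring
    rw [h4, map_add, map_one]
    exact LD_add LD_one (rho_LO_zero B P T ρ hρ 1 b (x' - 1) hx)
  have h4 : LO (((n * D : ℕ) : ℤ) + 1) (ρ w) := by
    refine rho_LO_zero B P T ρ hρ _ b w ?_
    have h5 : (((n * D + 1 : ℕ) : ℤ)) = ((n * D : ℕ) : ℤ) + 1 := by push_cast; ring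
    rw [h5] at hw
    exact hw
  rw [hu, map_add, map_mul, map_mul, map_pow ρ x' n]
  refine LD_add ?_ h4
  have h5 := LD_mul (LD_mul h1 h2) (LD_pow h3 n)
  rw [mul_zero, add_zero, add_zero, one_mul, one_pow, mul_one] at h5
  exact h5

/-- `ρ_a u = β ^ (- n D) (a ^ (n D) + β ..)` for `a ≠ 0`: `pat_trunc_y` with `J = b + 1`:
`ρ_a a' = β ^ (-M) (a ^ M + β ..)` (the part with exponents `1 ≤ n`, `0 ≤ m ≤ M - 1` has order
`≥ 2 - M`, `rho_LO`), `ρ_a w` has order `≥ J - b - n M = 1 - n M ≥ - n D - n M + 1`; so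
`ρ_a(t) ^ (n M) ρ_a u = β ^ (- n M - n D) (a ^ (n M + n D) + β ..)`, `LD_div`. -/
theorem rho_u_ne (hP : 2 ≤ P) (C : Cov k R H) [IsDomain R] (n D : ℕ) (η : R)
    (hη : B.Lt (η - algebraMap k[X] R (X ^ (n * D))) (n * D)) {u : OL k P R} {x y : MM k P R}
    (h : IsPat B P n D η u x y) (T : PowerSeries R) (a : k) (ha : a ≠ 0)
    (ρ : OL k P R →+* LaurentSeries R) (hρ : IsRho P T a ρ) :
    LD (-((n * D : ℕ) : ℤ)) (kR k R a ^ (n * D)) (ρ u) := by
  obtain ⟨b, hb⟩ := pat_trunc_y B P hP C n D η hη h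
  obtain ⟨M, a', w, h1, h2, h3⟩ := hb (b + 1)
  have hk : kR k R a ≠ 0 := (_root_.map_ne_zero (kR k R)).2 ha
  have h4 : LD (-(M : ℤ)) (kR k R a ^ M) (ρ a') := by
    have h5 : a' = algebraMap (LaurentSeries k)[X] (OL k P R) (X ^ M) +
        (a' - algebraMap (LaurentSeries k)[X] (OL k P R) (X ^ M)) := by ring
    rw [h5, map_add]
    refine LD_add (rho_t P T a ρ hρ M) ?_
    refine LO_mono (J := 1 - ((M - 1 : ℕ) : ℤ)) (by omega) ?_
    refine rho_LO B P T a ρ hρ 1 (M - 1) _ (Lat_mono B P ?_ h1)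
    intro i m hm
    refine ⟨hm.1, hm.2.1, ?_⟩
    omega
  have h5 : LO (-((n * D : ℕ) : ℤ) + (n : ℤ) * (-(M : ℤ)) + 1) (ρ w) := by
    refine LO_mono (J := ((b + 1 : ℕ) : ℤ) - ((b + n * M : ℕ) : ℤ)) ?_
      (rho_LO B P T a ρ hρ _ (b + n * M) w h2)
    push_cast
    nlinarith [Int.natCast_nonneg (n * D)]
  have h6 : LD (-((n * D : ℕ) : ℤ) + (n : ℤ) * (-(M : ℤ))) (kR k R a ^ (n * D) * (kR k R a ^ M) ^ n)
      (ρ (algebraMap (LaurentSeries k)[X] (OL k P R) (X ^ (n * M)) * u)) := by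
    rw [h3, map_add, map_mul, map_pow ρ a' n]
    exact LD_add (LD_mul (rho_t P T a ρ hρ (n * D)) (LD_pow h4 n)) h5
  rw [map_mul, ← pow_mul, mul_comm M n] at h6
  have h7 := LD_div (rho_t P T a ρ hρ (n * M)) h6 (pow_ne_zero _ hk) (pow_ne_zero _ hk)
  have h8 : -((n * D : ℕ) : ℤ) + (n : ℤ) * (-(M : ℤ)) - -((n * M : ℕ) : ℤ) =
      -((n * D : ℕ) : ℤ) := by
    push_cast
    ring
  rw [h8] at h7
  exact h7

end Pool.Agent.AB3
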