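import Pool.Agent.Lib.MP_5de024_nt.S.PatX.RhoB
import Pool.Agent.Lib.MP_5de024_nt.S.PatX.IndA

/-!
# Patching: the independence (part PAT, file IndB)
-/

set_option autoImplicit false
set_option linter.unusedSectionVars false

namespace Pool.Agent.AB3


open Polynomial

variable {k R H : Type} [Field k] [CommRing R] [Algebra k[X] R] [Group H] [Finite H] {N : ℕ}
  (B : RBas k R N) (P : ℕ)

theorem IndB_neg (p : ℕ) [Fact p.Prime] [CharP k p] (a : k) (j : ℕ) (ha : a ^ p ^ j = a) :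
    (-a) ^ p ^ j = -a := by
  rw [neg_pow, neg_one_pow_char_pow, ha, neg_one_mul]

/-- the independence of the translates of `u` -/
theorem pat_ind (p : ℕ) [Fact p.Prime] [Finite k] [CharP k p] (C : Cov k R H) (n r D : ℕ)
    (η : R) (hη0 : η ≠ 0)
    (hη : B.Lt (η - algebraMap k[X] R (X ^ (n * D))) (n * D))
    (hind : ∀ (e : H → ℕ) (c : k) (w : R), c ≠ 0 →
      (∏ᶠ h : H, (C.act h η) ^ e h) = algebraMap k[X] R (Polynomial.C c) * w ^ n →
      ∀ h h' : H, e h ≡ e h' [MOD n])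
    {u : OL k (p ^ (r + 1)) R} {x y : MM k (p ^ (r + 1)) R}
    (h : IsPat B (p ^ (r + 1)) n D η u x y)
    (sh : {a : k // a ^ p ^ (r + 1) = a} → (OL k (p ^ (r + 1)) R →+* OL k (p ^ (r + 1)) R))
    (hsh : ∀ a : {a : k // a ^ p ^ (r + 1) = a}, IsShf (gb (LaurentSeries k) (p ^ (r + 1)) (bL k))
      (bL k) (algebraMap k (LaurentSeries k) (a : k)) (sh a))
    (E : H → {a : k // a ^ p ^ (r + 1) = a} → ℕ) (c : LaurentSeries k)
    (w : OL k (p ^ (r + 1)) R) (hc : c ≠ 0)
    (hE : (∏ᶠ h : H, ∏ᶠ a, (Bs.act (evg k (LaurentSeries k)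
      (gb (LaurentSeries k) (p ^ (r + 1)) (bL k))) C.act h (sh a u)) ^ E h a) =
        algebraMap (LaurentSeries k)[X] (OL k (p ^ (r + 1)) R) (Polynomial.C c) * w ^ n)
    (a : {a : k // a ^ p ^ (r + 1) = a}) (σ σ' : H) : E σ a ≡ E σ' a [MOD n] := by
  classical
  have hp : 2 ≤ p := (Fact.out : p.Prime).two_le
  have hP : 2 ≤ p ^ (r + 1) := by
    calc 2 ≤ p := hp
      _ = p ^ 1 := (pow_one p).symm
      _ ≤ p ^ (r + 1) := Nat.pow_le_pow_right (by omega) (by omega)
  have hR : IsDomain R := cov_domain C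
  have hcR : CharP R p := charP_of_injective_ringHom (kR k R).injective p
  let _ := Fintype.ofFinite H
  let _ := Fintype.ofFinite {a : k // a ^ p ^ (r + 1) = a}
  obtain ⟨T, hT⟩ := tser_exists p R r (algebraMap k[X] R X)
  obtain ⟨ρ, hρ⟩ := rho_exists p r T hT (-(a : k)) (IndB_neg p (a : k) (r + 1) a.2)
  -- the image of every factor
  have hfac : ∀ (h : H) (b : {a : k // a ^ p ^ (r + 1) = a}),
      LD (if b = a then ((n * D : ℕ) : ℤ) else -((n * D : ℕ) : ℤ))
        (if b = a then C.act h η else kR k R ((b : k) - a) ^ (n * D))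
        (ρ (Bs.act (evg k (LaurentSeries k) (gb (LaurentSeries k) (p ^ (r + 1)) (bL k))) C.act h
          (sh b u))) := by
    intro g b
    rw [rho_act (p ^ (r + 1)) hP C T hT (-(a : k)) ρ hρ g (sh b u)]
    have h1 := rho_shf (p ^ (r + 1)) T (-(a : k)) (b : k) ρ hρ (sh b) (hsh b)
    by_cases hb : b = a
    · rw [if_pos hb, if_pos hb]
      subst hb
      rw [neg_add_cancel] at h1
      exact LD_hmap (C.act g : R →+* R)
        (rho_u_zero B (p ^ (r + 1)) hP C n D η hη h T (ρ.comp (sh b)) h1)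
    · rw [if_neg hb, if_neg hb]
      have hba : -(a : k) + (b : k) = (b : k) - a := by ring
      rw [hba] at h1
      have hne : (b : k) - a ≠ 0 := fun h0 => hb (Subtype.ext (sub_eq_zero.1 h0))
      have h2 := LD_hmap (C.act g : R →+* R)
        (rho_u_ne B (p ^ (r + 1)) hP C n D η hη h T ((b : k) - a) hne (ρ.comp (sh b)) h1)
      have h3 : (C.act g : R →+* R) (kR k R ((b : k) - a) ^ (n * D)) =
          kR k R ((b : k) - a) ^ (n * D) := by
        rw [map_pow]
        congr 1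
        exact (C.act g).commutes (Polynomial.C ((b : k) - a))
      rw [h3] at h2
      exact h2
  -- the left side
  have hL := LD_prod (Finset.univ : Finset H) _ _ _ fun g _ =>
    LD_prod (Finset.univ : Finset {a : k // a ^ p ^ (r + 1) = a}) _ _ _ fun b _ =>
      LD_pow (hfac g b) (E g b)
  have hcoef : (∏ g : H, ∏ b : {a : k // a ^ p ^ (r + 1) = a},
      (if b = a then C.act g η else kR k R ((b : k) - a) ^ (n * D)) ^ E g b) =
      (∏ g : H, (C.act g η) ^ E g a) * kR k R (∏ g : H,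
        ∏ b ∈ (Finset.univ : Finset {a : k // a ^ p ^ (r + 1) = a}).erase a,
          (((b : k) - a) ^ (n * D)) ^ E g b) := by
    rw [map_prod, ← Finset.prod_mul_distrib]
    refine Finset.prod_congr rfl fun g _ => ?_
    rw [← Finset.mul_prod_erase _ _ (Finset.mem_univ a), if_pos rfl, map_prod]
    congr 1
    refine Finset.prod_congr rfl fun b hb => ?_
    rw [if_neg (Finset.ne_of_mem_erase hb), map_pow, map_pow]
  rw [hcoef] at hL
  have hc1 : (∏ g : H, ∏ b ∈ (Finset.univ : Finset {a : k // a ^ p ^ (r + 1) = a}).erase a,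
      (((b : k) - a) ^ (n * D)) ^ E g b) ≠ 0 := by
    refine Finset.prod_ne_zero_iff.2 fun g _ => Finset.prod_ne_zero_iff.2 fun b hb => ?_
    refine pow_ne_zero _ (pow_ne_zero _ fun h0 => ?_)
    exact (Finset.ne_of_mem_erase hb) (Subtype.ext (sub_eq_zero.1 h0))
  generalize (∏ g : H, ∏ b ∈ (Finset.univ : Finset {a : k // a ^ p ^ (r + 1) = a}).erase a,
      (((b : k) - a) ^ (n * D)) ^ E g b) = c₁ at hL hc1
  have hlc : (∏ g : H, (C.act g η) ^ E g a) * kR k R c₁ ≠ 0 := by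
    refine mul_ne_zero (Finset.prod_ne_zero_iff.2 fun g _ => pow_ne_zero _ fun h0 => ?_)
      ((_root_.map_ne_zero (kR k R)).2 hc1)
    exact hη0 ((C.act g).map_eq_zero_iff.1 h0)
  -- the right side
  have hE' : (∏ g : H, ∏ b : {a : k // a ^ p ^ (r + 1) = a},
      (ρ (Bs.act (evg k (LaurentSeries k) (gb (LaurentSeries k) (p ^ (r + 1)) (bL k))) C.act g
        (sh b u))) ^ E g b) = hmap (kR k R) c * ρ w ^ n := by
    rw [← rho_C (p ^ (r + 1)) T (-(a : k)) ρ hρ c, ← map_pow, ← map_mul, ← hE,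
      finprod_eq_prod_of_fintype, map_prod]
    refine Finset.prod_congr rfl fun g _ => ?_
    rw [finprod_eq_prod_of_fintype, map_prod]
    exact Finset.prod_congr rfl fun b _ => (map_pow ρ _ _).symm
  rw [hE'] at hL
  obtain ⟨J₀, c₀, hc₀, hcLD⟩ := LD_exists hc
  have hcLD' := LD_hmap (kR k R) hcLD
  have hne := LD_ne hL hlc
  have hw : ∃ (J : ℤ) (w₀ : R), w₀ ^ n ≠ 0 ∧ LD J (w₀ ^ n) (ρ w ^ n) := by
    by_cases h0 : ρ w = 0
    · have hn : n = 0 := by
        by_contra hn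
        rw [h0, zero_pow hn, mul_zero] at hne
        exact hne rfl
      refine ⟨0, 1, by rw [one_pow]; exact one_ne_zero, ?_⟩
      rw [hn, pow_zero, pow_zero]
      exact LD_one
    · obtain ⟨J, w₀, hw₀, hwLD⟩ := LD_exists h0
      exact ⟨_, w₀, pow_ne_zero _ hw₀, LD_pow hwLD n⟩
  obtain ⟨J, w₀, hw₀, hwLD⟩ := hw
  have hkc : kR k R c₀ ≠ 0 := (_root_.map_ne_zero (kR k R)).2 hc₀
  obtain ⟨-, heq⟩ := LD_uniq hL (LD_mul hcLD' hwLD) hlc (mul_ne_zero hkc hw₀)
  refine hind (fun g => E g a) (c₀ / c₁) w₀ (div_ne_zero hc₀ hc1) ?_ σ σ'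
  rw [finprod_eq_prod_of_fintype]
  have hk1 : kR k R c₁ ≠ 0 := (_root_.map_ne_zero (kR k R)).2 hc1
  have h5 : algebraMap k[X] R (Polynomial.C (c₀ / c₁)) = kR k R (c₀ / c₁) := rfl
  rw [h5]
  refine mul_right_cancel₀ hk1 ?_
  rw [heq, mul_right_comm, ← map_mul, div_mul_cancel₀ _ hc1]

end Pool.Agent.AB3
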