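import Pool.Agent.Lib.MP_5de024_nt.S.PatX.SerB

/-!
# Patching: lattices, limits (part PAT, file LatB)
-/

set_option autoImplicit false
set_option linter.unusedSectionVars false

namespace Pool.Agent.AB3


open Polynomial

variable {k R H : Type} [Field k] [CommRing R] [Algebra k[X] R] [Group H] [Finite H] {N : ℕ}
  (B : RBas k R N) (P : ℕ)

theorem LatB_bz (a : ℤ) : bz k (-a) * bz k a = 1 := by
  unfold bz
  rw [HahnSeries.single_mul_single, neg_add_cancel, mul_one]
  rfl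

/-- every family of scaled coordinates occurs -/
theorem LatB_exists (c : Fin N → BA k) : ∃ z : MM k P R, ∀ i, co B P z i = c i := by
  refine ⟨(Bs.basis (phiPat k P) B.e).equivFun.symm (fun i => bz k (B.d i : ℤ) * c i), fun i => ?_⟩
  unfold co
  rw [← Module.Basis.equivFun_apply, LinearEquiv.apply_symm_apply, ← mul_assoc, LatB_bz, one_mul]

theorem LatB_ext {z w : MM k P R} (h : ∀ i, co B P z i = co B P w i) : z = w := by
  apply (Bs.basis (phiPat k P) B.e).repr.injective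
  ext1 i
  have h1 := h i
  unfold co at h1
  have h2 := congrArg (fun a => bz k (-(-(B.d i : ℤ))) * a) h1
  simp only [← mul_assoc] at h2
  have h3 : bz k (-(-(B.d i : ℤ))) * bz k (-(B.d i : ℤ)) = 1 := LatB_bz _
  rw [h3, one_mul, one_mul] at h2
  exact h2

/-- splitting by a condition on the exponents -/
theorem Lat_split {U : ℤ → ℤ → Prop} (V : ℤ → ℤ → Prop) {z : MM k P R} (hz : Lat B P U z) :
    ∃ x y : MM k P R, z = x + y ∧ Lat B P (fun n m => U n m ∧ V n m) x ∧
      Lat B P (fun n m => U n m ∧ ¬ V n m) y := by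
  have h := fun i => SU_split V (hz i)
  choose a b hab ha hb using h
  obtain ⟨x, hx⟩ := LatB_exists B P a
  obtain ⟨y, hy⟩ := LatB_exists B P b
  refine ⟨x, y, LatB_ext B P fun i => ?_, fun i => ?_, fun i => ?_⟩
  · rw [co_add, hx, hy]
    exact hab i
  · rw [hx]
    exact ha i
  · rw [hy]
    exact hb i

/-- if only finitely many powers of `β` occur then the powers of `t` are bounded -/
theorem Lat_bdd {U : ℤ → ℤ → Prop} (J K : ℤ) {z : MM k P R} (hz : Lat B P U z)
    (hU : ∀ n m, U n m → J ≤ n ∧ n < K) :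
    ∃ b : ℕ, Lat B P (fun n m => U n m ∧ -(b : ℤ) ≤ m ∧ m ≤ b) z := by
  have h := fun i => SU_bdd J K (hz i) hU
  choose b hb using h
  refine ⟨Finset.univ.sup b, fun i => SU_mono (fun n m hnm => ?_) (hb i)⟩
  have h1 : b i ≤ Finset.univ.sup b := Finset.le_sup (Finset.mem_univ i)
  have h2 : ((b i : ℕ) : ℤ) ≤ ((Finset.univ.sup b : ℕ) : ℤ) := by exact_mod_cast h1
  obtain ⟨h3, h4, h5⟩ := hnm
  exact ⟨h3, by linarith, by linarith⟩

/-- limits -/
theorem Lat_lim (x : ℕ → MM k P R)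
    (hx : ∀ J : ℕ, Lat B P (fun n _ => (J : ℤ) ≤ n) (x (J + 1) - x J)) :
    ∃ y : MM k P R, ∀ J : ℕ, Lat B P (fun n _ => (J : ℤ) ≤ n) (y - x J) := by
  have h : ∀ i, ∃ y : BA k, ∀ J : ℕ, SU (fun n _ => (J : ℤ) ≤ n) (y - co B P (x J) i) := by
    intro i
    refine SU_lim (fun J => co B P (x J) i) fun J => ?_
    have h1 := hx J i
    rw [co_sub] at h1
    exact h1
  choose c hc using h
  obtain ⟨y, hy⟩ := LatB_exists B P c
  refine ⟨y, fun J i => ?_⟩
  rw [co_sub, hy]
  exact hc i J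

theorem Lat_closed {U : ℤ → ℤ → Prop} {x : MM k P R}
    (h : ∀ J : ℕ, ∃ y, Lat B P U y ∧ Lat B P (fun n _ => (J : ℤ) ≤ n) (x - y)) :
    Lat B P U x := by
  intro i n m hnm
  obtain ⟨y, hy, hxy⟩ := h (n + 1).toNat
  have h1 := hy i n m hnm
  have h2 : ¬ (((n + 1).toNat : ℕ) : ℤ) ≤ n := by omega
  have h3 := hxy i n m h2
  rw [co_sub, cf_sub, h1, sub_zero] at h3
  exact h3

theorem Lat_sep {x : MM k P R} (h : ∀ J : ℕ, Lat B P (fun n _ => (J : ℤ) ≤ n) x) : x = 0 := by
  refine LatB_ext B P fun i => ?_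
  rw [co_zero]
  exact SU_sep fun J => h J i

end Pool.Agent.AB3
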