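import Pool.Agent.Lib.MP_5de024_nt.S.PatX.LatA
import Pool.Agent.Lib.MP_5de024_nt.S.PatX.LatB

/-!
# Patching: the recursion (part PAT, file Rec)
-/

set_option autoImplicit false
set_option linter.unusedSectionVars false

namespace Pool.Agent.AB3

open Polynomial

variable {k R : Type} [Field k] [CommRing R] [Algebra k[X] R] {N : ℕ}
  (B : RBas k R N) (P : ℕ)

/-- orders add up -/
theorem Rec_mul (hP : 1 ≤ P) {i j l : ℤ} {z w : MM k P R}
    (hz : Lat B P (fun a _ => i ≤ a) z) (hw : Lat B P (fun a _ => j ≤ a) w) (h : l ≤ i + j) :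
    Lat B P (fun a _ => l ≤ a) (z * w) :=
  Lat_mul B P hP hz hw fun n _ n' _ n'' _ h1 h2 h3 _ _ => by
    have h1' : i ≤ n := h1
    have h2' : j ≤ n' := h2
    show l ≤ n + n' + n''
    omega

theorem Rec_le {i j : ℤ} {z : MM k P R} (hz : Lat B P (fun a _ => i ≤ a) z) (h : j ≤ i) :
    Lat B P (fun a _ => j ≤ a) z :=
  Lat_mono B P (fun _ _ h1 => h.trans h1) hz

theorem Rec_neg {U : ℤ → ℤ → Prop} {z : MM k P R} (hz : Lat B P U z) : Lat B P U (-z) := by
  have h := Lat_sub B P (Lat_zero B P U) hz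
  rwa [zero_sub] at h

theorem Rec_one : Lat B P (fun a _ => 0 ≤ a) (1 : MM k P R) :=
  Lat_mono B P (fun _ _ h => h.1.symm.le) (Lat_one B P)

/-- an element congruent to one is of order at least zero -/
theorem Rec_zero {x : MM k P R} (hx : Lat B P (fun a _ => 1 ≤ a) (x - 1)) :
    Lat B P (fun a _ => 0 ≤ a) x := by
  have h := Lat_add B P (Rec_le B P hx (j := 0) (by omega)) (Rec_one B P)
  rwa [sub_add_cancel] at h

theorem Rec_nat {U : ℤ → ℤ → Prop} {z : MM k P R} (hz : Lat B P U z) (m : ℕ) :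
    Lat B P U ((m : MM k P R) * z) := by
  induction m with
  | zero =>
    rw [Nat.cast_zero, zero_mul]
    exact Lat_zero B P U
  | succ m ih =>
    have h : ((m + 1 : ℕ) : MM k P R) * z = (m : MM k P R) * z + z := by
      push_cast
      ring
    rw [h]
    exact Lat_add B P ih hz

/-- differences of powers -/
theorem Rec_pow_sub (hP : 1 ≤ P) {J : ℤ} {X x : MM k P R}
    (hX : Lat B P (fun a _ => 0 ≤ a) X) (hx : Lat B P (fun a _ => 0 ≤ a) x)
    (h : Lat B P (fun a _ => J ≤ a) (X - x)) (n : ℕ) :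
    Lat B P (fun a _ => 0 ≤ a) (X ^ n) ∧ Lat B P (fun a _ => J ≤ a) (X ^ n - x ^ n) := by
  induction n with
  | zero =>
    rw [pow_zero, pow_zero, sub_self]
    exact ⟨Rec_one B P, Lat_zero B P _⟩
  | succ n ih =>
    refine ⟨?_, ?_⟩
    · rw [pow_succ]
      exact Rec_mul B P hP ih.1 hX (by omega)
    · have e : X ^ (n + 1) - x ^ (n + 1) = X ^ n * (X - x) + (X ^ n - x ^ n) * x := by ring
      rw [e]
      exact Lat_add B P (Rec_mul B P hP ih.1 h (by omega)) (Rec_mul B P hP ih.2 hx (by omega))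

/-- Taylor expansion modulo order `J + 1` -/
theorem Rec_taylor (hP : 1 ≤ P) {J : ℤ} (hJ : 1 ≤ J) {x δ : MM k P R}
    (hx : Lat B P (fun a _ => 1 ≤ a) (x - 1)) (hδ : Lat B P (fun a _ => J ≤ a) δ) (n : ℕ) :
    Lat B P (fun a _ => J + 1 ≤ a) ((x + δ) ^ n - x ^ n - (n : MM k P R) * δ) := by
  have hx0 := Rec_zero B P hx
  have h1 : Lat B P (fun a _ => 1 ≤ a) (x + δ - 1) := by
    have e : x + δ - 1 = (x - 1) + δ := by ring
    rw [e]
    exact Lat_add B P hx (Rec_le B P hδ hJ)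
  have h2 : Lat B P (fun a _ => 0 ≤ a) (x + δ) := Rec_zero B P h1
  induction n with
  | zero =>
    have e : (x + δ) ^ 0 - x ^ 0 - ((0 : ℕ) : MM k P R) * δ = 0 := by
      push_cast
      ring
    rw [e]
    exact Lat_zero B P _
  | succ n ih =>
    have h3 : Lat B P (fun a _ => 1 ≤ a) (x ^ n - 1) := by
      have h4 := (Rec_pow_sub B P hP hx0 (Rec_one B P) hx n).2
      rwa [one_pow] at h4
    have e : (x + δ) ^ (n + 1) - x ^ (n + 1) - ((n + 1 : ℕ) : MM k P R) * δ =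
        (x ^ n - 1) * δ + (n : MM k P R) * (δ * (x + δ - 1)) +
          ((x + δ) ^ n - x ^ n - (n : MM k P R) * δ) * (x + δ) := by
      push_cast
      ring
    rw [e]
    refine Lat_add B P (Lat_add B P (Rec_mul B P hP h3 hδ (by omega))
      (Rec_nat B P (Rec_mul B P hP hδ h1 le_rfl) n)) (Rec_mul B P hP ih h2 (by omega))

/-- One step.  Let `ρ = q x ^ n - y ^ n`, of order `≥ J` in `β`.  Split `ρ = ρ₊ + ρ₋` by the sign of
the exponent of `t` (`Lat_split`), put `x' = x - ρ₊ / n`, `y' = y + ρ₋ / n` (`1 / n` is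
`algebraMap (kc k (n : k)⁻¹)`).  Modulo order `J + 1`: `q ≡ x ≡ y ≡ 1` modulo order `1`, so
`q x' ^ n ≡ q x ^ n - ρ₊`, `y' ^ n ≡ y ^ n + ρ₋`.  (The elements with exponents `n ≥ 0` form a
ring, those with `n ≥ J` an ideal in it; it is convenient to prove first: if `x - 1` has order
`≥ 1` and `δ` has order `≥ J ≥ 1` then `(x + δ) ^ n - x ^ n - n δ` has order `≥ J + 1`.) -/
theorem rec_step (hP : 1 ≤ P) (n : ℕ) (hn : (n : k) ≠ 0) (q : MM k P R)
    (hq : Lat B P (fun a _ => 1 ≤ a) (q - 1)) (J : ℕ) (hJ : 1 ≤ J) (x y : MM k P R)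
    (hx : Lat B P (fun a b => 1 ≤ a ∧ 0 ≤ b) (x - 1))
    (hy : Lat B P (fun a b => 1 ≤ a ∧ b < 0) (y - 1))
    (h : Lat B P (fun a _ => (J : ℤ) ≤ a) (q * x ^ n - y ^ n)) :
    ∃ x' y' : MM k P R, Lat B P (fun a b => (J : ℤ) ≤ a ∧ 0 ≤ b) (x' - x) ∧
      Lat B P (fun a b => (J : ℤ) ≤ a ∧ b < 0) (y' - y) ∧
      Lat B P (fun a _ => ((J + 1 : ℕ) : ℤ) ≤ a) (q * x' ^ n - y' ^ n) := by
  have hJ' : (1 : ℤ) ≤ (J : ℤ) := by exact_mod_cast hJ
  obtain ⟨ρ, σ, hρσ, hρ, hσ⟩ := Lat_split B P (fun _ b => 0 ≤ b) h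
  obtain ⟨c, hc⟩ : ∃ c : MM k P R, c = algebraMap (BA k) (MM k P R) (kc k (n : k)⁻¹) := ⟨_, rfl⟩
  have hcn : (n : MM k P R) * c = 1 := by
    have h1 : (n : MM k P R) = algebraMap (BA k) (MM k P R) (kc k (n : k)) := by
      rw [map_natCast, map_natCast]
    rw [h1, hc, ← map_mul, ← map_mul, mul_inv_cancel₀ hn, map_one, map_one]
  have hcL : ∀ {U : ℤ → ℤ → Prop} {z : MM k P R}, Lat B P U z → Lat B P U (c * z) := by
    intro U z hz
    rw [hc]
    refine Lat_smul B P (SU_kc _) hz ?_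
    rintro a b a' b' ⟨rfl, rfl⟩ hU
    rw [zero_add, zero_add]
    exact hU
  have h1 := Rec_neg B P (hcL hρ)
  have h2 := hcL hσ
  have h1J : Lat B P (fun a _ => (J : ℤ) ≤ a) (-(c * ρ)) := Lat_mono B P (fun _ _ h => h.1) h1
  have h2J : Lat B P (fun a _ => (J : ℤ) ≤ a) (c * σ) := Lat_mono B P (fun _ _ h => h.1) h2
  have hρJ : Lat B P (fun a _ => (J : ℤ) ≤ a) ρ := Lat_mono B P (fun _ _ h => h.1) hρ
  have hx1 : Lat B P (fun a _ => 1 ≤ a) (x - 1) := Lat_mono B P (fun _ _ h => h.1) hx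
  have hy1 : Lat B P (fun a _ => 1 ≤ a) (y - 1) := Lat_mono B P (fun _ _ h => h.1) hy
  refine ⟨x + -(c * ρ), y + c * σ, ?_, ?_, ?_⟩
  · rw [add_sub_cancel_left]
    exact h1
  · rw [add_sub_cancel_left]
    exact Lat_mono B P (fun _ _ h => ⟨h.1, not_le.1 h.2⟩) h2
  · have ha := Rec_taylor B P hP hJ' hx1 h1J n
    have hb := Rec_taylor B P hP hJ' hy1 h2J n
    have e1 : (n : MM k P R) * -(c * ρ) = -ρ := by
      linear_combination (-ρ) * hcn
    have e2 : (n : MM k P R) * (c * σ) = σ := by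
      linear_combination σ * hcn
    have e : q * (x + -(c * ρ)) ^ n - (y + c * σ) ^ n =
        q * ((x + -(c * ρ)) ^ n - x ^ n - (n : MM k P R) * -(c * ρ)) -
          ((y + c * σ) ^ n - y ^ n - (n : MM k P R) * (c * σ)) - (q - 1) * ρ := by
      rw [e1, e2]
      linear_combination hρσ
    rw [e]
    push_cast
    exact Lat_sub B P (Lat_sub B P (Rec_mul B P hP (Rec_zero B P hq) ha (by omega)) hb)
      (Rec_mul B P hP hq hρJ (by omega))

/-- Start with `x = y = 1`, `J = 1`; iterate `rec_step` (a sequence in the subtype of the pairs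
with the three properties, `x_(J+1) - x_J` of order `≥ J`), take the limits (`Lat_lim`,
`Lat_closed` for `x - 1`, `y - 1`); `q x ^ n - y ^ n` has order `≥ J` for all `J`, `Lat_sep`. -/
theorem rec_main (hP : 1 ≤ P) (n : ℕ) (hn : (n : k) ≠ 0) (q : MM k P R)
    (hq : Lat B P (fun a _ => 1 ≤ a) (q - 1)) :
    ∃ x y : MM k P R, Lat B P (fun a b => 1 ≤ a ∧ 0 ≤ b) (x - 1) ∧
      Lat B P (fun a b => 1 ≤ a ∧ b < 0) (y - 1) ∧ q * x ^ n = y ^ n := by
  let Q : ℕ → MM k P R × MM k P R → Prop := fun J p =>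
    Lat B P (fun a b => 1 ≤ a ∧ 0 ≤ b) (p.1 - 1) ∧
      Lat B P (fun a b => 1 ≤ a ∧ b < 0) (p.2 - 1) ∧
      Lat B P (fun a _ => ((J + 1 : ℕ) : ℤ) ≤ a) (q * p.1 ^ n - p.2 ^ n)
  have step : ∀ (J : ℕ) (s : {p : MM k P R × MM k P R // Q J p}),
      ∃ s' : {p : MM k P R × MM k P R // Q (J + 1) p},
        Lat B P (fun a _ => (J : ℤ) ≤ a) (s'.1.1 - s.1.1) ∧
        Lat B P (fun a _ => (J : ℤ) ≤ a) (s'.1.2 - s.1.2) := by
    rintro J ⟨⟨x, y⟩, hx, hy, h⟩
    obtain ⟨x', y', hx', hy', h'⟩ := rec_step B P hP n hn q hq (J + 1) (by omega) x y hx hy h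
    refine ⟨⟨⟨x', y'⟩, ?_, ?_, h'⟩, ?_, ?_⟩
    · have e : x' - 1 = (x' - x) + (x - 1) := by ring
      show Lat B P (fun a b => 1 ≤ a ∧ 0 ≤ b) (x' - 1)
      rw [e]
      refine Lat_add B P (Lat_mono B P (fun a b hab => ⟨?_, hab.2⟩) hx') hx
      have := hab.1
      push_cast at this
      omega
    · have e : y' - 1 = (y' - y) + (y - 1) := by ring
      show Lat B P (fun a b => 1 ≤ a ∧ b < 0) (y' - 1)
      rw [e]
      refine Lat_add B P (Lat_mono B P (fun a b hab => ⟨?_, hab.2⟩) hy') hy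
      have := hab.1
      push_cast at this
      omega
    · refine Lat_mono B P (fun a b hab => ?_) hx'
      have := hab.1
      push_cast at this
      omega
    · refine Lat_mono B P (fun a b hab => ?_) hy'
      have := hab.1
      push_cast at this
      omega
  have h0 : Q 0 (1, 1) := by
    refine ⟨?_, ?_, ?_⟩
    · show Lat B P _ ((1 : MM k P R) - 1)
      rw [sub_self]
      exact Lat_zero B P _
    · show Lat B P _ ((1 : MM k P R) - 1)
      rw [sub_self]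
      exact Lat_zero B P _
    · show Lat B P _ (q * (1 : MM k P R) ^ n - 1 ^ n)
      rw [one_pow, mul_one]
      exact Rec_le B P hq (by norm_num)
  choose f hf1 hf2 using step
  let s : (J : ℕ) → {p : MM k P R × MM k P R // Q J p} := fun J =>
    Nat.rec (motive := fun J => {p : MM k P R × MM k P R // Q J p}) ⟨(1, 1), h0⟩ f J
  have hs : ∀ J, s (J + 1) = f J (s J) := fun J => rfl
  obtain ⟨x, hx⟩ := Lat_lim B P (fun J => (s J).1.1) (fun J => by
    show Lat B P _ ((s (J + 1)).1.1 - (s J).1.1)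
    rw [hs]
    exact hf1 J (s J))
  obtain ⟨y, hy⟩ := Lat_lim B P (fun J => (s J).1.2) (fun J => by
    show Lat B P _ ((s (J + 1)).1.2 - (s J).1.2)
    rw [hs]
    exact hf2 J (s J))
  have hx1 : Lat B P (fun a b => 1 ≤ a ∧ 0 ≤ b) (x - 1) := by
    refine Lat_closed B P fun J => ⟨(s J).1.1 - 1, (s J).2.1, ?_⟩
    have e : x - 1 - ((s J).1.1 - 1) = x - (s J).1.1 := by ring
    rw [e]
    exact hx J
  have hy1 : Lat B P (fun a b => 1 ≤ a ∧ b < 0) (y - 1) := by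
    refine Lat_closed B P fun J => ⟨(s J).1.2 - 1, (s J).2.2.1, ?_⟩
    have e : y - 1 - ((s J).1.2 - 1) = y - (s J).1.2 := by ring
    rw [e]
    exact hy J
  refine ⟨x, y, hx1, hy1, ?_⟩
  apply sub_eq_zero.1
  refine Lat_sep B P fun J => ?_
  have a0 : Lat B P (fun a _ => 0 ≤ a) x :=
    Rec_zero B P (Lat_mono B P (fun _ _ h => h.1) hx1)
  have a1 : Lat B P (fun a _ => 0 ≤ a) y :=
    Rec_zero B P (Lat_mono B P (fun _ _ h => h.1) hy1)
  have a2 : Lat B P (fun a _ => 0 ≤ a) (s J).1.1 :=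
    Rec_zero B P (Lat_mono B P (fun _ _ h => h.1) (s J).2.1)
  have a3 : Lat B P (fun a _ => 0 ≤ a) (s J).1.2 :=
    Rec_zero B P (Lat_mono B P (fun _ _ h => h.1) (s J).2.2.1)
  have b1 := (Rec_pow_sub B P hP a0 a2 (hx J) n).2
  have b2 := (Rec_pow_sub B P hP a1 a3 (hy J) n).2
  have b3 : Lat B P (fun a _ => (J : ℤ) ≤ a) (q * (s J).1.1 ^ n - (s J).1.2 ^ n) :=
    Rec_le B P (s J).2.2.2 (by push_cast; omega)
  have e : q * x ^ n - y ^ n = q * (x ^ n - (s J).1.1 ^ n) - (y ^ n - (s J).1.2 ^ n) +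
      (q * (s J).1.1 ^ n - (s J).1.2 ^ n) := by ring
  rw [e]
  exact Lat_add B P (Lat_sub B P (Rec_mul B P hP (Rec_zero B P hq) b1 (by omega)) b2) b3

end Pool.Agent.AB3
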