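import Pool.Agent.Lib.MP_5de024_nt.S.PatX.CoreA
import Pool.Agent.Lib.MP_5de024_nt.S.PatX.Rec

/-!
# Patching: the element `u` (part PAT, file CoreB)
-/

set_option autoImplicit false
set_option linter.unusedSectionVars false

namespace Pool.Agent.AB3


open Polynomial

variable {k R H : Type} [Field k] [CommRing R] [Algebra k[X] R] [Group H] [Finite H] {N : ℕ}
  (B : RBas k R N) (P : ℕ)

private theorem CoreB_bdd (hP : 2 ≤ P) (n D : ℕ) (η : R)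
    (hη : B.Lt (η - algebraMap k[X] R (X ^ (n * D))) (n * D)) {w x y : MM k P R}
    (hx : Lat B P (fun a b => 1 ≤ a ∧ 0 ≤ b) (x - 1))
    (hy : Lat B P (fun a b => 1 ≤ a ∧ b < 0) (y - 1)) (h1 : w = HHe P n D η * x ^ n)
    (h2 : w = algebraMap (BA k) (MM k P R) (tz k ((n * D : ℕ) : ℤ)) * y ^ n) :
    ∃ b : ℕ, Lat B P (fun a m => 0 ≤ a ∧ 0 ≤ m ∧ m ≤ b) w := by
  have hP1 : 1 ≤ P := by omega
  obtain ⟨⟨b, hb⟩, -⟩ := hh_lat B P hP n D η hη
  have hx1 : Lat B P (fun a m => 0 ≤ a ∧ 0 ≤ m) x := by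
    have h3 := Lat_add B P (U := fun a m => 0 ≤ a ∧ 0 ≤ m)
      (Lat_mono B P (fun a m h => ⟨by omega, h.2⟩) hx)
      (Lat_mono B P (fun a m h => ⟨by omega, by omega⟩) (Lat_one B P))
    rwa [sub_add_cancel] at h3
  have hy1 : Lat B P (fun a m => 0 ≤ a ∧ m ≤ (0 : ℕ)) y := by
    have h3 := Lat_add B P (U := fun a m => 0 ≤ a ∧ m ≤ (0 : ℕ))
      (Lat_mono B P (fun a m h => ⟨by omega, by
        rw [Nat.cast_zero]
        exact h.2.le⟩) hy)
      (Lat_mono B P (fun a m h => ⟨by omega, by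
        rw [Nat.cast_zero]
        exact h.2.le⟩) (Lat_one B P))
    rwa [sub_add_cancel] at h3
  have hxn := Lat_pow B P hP1 hx1 ⟨le_refl _, le_refl _⟩
    (fun a m a' m' a'' m'' h h' h1 h2 _ => ⟨by omega, by omega⟩) n
  have hyn := Lat_pow_bdd B P hP1 hy1 n
  have hw1 : Lat B P (fun a m => 0 ≤ a ∧ 0 ≤ m) w := by
    rw [h1]
    exact Lat_mul B P hP1 hb hxn (fun a m a' m' a'' m'' h h' h1 h2 _ => ⟨by omega, by omega⟩)
  have hw2 : Lat B P (fun a m => 0 ≤ a ∧ m ≤ ((n * D + (0 + KB B P) * n : ℕ) : ℤ)) w := by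
    rw [h2]
    refine Lat_smul B P (SU_tz _) hyn (fun a m a' m' h h' => ⟨by omega, ?_⟩)
    rw [Nat.cast_add]
    have h3 := h'.2
    have h4 := h.2
    omega
  refine ⟨n * D + (0 + KB B P) * n, fun i a m hcon => ?_⟩
  by_cases h3 : 0 ≤ a ∧ 0 ≤ m
  · exact hw2 i a m (fun h => hcon ⟨h3.1, h3.2, h.2⟩)
  · exact hw1 i a m h3

/-- The element `u` exists: `rec_main` for `q`; `HH x ^ n = t ^ (n D) y ^ n` has exponents
`0 ≤ n`, `0 ≤ m` by the first form and `m ≤ b` by the second one (`Lat_pow_bdd`), so it is in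
the image of `OL` (`iM_surj`). -/
theorem pat_exists (hP : 2 ≤ P) (n D : ℕ) (hn : (n : k) ≠ 0) (η : R)
    (hη : B.Lt (η - algebraMap k[X] R (X ^ (n * D))) (n * D)) :
    ∃ (u : OL k P R) (x y : MM k P R), IsPat B P n D η u x y := by
  obtain ⟨-, q, hq, hH⟩ := hh_lat B P hP n D η hη
  obtain ⟨x, y, hx, hy, hxy⟩ := rec_main B P (by omega) n hn q hq
  have h2 : HHe P n D η * x ^ n =
      algebraMap (BA k) (MM k P R) (tz k ((n * D : ℕ) : ℤ)) * y ^ n := by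
    rw [hH, mul_assoc, hxy]
  obtain ⟨b, hb⟩ := CoreB_bdd B P hP n D η hη hx hy rfl h2
  obtain ⟨u, hu⟩ := iM_surj B P 0 b _ hb
  exact ⟨u, x, y, hx, hy, hu, hu.trans h2⟩

/-- bounds for the exponents of `u` -/
theorem pat_bdd (hP : 2 ≤ P) (n D : ℕ) (η : R)
    (hη : B.Lt (η - algebraMap k[X] R (X ^ (n * D))) (n * D)) {u : OL k P R} {x y : MM k P R}
    (h : IsPat B P n D η u x y) :
    ∃ b : ℕ, Lat B P (fun a m => 0 ≤ a ∧ 0 ≤ m ∧ m ≤ b) (iM k P R u) :=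
  CoreB_bdd B P hP n D η hη h.1 h.2.1 h.2.2.1 h.2.2.2

end Pool.Agent.AB3
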