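import Pool.Agent.Lib.MP_5de024_nt.S.PatX.NrmA
import Pool.Agent.Lib.MP_5de024_nt.S.PatX.CoreB

/-!
# Patching: the norm of `u` (part PAT, file NrmB)
-/

set_option autoImplicit false
set_option linter.unusedSectionVars false

namespace Pool.Agent.AB3


open Polynomial

variable {k R H : Type} [Field k] [CommRing R] [Algebra k[X] R] [Group H] [Finite H] {N : ℕ}
  (B : RBas k R N) (P : ℕ)

/-- the norm of an element of a ring with a group action is fixed -/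
theorem NrmB_fixed {S A : Type} [CommRing S] [CommRing A] [Algebra A S] [Fintype H]
    (ρ : H →* (S ≃ₐ[A] S)) (z : S) (g : H) : ρ g (∏ h : H, ρ h z) = ∏ h : H, ρ h z := by
  rw [map_prod]
  have h1 : ∀ h : H, ρ g (ρ h z) = ρ (g * h) z := by
    intro h
    rw [map_mul]
    rfl
  rw [Finset.prod_congr rfl fun h _ => h1 h]
  exact Fintype.prod_equiv (Equiv.mulLeft g) _ _ (fun h => rfl)

/-- `v₁ ^ n = v₂ ^ n` in a domain with a primitive root of unity -/
theorem NrmB_root {A : Type} [CommRing A] [IsDomain A] {ζ : A} {n : ℕ} (hn : 0 < n)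
    (hζ : IsPrimitiveRoot ζ n) {x y : A} (h : x ^ n = y ^ n) : ∃ i : ℕ, x = ζ ^ i * y := by
  have : NeZero n := ⟨hn.ne'⟩
  have h1 := hζ.pow_sub_pow_eq_prod_sub_mul x y hn
  rw [h, sub_self] at h1
  obtain ⟨ξ, hξ, h2⟩ := Finset.prod_eq_zero_iff.1 h1.symm
  rw [Polynomial.mem_nthRootsFinset hn] at hξ
  obtain ⟨i, -, rfl⟩ := hζ.eq_pow_of_pow_eq_one hξ
  exact ⟨i, sub_eq_zero.1 h2⟩

/-- products of elements with exponents `0 ≤ n`, `0 ≤ m` -/
theorem NrmB_prod_pos (hP : 1 ≤ P) {ι : Type} (s : Finset ι) (f : ι → MM k P R)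
    (hf : ∀ i ∈ s, Lat B P (fun a b => 0 ≤ a ∧ 0 ≤ b) (f i)) :
    Lat B P (fun a b => 0 ≤ a ∧ 0 ≤ b) (∏ i ∈ s, f i) := by
  classical
  induction s using Finset.induction_on with
  | empty =>
    rw [Finset.prod_empty]
    exact Lat_mono B P (fun n m hnm => ⟨hnm.1.ge, hnm.2.ge⟩) (Lat_one B P)
  | insert i s hi ih =>
    rw [Finset.prod_insert hi]
    refine Lat_mul B P hP (hf i (Finset.mem_insert_self i s))
      (ih fun j hj => hf j (Finset.mem_insert_of_mem hj)) ?_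
    intro n m n' m' n'' m'' h1 h2 h3 h4 h5
    exact ⟨by linarith [h1.1, h2.1], by linarith [h1.2, h2.2]⟩

/-- products of elements with exponents `0 ≤ n`, `m ≤ KB` -/
theorem NrmB_prod_bdd (hP : 1 ≤ P) {ι : Type} (s : Finset ι) (f : ι → MM k P R)
    (hf : ∀ i ∈ s, Lat B P (fun a b => 0 ≤ a ∧ b ≤ KB B P) (f i)) :
    Lat B P (fun a b => 0 ≤ a ∧ b ≤ (2 * KB B P * s.card : ℕ)) (∏ i ∈ s, f i) := by
  classical
  induction s using Finset.induction_on with
  | empty =>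
    rw [Finset.prod_empty, Finset.card_empty, mul_zero]
    exact Lat_mono B P (fun n m hnm => ⟨hnm.1.ge, by rw [hnm.2]; exact le_rfl⟩) (Lat_one B P)
  | insert i s hi ih =>
    rw [Finset.prod_insert hi, Finset.card_insert_of_notMem hi]
    refine Lat_mul B P hP (hf i (Finset.mem_insert_self i s))
      (ih fun j hj => hf j (Finset.mem_insert_of_mem hj)) ?_
    intro n m n' m' n'' m'' h1 h2 h3 h4 h5
    refine ⟨by linarith [h1.1, h2.1], ?_⟩
    have h6 := h1.2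
    have h7 := h2.2
    push_cast at h7 ⊢
    linarith

/-- Let `N(z) = ∏ h z` in the big ring.  `N(x) = algebraMap f₁`, `N(y) = algebraMap f₂` (`bs_fixed`),
`f₁` of exponents `0 ≤ n`, `0 ≤ m` (`Lat_act`, `Lat_mul`, `Lat_alg_inv`), `f₂` of exponents
`0 ≤ n`, `m ≤ b`.  `v₁ = β ^ (D |H|) φ(y₀) f₁` (exponents `0 ≤ n`, `0 ≤ m` by `phi_SU` and `deg_y`),
`v₂ = t ^ (D |H|) f₂` (exponents `0 ≤ n`, `m ≤ b'`), and `v₁ ^ n = v₂ ^ n` (both map to `N(iM u)`;
`bs_inj`).  `BA k` is a domain and `ζ ∈ k` a primitive `n`-th root of unity: `v₁ = ζ ^ i v₂`, so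
`v₁` has exponents `0 ≤ n`, `0 ≤ m ≤ b'`, `v₁ = iA v` (`iA_surj`).  `iM_inj`. -/
theorem pat_norm (hP : 2 ≤ P) (C : Cov k R H) (hS : B.Stab C) (n D : ℕ) (hn : 0 < n)
    (hζ : ∃ ζ : k, IsPrimitiveRoot ζ n) (η : R)
    (hη : B.Lt (η - algebraMap k[X] R (X ^ (n * D))) (n * D)) (y₀ : k[X])
    (hy : (∏ᶠ h : H, C.act h η) = algebraMap k[X] R y₀ ^ n)
    {u : OL k P R} {x y : MM k P R} (h : IsPat B P n D η u x y) :
    ∃ v : (LaurentSeries k)[X],
      (∏ᶠ h : H, Bs.act (evg k (LaurentSeries k) (gb (LaurentSeries k) P (bL k))) C.act h u) =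
        algebraMap (LaurentSeries k)[X] (OL k P R) v ^ n := by
  classical
  have : Fintype H := Fintype.ofFinite H
  have hdomR := cov_domain C
  have hdom : IsDomain (BA k) := BA_domain
  have hP1 : 1 ≤ P := by omega
  obtain ⟨hx, hy', hu1, hu2⟩ := h
  -- the norm of `y₀`
  have hdeg : y₀.natDegree ≤ D * Nat.card H := deg_y B C hS n D hn η hη y₀ hy
  rw [finprod_eq_prod_of_fintype] at hy ⊢
  -- the norms of `x` and `y`
  obtain ⟨f₁, hf₁⟩ := bs_fixed C (phiPat k P) (∏ σ : H, Bs.act (phiPat k P) C.act σ x)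
    (fun g => NrmB_fixed (Bs.act (phiPat k P) C.act) x g)
  obtain ⟨f₂, hf₂⟩ := bs_fixed C (phiPat k P) (∏ σ : H, Bs.act (phiPat k P) C.act σ y)
    (fun g => NrmB_fixed (Bs.act (phiPat k P) C.act) y g)
  -- exponents of `x`, `f₁`
  have hx0 : Lat B P (fun a b => 0 ≤ a ∧ 0 ≤ b) x := by
    have e : x = 1 + (x - 1) := by ring
    rw [e]
    refine Lat_add B P (Lat_mono B P (fun n m hnm => ⟨hnm.1.ge, hnm.2.ge⟩) (Lat_one B P))
      (Lat_mono B P (fun n m hnm => ⟨by linarith [hnm.1], hnm.2⟩) hx)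
  have hf1 : SU (fun a b => 0 ≤ a ∧ 0 ≤ b) f₁ := by
    apply Lat_alg_inv B P
    rw [hf₁]
    refine NrmB_prod_pos B P hP1 _ _ fun σ _ => ?_
    refine Lat_act B P hP1 C hS hx0 σ ?_
    intro n m n'' m'' h1 h2 h3 h4
    exact ⟨by linarith [h1.1], by linarith [h1.2]⟩
  -- exponents of `y`, `f₂`
  have hy0 : Lat B P (fun a b => 0 ≤ a ∧ b ≤ 0) y := by
    have e : y = 1 + (y - 1) := by ring
    rw [e]
    refine Lat_add B P (Lat_mono B P (fun n m hnm => ⟨hnm.1.ge, hnm.2.le⟩) (Lat_one B P))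
      (Lat_mono B P (fun n m hnm => ⟨by linarith [hnm.1], hnm.2.le⟩) hy')
  have hf2 : SU (fun a b => 0 ≤ a ∧ b ≤ (2 * KB B P * (Finset.univ : Finset H).card : ℕ)) f₂ := by
    apply Lat_alg_inv B P
    rw [hf₂]
    refine NrmB_prod_bdd B P hP1 _ _ fun σ _ => ?_
    refine Lat_act B P hP1 C hS hy0 σ ?_
    intro n m n'' m'' h1 h2 h3 h4
    exact ⟨by linarith [h1.1], by linarith [h1.2]⟩
  -- the two roots
  obtain ⟨v₁, hv₁⟩ : ∃ v₁ : BA k,
      v₁ = bz k ((D * Nat.card H : ℕ) : ℤ) * phiPat k P y₀ * f₁ := ⟨_, rfl⟩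
  obtain ⟨v₂, hv₂⟩ : ∃ v₂ : BA k, v₂ = tz k ((D * Nat.card H : ℕ) : ℤ) * f₂ := ⟨_, rfl⟩
  have hv1 : SU (fun a b => 0 ≤ a ∧ 0 ≤ b) v₁ := by
    rw [hv₁]
    refine SU_mul (phi_SU P hP1 y₀ _ hdeg) hf1 ?_
    intro n m n' m' h1 h2
    exact ⟨by linarith [h1.1, h2.1], by linarith [h1.2.1, h2.2]⟩
  have hv2 : SU (fun a b => 0 ≤ a ∧
      b ≤ (D * Nat.card H + 2 * KB B P * (Finset.univ : Finset H).card : ℕ)) v₂ := by
    rw [hv₂]
    refine SU_mul (SU_tz _) hf2 ?_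
    intro n m n' m' h1 h2
    refine ⟨by linarith [h1.1, h2.1], ?_⟩
    have h6 := h1.2
    have h7 := h2.2
    push_cast at h6 h7 ⊢
    linarith
  -- both powers are the norm of `u`
  have hcard : (Finset.univ : Finset H).card = Nat.card H := by
    rw [Finset.card_univ, Nat.card_eq_fintype_card]
  have ebz : algebraMap (BA k) (MM k P R) (bz k ((n * D : ℕ) : ℤ)) ^ Nat.card H =
      algebraMap (BA k) (MM k P R) (bz k ((D * Nat.card H : ℕ) : ℤ)) ^ n := by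
    have e : bz k ((n * D : ℕ) : ℤ) ^ Nat.card H = bz k ((D * Nat.card H : ℕ) : ℤ) ^ n := by
      rw [bz_pow, bz_pow]
      congr 1
      push_cast
      ring
    rw [← map_pow, ← map_pow, e]
  have etz : algebraMap (BA k) (MM k P R) (tz k ((n * D : ℕ) : ℤ)) ^ Nat.card H =
      algebraMap (BA k) (MM k P R) (tz k ((D * Nat.card H : ℕ) : ℤ)) ^ n := by
    have e : tz k ((n * D : ℕ) : ℤ) ^ Nat.card H = tz k ((D * Nat.card H : ℕ) : ℤ) ^ n := by
      rw [tz_pow, tz_pow]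
      congr 1
      push_cast
      ring
    rw [← map_pow, ← map_pow, e]
  have hN1 : iM k P R (∏ σ : H, Bs.act (evg k (LaurentSeries k)
      (gb (LaurentSeries k) P (bL k))) C.act σ u) = algebraMap (BA k) (MM k P R) (v₁ ^ n) := by
    rw [map_prod]
    simp only [iM_act, hu1, HHe, map_mul, map_pow, Bs.act_alg, Bs.act_inR]
    rw [Finset.prod_mul_distrib, Finset.prod_mul_distrib, Finset.prod_const, Finset.prod_pow,
      ← map_prod, hy, ← hf₁, hv₁, hcard, ebz]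
    rw [map_pow (Bs.inR (phiPat k P) R), Bs.inR_alg, map_mul (algebraMap (BA k) (MM k P R)),
      map_mul (algebraMap (BA k) (MM k P R)), mul_pow, mul_pow]
  have hN2 : iM k P R (∏ σ : H, Bs.act (evg k (LaurentSeries k)
      (gb (LaurentSeries k) P (bL k))) C.act σ u) = algebraMap (BA k) (MM k P R) (v₂ ^ n) := by
    rw [map_prod]
    simp only [iM_act, hu2, map_mul, map_pow, Bs.act_alg]
    rw [Finset.prod_mul_distrib, Finset.prod_const, Finset.prod_pow, ← hf₂, hv₂, hcard, etz]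
    rw [map_mul (algebraMap (BA k) (MM k P R)), mul_pow]
  have hpow : v₁ ^ n = v₂ ^ n := bs_inj C (phiPat k P) (hN1.symm.trans hN2)
  -- the root of unity
  obtain ⟨ζ, hζ⟩ := hζ
  have hkc : Function.Injective (kc k) := (kc k).injective
  obtain ⟨i, hi⟩ := NrmB_root hn (hζ.map_of_injective hkc) hpow
  have hv12 : SU (fun a b => 0 ≤ a ∧
      b ≤ (D * Nat.card H + 2 * KB B P * (Finset.univ : Finset H).card : ℕ)) v₁ := by
    intro a b hab
    rw [hi, ← map_pow, cf_kc, hv2 a b hab, mul_zero]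
  have hv : SU (fun a b => 0 ≤ a ∧ 0 ≤ b ∧
      b ≤ (D * Nat.card H + 2 * KB B P * (Finset.univ : Finset H).card : ℕ)) v₁ := by
    intro a b hab
    by_cases h1 : 0 ≤ a ∧ 0 ≤ b
    · exact hv12 a b fun h2 => hab ⟨h1.1, h1.2, h2.2⟩
    · exact hv1 a b h1
  obtain ⟨v, hv', -, -⟩ := iA_surj 0 _ v₁ hv
  refine ⟨v, iM_inj P C ?_⟩
  rw [hN1, map_pow, map_pow, iM_alg, hv']

end Pool.Agent.AB3
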