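import Pool.Agent.Lib.MP_5de024_nt.S.Defs

/-!
# Patching: certificates (part PAT, file ValA)
-/

set_option autoImplicit false
set_option linter.unusedSectionVars false

namespace Pool.Agent.AB3

/-- `J = (a₀, a₁)` (`IsDedekindDomain.exists_sup_span_eq`), `(a₀) = J A`, `(a₁) = J B` with
`A ⊔ B = ⊤`, so `A ^ n ⊔ B ^ n = ⊤` and `(a₀ ^ n, a₁ ^ n) = J ^ n = (u)`; so `a_i ^ n = u c_i`,
`u = d₀ a₀ ^ n + d₁ a₁ ^ n`, cancel `u`. -/
theorem cert_of_pow {S : Type} [CommRing S] [IsDedekindDomain S] (n : ℕ) (hn : 0 < n) (u : S)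
    (hu : u ≠ 0) (J : Ideal S) (h : J ^ n = Ideal.span {u}) : Cert n u := by
  have hJ : J ≠ ⊥ := by
    intro h0
    rw [h0, Ideal.bot_pow hn.ne'] at h
    exact hu (Ideal.span_singleton_eq_bot.1 h.symm)
  obtain ⟨a0, ha0, ha0'⟩ := Submodule.exists_mem_ne_zero_of_ne_bot hJ
  obtain ⟨a1, ha1⟩ := IsDedekindDomain.exists_sup_span_eq
    (I := Ideal.span {a0}) (J := J) ((Ideal.span_singleton_le_iff_mem J).2 ha0)
    (fun h0 => ha0' (Ideal.span_singleton_eq_bot.1 h0))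
  obtain ⟨A, hA⟩ := Ideal.dvd_iff_le.2 (le_sup_left.trans ha1.le)
  obtain ⟨B, hB⟩ := Ideal.dvd_iff_le.2 (le_sup_right.trans ha1.le)
  have h1 : J * (A ⊔ B) = J * ⊤ := by
    rw [Ideal.mul_sup, ← hA, ← hB, ha1, Ideal.mul_top]
  have h2 : A ⊔ B = ⊤ := mul_left_cancel₀ hJ h1
  have h3 : A ^ n ⊔ B ^ n = ⊤ := Ideal.pow_sup_pow_eq_top h2
  have h4 : Ideal.span {a0 ^ n} ⊔ Ideal.span {a1 ^ n} = Ideal.span {u} := by
    rw [← Ideal.span_singleton_pow, ← Ideal.span_singleton_pow, hA, hB, mul_pow, mul_pow,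
      ← Ideal.mul_sup, h3, Ideal.mul_top, h]
  obtain ⟨c0, hc0⟩ := Ideal.mem_span_singleton.1
    (h4.le (Submodule.mem_sup_left (Ideal.mem_span_singleton_self (a0 ^ n))))
  obtain ⟨c1, hc1⟩ := Ideal.mem_span_singleton.1
    (h4.le (Submodule.mem_sup_right (Ideal.mem_span_singleton_self (a1 ^ n))))
  obtain ⟨x, hx, y, hy, hxy⟩ := Submodule.mem_sup.1 (h4.ge (Ideal.mem_span_singleton_self u))
  obtain ⟨d0, rfl⟩ := Ideal.mem_span_singleton.1 hx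
  obtain ⟨d1, rfl⟩ := Ideal.mem_span_singleton.1 hy
  refine ⟨a0, a1, c0, c1, d0, d1, hc0, hc1, mul_left_cancel₀ hu ?_⟩
  rw [mul_one]
  calc u * (d0 * c0 + d1 * c1) = u * c0 * d0 + u * c1 * d1 := by ring
    _ = a0 ^ n * d0 + a1 ^ n * d1 := by rw [← hc0, ← hc1]
    _ = u := hxy

end Pool.Agent.AB3
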