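import Pool.Agent.Lib.MP_5de024_nt.S.PatX.ValA

/-!
# Patching: `n`-th powers of ideals (part PAT, file ValB)
-/

set_option autoImplicit false
set_option linter.unusedSectionVars false

namespace Pool.Agent.AB3

open UniqueFactorizationMonoid

/-- the multiplicity of `m` in `(u)` is divisible by `n` -/
theorem valB_dvd {S : Type} [CommRing S] [IsDedekindDomain S] (n : ℕ) (hn : 0 < n) (u : S)
    (hu : u ≠ 0) (m : Ideal S) (hm : m.IsPrime) (h : ∀ K : ℕ,
      ∃ τ x e : S, τ ∉ m ∧ e ∈ m ^ K ∧ τ * u = x ^ n + e) (v : ℕ)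
    (h1 : u ∈ m ^ v) (h2 : u ∉ m ^ (v + 1)) : n ∣ v := by
  classical
  obtain ⟨τ, x, e, hτ, he, hx⟩ := h (v + 1)
  have hxn : x ^ n = τ * u - e := by rw [hx]; ring
  have h3 : x ^ n ∈ m ^ v := by
    rw [hxn]
    exact sub_mem (Ideal.mul_mem_left _ _ h1) (Ideal.pow_le_pow_right (Nat.le_succ v) he)
  have h4 : x ^ n ∉ m ^ (v + 1) := by
    intro h5
    have h6 : τ * u ∈ m ^ (v + 1) := by
      rw [hx]
      exact add_mem h5 he
    rcases Ideal.IsPrime.mul_mem_pow m h6 with h7 | h7
    · exact hτ h7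
    · exact h2 h7
  have h5 : Ideal.span {x ^ n} ≤ m ^ v := (Ideal.span_singleton_le_iff_mem _).2 h3
  have h6 : ¬ Ideal.span {x ^ n} ≤ m ^ (v + 1) := fun h =>
    h4 ((Ideal.span_singleton_le_iff_mem _).1 h)
  have h7 := Ideal.count_normalizedFactors_eq h5 h6
  rw [← Ideal.span_singleton_pow, normalizedFactors_pow, Multiset.count_nsmul] at h7
  exact ⟨_, h7.symm⟩

/-- If locally `u` is arbitrarily close to an `n`-th power up to units then the ideal `(u)` is an
`n`-th power: for a maximal ideal `m` let `v` be the number with `u ∈ m ^ v`, `u ∉ m ^ (v + 1)`;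
take `K = v + 1`; `x ^ n = τ u - e` is in `m ^ v` and not in `m ^ (v + 1)`, so `v = n v_m(x)`.
Then all multiplicities in the factorisation of `(u)` are divisible by `n`. -/
theorem pow_of_loc {S : Type} [CommRing S] [IsDedekindDomain S] (n : ℕ) (hn : 0 < n) (u : S)
    (hu : u ≠ 0) (h : ∀ m : Ideal S, m.IsMaximal → m ≠ ⊥ → ∀ K : ℕ,
      ∃ τ x e : S, τ ∉ m ∧ e ∈ m ^ K ∧ τ * u = x ^ n + e) :
    ∃ J : Ideal S, J ^ n = Ideal.span {u} := by
  classical
  have hI : Ideal.span {u} ≠ ⊥ := by
    rw [Ne, Ideal.span_singleton_eq_bot]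
    exact hu
  have hcount : ∀ m ∈ normalizedFactors (Ideal.span {u}),
      n ∣ (normalizedFactors (Ideal.span {u})).count m := by
    intro m hm
    have hp := prime_of_normalized_factor m hm
    have hmp : m.IsPrime := Ideal.isPrime_of_prime hp
    have hm0 : m ≠ ⊥ := hp.ne_zero
    have hmax : m.IsMaximal := hmp.isMaximal hm0
    set v := (normalizedFactors (Ideal.span {u})).count m with hv
    have h1 : m ^ v ∣ Ideal.span {u} := by
      have h2 : Multiset.replicate v m ≤ normalizedFactors (Ideal.span {u}) :=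
        Multiset.le_count_iff_replicate_le.1 le_rfl
      have h3 := Multiset.prod_dvd_prod_of_le h2
      rw [Multiset.prod_replicate, Ideal.prod_normalizedFactors_eq_self hI] at h3
      exact h3
    have h2 : ¬ m ^ (v + 1) ∣ Ideal.span {u} := by
      intro h3
      have h4 := (dvd_iff_normalizedFactors_le_normalizedFactors (pow_ne_zero _ hm0) hI).1 h3
      have h5 := Multiset.count_le_of_le m h4
      have h6 : normalizedFactors m = {m} := by
        rw [normalizedFactors_irreducible hp.irreducible, normalize_eq]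
      rw [normalizedFactors_pow, h6, Multiset.count_nsmul, Multiset.count_singleton_self] at h5
      omega
    refine valB_dvd n hn u hu m hmp (h m hmax hm0) v ?_ ?_
    · exact (Ideal.span_singleton_le_iff_mem _).1 (Ideal.le_of_dvd h1)
    · intro h3
      exact h2 (Ideal.dvd_iff_le.2 ((Ideal.span_singleton_le_iff_mem _).2 h3))
  obtain ⟨t, ht⟩ := Multiset.exists_smul_of_dvd_count _ hcount
  refine ⟨t.prod, ?_⟩
  rw [← Multiset.prod_nsmul, ← ht, Ideal.prod_normalizedFactors_eq_self hI]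

theorem cert_of_loc {S : Type} [CommRing S] [IsDedekindDomain S] (n : ℕ) (hn : 0 < n) (u : S)
    (hu : u ≠ 0) (h : ∀ m : Ideal S, m.IsMaximal → m ≠ ⊥ → ∀ K : ℕ,
      ∃ τ x e : S, τ ∉ m ∧ e ∈ m ^ K ∧ τ * u = x ^ n + e) : Cert n u := by
  obtain ⟨J, hJ⟩ := pow_of_loc n hn u hu h
  exact cert_of_pow n hn u hu J hJ

end Pool.Agent.AB3
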