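import Pool.Agent.Lib.MP_5de024_nt.S.PatX.WdaB

/-!
# Patching: Weierstrass division in the lattices (part PAT, file ApxA)
-/

set_option autoImplicit false
set_option linter.unusedSectionVars false

namespace Pool.Agent.AB3


open Polynomial

variable {k R H : Type} [Field k] [CommRing R] [Algebra k[X] R] [Group H] [Finite H] {N : ℕ}
  (B : RBas k R N) (P : ℕ)

theorem ApxA_bz (j : ℤ) : bz k (-j) * bz k j = 1 := by
  unfold bz
  rw [HahnSeries.single_mul_single, neg_add_cancel, mul_one]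
  rfl

/-- an element with given scaled coordinates -/
theorem ApxA_exists (c : Fin N → BA k) : ∃ z : MM k P R, ∀ i, co B P z i = c i := by
  refine ⟨(Bs.basis (phiPat k P) B.e).equivFun.symm (fun i => bz k (B.d i) * c i), fun i => ?_⟩
  unfold co
  have h1 : (Bs.basis (phiPat k P) B.e).repr
      ((Bs.basis (phiPat k P) B.e).equivFun.symm (fun i => bz k (B.d i) * c i)) i =
      bz k (B.d i) * c i := by
    have h2 := congrFun ((Bs.basis (phiPat k P) B.e).equivFun.apply_symm_apply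
      (fun i => bz k (B.d i) * c i)) i
    exact h2
  rw [h1, ← mul_assoc, ApxA_bz, one_mul]

/-- elements are determined by their scaled coordinates -/
theorem ApxA_ext {z w : MM k P R} (h : ∀ i, co B P z i = co B P w i) : z = w := by
  apply (Bs.basis (phiPat k P) B.e).repr.injective
  ext1 i
  have h1 := congrArg (fun x => bz k (B.d i : ℤ) * x) (h i)
  unfold co at h1
  have h2 : bz k (B.d i : ℤ) * bz k (-(B.d i : ℤ)) = 1 := by
    rw [mul_comm, ApxA_bz]
  simp only [← mul_assoc, h2, one_mul] at h1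
  exact h1

/-- Weierstrass division in the lattices, coordinate by coordinate -/
theorem Lat_wd (G : (LaurentSeries k)[X]) (hG : G.Monic) (hi : Itg G) (z : MM k P R)
    (hz : Lat B P (fun n m => 0 ≤ n ∧ 0 ≤ m) z) :
    ∃ q r : MM k P R, Lat B P (fun n m => 0 ≤ n ∧ 0 ≤ m) q ∧
      Lat B P (fun n m => 0 ≤ n ∧ 0 ≤ m ∧ m ≤ G.natDegree) r ∧
      z = algebraMap (BA k) (MM k P R) (iA k G) * q + r := by
  choose q r hq hr h using fun i => wd_ba G hG hi (co B P z i) (hz i)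
  obtain ⟨q', hq'⟩ := ApxA_exists B P q
  obtain ⟨r', hr'⟩ := ApxA_exists B P r
  refine ⟨q', r', fun i => ?_, fun i => ?_, ApxA_ext B P fun i => ?_⟩
  · rw [hq']
    exact hq i
  · rw [hr']
    exact hr i
  · rw [co_add, co_smul, hq', hr']
    exact h i

theorem Lat_wd_bdd (G : (LaurentSeries k)[X]) (hG : G.Monic) (hi : Itg G) (q : MM k P R)
    (hq : Lat B P (fun n m => 0 ≤ n ∧ 0 ≤ m) q) (b : ℕ)
    (hb : Lat B P (fun n m => 0 ≤ n ∧ 0 ≤ m ∧ m ≤ b)
      (algebraMap (BA k) (MM k P R) (iA k G) * q)) :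
    Lat B P (fun n m => 0 ≤ n ∧ 0 ≤ m ∧ m ≤ b) q := by
  intro i
  refine wd_ba_bdd G hG hi _ (hq i) b ?_
  rw [← co_smul]
  exact hb i

theorem Lat_rev (F : (LaurentSeries k)[X]) (h0 : F.coeff 0 = 1) (hi : Itg F) (z : MM k P R)
    (hz : Lat B P (fun n m => 0 ≤ n ∧ m ≤ 0) z) :
    ∃ q r : MM k P R, Lat B P (fun n m => 0 ≤ n ∧ m ≤ 0) q ∧
      Lat B P (fun n m => 0 ≤ n ∧ -(F.natDegree : ℤ) ≤ m ∧ m ≤ 0) r ∧
      z = algebraMap (BA k) (MM k P R) (tz k (-(F.natDegree : ℤ)) * iA k F) * q + r := by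
  choose q r hq hr h using fun i => wd_rev F h0 hi (co B P z i) (hz i)
  obtain ⟨q', hq'⟩ := ApxA_exists B P q
  obtain ⟨r', hr'⟩ := ApxA_exists B P r
  refine ⟨q', r', fun i => ?_, fun i => ?_, ApxA_ext B P fun i => ?_⟩
  · rw [hq']
    exact hq i
  · rw [hr']
    exact hr i
  · rw [co_add, co_smul, hq', hr']
    exact h i

theorem Lat_rev_bdd (F : (LaurentSeries k)[X]) (h0 : F.coeff 0 = 1) (hi : Itg F)
    (q : MM k P R) (hq : Lat B P (fun n m => 0 ≤ n ∧ m ≤ 0) q) (b : ℕ)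
    (hb : Lat B P (fun n m => 0 ≤ n ∧ -(b : ℤ) ≤ m ∧ m ≤ 0)
      (algebraMap (BA k) (MM k P R) (tz k (-(F.natDegree : ℤ)) * iA k F) * q)) :
    Lat B P (fun n m => 0 ≤ n ∧ -(b : ℤ) ≤ m ∧ m ≤ 0) q := by
  intro i
  refine wd_rev_bdd F h0 hi _ (hq i) b ?_
  rw [← co_smul]
  exact hb i

end Pool.Agent.AB3
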