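import Pool.Agent.Lib.MP_5de024_nt.S.PatX.CoreB
import Pool.Agent.Lib.MP_5de024_nt.S.PatX.ApxA

/-!
# Patching: approximation of `u` modulo monic polynomials (part PAT, file ApxB)
-/

set_option autoImplicit false
set_option linter.unusedSectionVars false

namespace Pool.Agent.AB3


open Polynomial

variable {k R H : Type} [Field k] [CommRing R] [Algebra k[X] R] [Group H] [Finite H] {N : ℕ}
  (B : RBas k R N) (P : ℕ)

theorem apxB_bL_pow (k : Type) [Field k] (i : ℕ) :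
    (bL k) ^ i = (HahnSeries.single (i : ℤ) 1 : LaurentSeries k) := by
  induction i with
  | zero => rfl
  | succ i ih =>
    rw [pow_succ, ih, HahnSeries.single_mul_single, one_mul, Nat.cast_succ]

/-- the image of `β ^ i` -/
theorem apxB_iA_C (k : Type) [Field k] (i : ℕ) :
    iA k (Polynomial.C (bL k ^ i)) = bz k (i : ℤ) := by
  rw [iA_C, apxB_bL_pow]
  ext m
  rw [hmap_coeff]
  unfold bz
  by_cases hm : m = (i : ℤ)
  · rw [hm, HahnSeries.coeff_single_same, HahnSeries.coeff_single_same, map_one]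
  · rw [HahnSeries.coeff_single_of_ne hm, HahnSeries.coeff_single_of_ne hm, map_zero]

/-- the image of `β ^ (n D) η a ^ n` -/
theorem apxB_iM_HH (n D : ℕ) (η : R) (a : OL k P R) :
    iM k P R (algebraMap (LaurentSeries k)[X] (OL k P R) (Polynomial.C (bL k ^ (n * D))) *
        Bs.inR (evg k (LaurentSeries k) (gb (LaurentSeries k) P (bL k))) R η * a ^ n) =
      HHe P n D η * (iM k P R a) ^ n := by
  rw [map_mul, map_mul, iM_alg, iM_inR, apxB_iA_C, map_pow]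
  rfl

/-- sums -/
theorem apxB_sum {U : ℤ → ℤ → Prop} {ι : Type} (s : Finset ι) (f : ι → MM k P R)
    (h : ∀ i ∈ s, Lat B P U (f i)) : Lat B P U (∑ i ∈ s, f i) := by
  classical
  induction s using Finset.induction_on with
  | empty =>
    rw [Finset.sum_empty]
    exact Lat_zero B P U
  | insert i s hi ih =>
    rw [Finset.sum_insert hi]
    exact Lat_add B P (h i (Finset.mem_insert_self i s))
      (ih fun j hj => h j (Finset.mem_insert_of_mem hj))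

/-- `x = G q + a'`, `a'` in the image of `OL`, `x ^ n - a' ^ n = G w'` with `w'` of exponents
`0 ≤ n`, `0 ≤ m`; `iM u - HH a' ^ n = G (HH w')` has bounded exponents, so `HH w'` is bounded
(`Lat_wd_bdd`) and in the image of `OL`. -/
theorem apx_mon (hP : 2 ≤ P) (C : Cov k R H) (n D : ℕ) (η : R)
    (hη : B.Lt (η - algebraMap k[X] R (X ^ (n * D))) (n * D)) {u : OL k P R} {x y : MM k P R}
    (h : IsPat B P n D η u x y) (G : (LaurentSeries k)[X]) (hG : G.Monic) (hi : Itg G) :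
    ∃ a w : OL k P R,
      u = algebraMap (LaurentSeries k)[X] (OL k P R) (Polynomial.C (bL k ^ (n * D))) *
        Bs.inR (evg k (LaurentSeries k) (gb (LaurentSeries k) P (bL k))) R η * a ^ n +
        algebraMap (LaurentSeries k)[X] (OL k P R) G * w := by
  have hP1 : 1 ≤ P := le_trans (by norm_num) hP
  -- the lattice of exponents `0 ≤ n`, `0 ≤ m` is closed under multiplication
  have hcl : ∀ {z w : MM k P R}, Lat B P (fun n m => 0 ≤ n ∧ 0 ≤ m) z →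
      Lat B P (fun n m => 0 ≤ n ∧ 0 ≤ m) w → Lat B P (fun n m => 0 ≤ n ∧ 0 ≤ m) (z * w) := by
    intro z w hz hw
    refine Lat_mul B P hP1 hz hw ?_
    rintro n m n' m' n'' m'' ⟨h1, h2⟩ ⟨h3, h4⟩ h5 h6 -
    exact ⟨by omega, by omega⟩
  have hpw : ∀ {z : MM k P R} (i : ℕ), Lat B P (fun n m => 0 ≤ n ∧ 0 ≤ m) z →
      Lat B P (fun n m => 0 ≤ n ∧ 0 ≤ m) (z ^ i) := by
    intro z i hz
    refine Lat_pow B P hP1 hz ⟨le_refl _, le_refl _⟩ ?_ i
    rintro n m n' m' n'' m'' ⟨h1, h2⟩ ⟨h3, h4⟩ h5 h6 -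
    exact ⟨by omega, by omega⟩
  have hpat := h
  obtain ⟨hx, -, hu, -⟩ := h
  have hx0 : Lat B P (fun n m => 0 ≤ n ∧ 0 ≤ m) x := by
    have h1 : Lat B P (fun n m => 0 ≤ n ∧ 0 ≤ m) (1 : MM k P R) :=
      Lat_mono B P (by rintro n m ⟨rfl, rfl⟩; exact ⟨le_refl _, le_refl _⟩) (Lat_one B P)
    have h2 : Lat B P (fun n m => 0 ≤ n ∧ 0 ≤ m) (x - 1) :=
      Lat_mono B P (by rintro n m ⟨h1, h2⟩; exact ⟨by omega, h2⟩) hx
    have h3 := Lat_add B P h2 h1
    rwa [sub_add_cancel] at h3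
  obtain ⟨q, a', hq, ha', hxq⟩ := Lat_wd B P G hG hi x hx0
  obtain ⟨a, ha⟩ := iM_surj B P 0 G.natDegree a' (by exact_mod_cast ha')
  have ha0 : Lat B P (fun n m => 0 ≤ n ∧ 0 ≤ m) a' :=
    Lat_mono B P (fun n m hnm => ⟨hnm.1, hnm.2.1⟩) ha'
  obtain ⟨⟨b1, hb1⟩, -⟩ := hh_lat B P hP n D η hη
  have hh0 : Lat B P (fun n m => 0 ≤ n ∧ 0 ≤ m) (HHe P n D η) :=
    Lat_mono B P (fun n m hnm => ⟨hnm.1, hnm.2.1⟩) hb1
  obtain ⟨b2, hb2⟩ := pat_bdd B P hP n D η hη hpat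
  set S : MM k P R := ∑ i ∈ Finset.range n, x ^ i * a' ^ (n - 1 - i) with hS
  have hSl : Lat B P (fun n m => 0 ≤ n ∧ 0 ≤ m) S :=
    apxB_sum B P _ _ fun i _ => hcl (hpw i hx0) (hpw _ ha0)
  have hgeom : S * (x - a') = x ^ n - a' ^ n := geom_sum₂_mul x a' n
  have hxa : x - a' = algebraMap (BA k) (MM k P R) (iA k G) * q := by
    rw [hxq, add_sub_cancel_right]
  set w1 : MM k P R := HHe P n D η * (S * q) with hw1
  have hw1l : Lat B P (fun n m => 0 ≤ n ∧ 0 ≤ m) w1 := hcl hh0 (hcl hSl hq)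
  have hdiff : algebraMap (BA k) (MM k P R) (iA k G) * w1 =
      iM k P R u - HHe P n D η * a' ^ n := by
    rw [hu, ← mul_sub, ← hgeom, hxa, hw1]
    ring
  -- the difference has bounded exponents
  have hpa := Lat_pow_bdd' B P hP1 ha' n
  have hprod : Lat B P (fun i m => 0 ≤ i ∧ 0 ≤ m ∧
      m ≤ ((b1 + (G.natDegree + KB B P) * n + KB B P : ℕ) : ℤ)) (HHe P n D η * a' ^ n) := by
    refine Lat_mul B P hP1 hb1 hpa ?_
    rintro i m i' m' i'' m'' ⟨h1, h2, h3⟩ ⟨h4, h5, h6⟩ h7 h8 h9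
    refine ⟨by omega, by omega, ?_⟩
    push_cast at h6 ⊢
    linarith
  obtain ⟨b3, hb3⟩ : ∃ b3 : ℕ, Lat B P (fun i m => 0 ≤ i ∧ 0 ≤ m ∧ m ≤ (b3 : ℤ))
      (iM k P R u - HHe P n D η * a' ^ n) := by
    refine ⟨max b2 (b1 + (G.natDegree + KB B P) * n + KB B P), Lat_sub B P
      (Lat_mono B P ?_ hb2) (Lat_mono B P ?_ hprod)⟩
    · rintro i m ⟨h1, h2, h3⟩
      exact ⟨h1, h2, h3.trans (by exact_mod_cast le_max_left _ _)⟩
    · rintro i m ⟨h1, h2, h3⟩
      exact ⟨h1, h2, h3.trans (by exact_mod_cast le_max_right _ _)⟩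
  have hw2 : Lat B P (fun i m => 0 ≤ i ∧ 0 ≤ m ∧ m ≤ (b3 : ℤ)) w1 := by
    refine Lat_wd_bdd B P G hG hi w1 hw1l b3 ?_
    rw [hdiff]
    exact hb3
  obtain ⟨w, hw⟩ := iM_surj B P 0 b3 w1 hw2
  refine ⟨a, w, iM_inj P C ?_⟩
  rw [map_add, apxB_iM_HH, map_mul (iM k P R) (algebraMap _ _ G), iM_alg, ha, hw, hdiff]
  ring

end Pool.Agent.AB3
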