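import Pool.Agent.Lib.MP_5de024_nt.S.PatX.CoreB
import Pool.Agent.Lib.MP_5de024_nt.S.PatX.ApxA

/-!
# Patching: approximation of `u` modulo polynomials with constant coefficient one (part PAT, file ApxC)
-/

set_option autoImplicit false
set_option linter.unusedSectionVars false

namespace Pool.Agent.AB3


open Polynomial

variable {k R H : Type} [Field k] [CommRing R] [Algebra k[X] R] [Group H] [Finite H] {N : ℕ}
  (B : RBas k R N) (P : ℕ)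

/-- products of elements with exponents `0 ≤ n`, `m` bounded above -/
theorem apxC_mul (hP : 1 ≤ P) {z w : MM k P R}
    (hz : ∃ b : ℕ, Lat B P (fun n m => 0 ≤ n ∧ m ≤ b) z)
    (hw : ∃ b : ℕ, Lat B P (fun n m => 0 ≤ n ∧ m ≤ b) w) :
    ∃ b : ℕ, Lat B P (fun n m => 0 ≤ n ∧ m ≤ b) (z * w) := by
  obtain ⟨b, hb⟩ := hz
  obtain ⟨c, hc⟩ := hw
  refine ⟨b + c + KB B P, Lat_mul B P hP hb hc ?_⟩
  rintro n m n' m' n'' m'' ⟨h1, h2⟩ ⟨h3, h4⟩ h5 h6 h7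
  refine ⟨by omega, ?_⟩
  push_cast
  omega

/-- powers -/
theorem apxC_pow (hP : 1 ≤ P) {z : MM k P R}
    (hz : ∃ b : ℕ, Lat B P (fun n m => 0 ≤ n ∧ m ≤ b) z) (i : ℕ) :
    ∃ b : ℕ, Lat B P (fun n m => 0 ≤ n ∧ m ≤ b) (z ^ i) := by
  induction i with
  | zero =>
    refine ⟨0, ?_⟩
    rw [pow_zero]
    refine Lat_mono B P ?_ (Lat_one B P)
    rintro n m ⟨h1, h2⟩
    exact ⟨by omega, by
      rw [Nat.cast_zero]
      omega⟩
  | succ i ih =>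
    rw [pow_succ]
    exact apxC_mul B P hP ih hz

/-- sums -/
theorem apxC_sum {ι : Type} (s : Finset ι) (f : ι → MM k P R)
    (h : ∀ i ∈ s, ∃ b : ℕ, Lat B P (fun n m => 0 ≤ n ∧ m ≤ b) (f i)) :
    ∃ b : ℕ, Lat B P (fun n m => 0 ≤ n ∧ m ≤ b) (∑ i ∈ s, f i) := by
  classical
  induction s using Finset.induction_on with
  | empty =>
    refine ⟨0, ?_⟩
    rw [Finset.sum_empty]
    exact Lat_zero B P _
  | insert i s hi ih =>
    obtain ⟨b, hb⟩ := h i (Finset.mem_insert_self i s)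
    obtain ⟨c, hc⟩ := ih fun j hj => h j (Finset.mem_insert_of_mem hj)
    refine ⟨b + c, ?_⟩
    rw [Finset.sum_insert hi]
    refine Lat_add B P (Lat_mono B P ?_ hb) (Lat_mono B P ?_ hc)
    · rintro n m ⟨h1, h2⟩
      refine ⟨h1, ?_⟩
      push_cast
      omega
    · rintro n m ⟨h1, h2⟩
      refine ⟨h1, ?_⟩
      push_cast
      omega

/-- `e = deg F`, `y = (t ^ (-e) F) q + r` (`Lat_rev`), `a = t ^ e r` in the image of `OL`;
`t ^ (n e) u - t ^ (n D) a ^ n = F w₂`, `w₂` of exponents `0 ≤ n`, `m ≤ b₂`; the left side has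
exponents `0 ≤ n`, `0 ≤ m ≤ b₃`; enlarge `b₂` to be `≥ b₃`; apply `Lat_rev_bdd` to
`t ^ (-b₂) w₂`: `w₂` has exponents `m ≥ -e`, so `t ^ e w₂` is in the image of `OL`.
`M₁ = e + n e`, `M₂ = n D + e`. -/
theorem apx_rev (hP : 2 ≤ P) (C : Cov k R H) (n D : ℕ) (η : R)
    (hη : B.Lt (η - algebraMap k[X] R (X ^ (n * D))) (n * D)) {u : OL k P R} {x y : MM k P R}
    (h : IsPat B P n D η u x y) (F : (LaurentSeries k)[X]) (h0 : F.coeff 0 = 1)
    (hi : Itg F) :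
    ∃ (M₁ M₂ : ℕ) (a w : OL k P R),
      algebraMap (LaurentSeries k)[X] (OL k P R) (X ^ M₁) * u =
        algebraMap (LaurentSeries k)[X] (OL k P R) (X ^ M₂) * a ^ n +
        algebraMap (LaurentSeries k)[X] (OL k P R) F * w := by
  have hP1 : 1 ≤ P := le_trans (by norm_num) hP
  obtain ⟨bu, hbu⟩ := pat_bdd B P hP n D η hη h
  obtain ⟨-, hy, -, hu⟩ := h
  obtain ⟨e, he⟩ : ∃ e : ℕ, e = F.natDegree := ⟨_, rfl⟩
  have hy0 : Lat B P (fun n m => 0 ≤ n ∧ m ≤ 0) y := by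
    have h1 : Lat B P (fun n m => 0 ≤ n ∧ m ≤ 0) (1 : MM k P R) :=
      Lat_mono B P (by rintro n m ⟨rfl, rfl⟩; exact ⟨le_refl _, le_refl _⟩) (Lat_one B P)
    have h2 : Lat B P (fun n m => 0 ≤ n ∧ m ≤ 0) (y - 1) :=
      Lat_mono B P (by rintro n m ⟨h1, h2⟩; exact ⟨by omega, by omega⟩) hy
    have h3 := Lat_add B P h2 h1
    rwa [sub_add_cancel] at h3
  obtain ⟨q, r, hq, hr, hyq⟩ := Lat_rev B P F h0 hi y hy0
  rw [← he] at hr hyq
  have ha' : Lat B P (fun n m => 0 ≤ n ∧ 0 ≤ m ∧ m ≤ e)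
      (algebraMap (BA k) (MM k P R) (tz k e) * r) := by
    refine Lat_smul B P (SU_tz _) hr ?_
    rintro n m n' m' ⟨h1, h2⟩ ⟨h3, h4, h5⟩
    exact ⟨by omega, by omega, by omega⟩
  obtain ⟨a, ha⟩ := iM_surj B P 0 e _ ha'
  obtain ⟨S, hS⟩ : ∃ S : MM k P R, S = ∑ i ∈ Finset.range n, y ^ i * r ^ (n - 1 - i) := ⟨_, rfl⟩
  have hgeom : S * (y - r) = y ^ n - r ^ n := by
    rw [hS]
    exact geom_sum₂_mul y r n
  have hyr : y - r = algebraMap (BA k) (MM k P R) (tz k (-(e : ℤ)) * iA k F) * q := by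
    rw [sub_eq_iff_eq_add]
    exact hyq
  obtain ⟨E, hE⟩ : ∃ E : ℤ, E = ((n * D : ℕ) : ℤ) + ((n : ℤ) * e) + -(e : ℤ) := ⟨_, rfl⟩
  obtain ⟨w₂, hw₂⟩ : ∃ w₂ : MM k P R, w₂ = algebraMap (BA k) (MM k P R) (tz k E) * (q * S) :=
    ⟨_, rfl⟩
  have htz : tz k E = tz k ((n * D : ℕ) : ℤ) * tz k ((n : ℤ) * e) * tz k (-(e : ℤ)) := by
    rw [hE, tz_add, tz_add]
  have hdiff : algebraMap (BA k) (MM k P R) (iA k F) * w₂ =
      algebraMap (BA k) (MM k P R) (tz k ((n : ℤ) * e)) * iM k P R u -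
        algebraMap (BA k) (MM k P R) (tz k ((n * D : ℕ) : ℤ)) * (iM k P R a) ^ n := by
    have h1 : (algebraMap (BA k) (MM k P R) (tz k (e : ℤ)) * r) ^ n =
        algebraMap (BA k) (MM k P R) (tz k ((n : ℤ) * e)) * r ^ n := by
      rw [mul_pow, ← map_pow, tz_pow]
    rw [hu, ha, h1, hw₂, htz]
    have h2 : algebraMap (BA k) (MM k P R) (tz k ((n : ℤ) * e)) *
        (algebraMap (BA k) (MM k P R) (tz k ((n * D : ℕ) : ℤ)) * y ^ n) -
        algebraMap (BA k) (MM k P R) (tz k ((n * D : ℕ) : ℤ)) *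
        (algebraMap (BA k) (MM k P R) (tz k ((n : ℤ) * e)) * r ^ n) =
        algebraMap (BA k) (MM k P R) (tz k ((n : ℤ) * e)) *
        algebraMap (BA k) (MM k P R) (tz k ((n * D : ℕ) : ℤ)) * (y ^ n - r ^ n) := by ring
    rw [h2, ← hgeom, hyr, map_mul, map_mul, map_mul]
    ring
  -- bounds for `w₂`
  have hyB : ∃ b : ℕ, Lat B P (fun n m => 0 ≤ n ∧ m ≤ b) y :=
    ⟨0, Lat_mono B P (fun n m h => ⟨h.1, by
      rw [Nat.cast_zero]
      exact h.2⟩) hy0⟩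
  have hrB : ∃ b : ℕ, Lat B P (fun n m => 0 ≤ n ∧ m ≤ b) r :=
    ⟨0, Lat_mono B P (fun n m h => ⟨h.1, by
      rw [Nat.cast_zero]
      exact h.2.2⟩) hr⟩
  have hqB : ∃ b : ℕ, Lat B P (fun n m => 0 ≤ n ∧ m ≤ b) q :=
    ⟨0, Lat_mono B P (fun n m h => ⟨h.1, by
      rw [Nat.cast_zero]
      exact h.2⟩) hq⟩
  have hSB : ∃ b : ℕ, Lat B P (fun n m => 0 ≤ n ∧ m ≤ b) S := by
    rw [hS]
    exact apxC_sum B P _ _ fun i _ =>
      apxC_mul B P hP1 (apxC_pow B P hP1 hyB i) (apxC_pow B P hP1 hrB _)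
  obtain ⟨b1, hb1⟩ := apxC_mul B P hP1 hqB hSB
  have hw2B : Lat B P (fun n m => 0 ≤ n ∧ m ≤ ((b1 + E.toNat : ℕ) : ℤ)) w₂ := by
    rw [hw₂]
    refine Lat_smul B P (SU_tz _) hb1 ?_
    rintro n m n' m' ⟨h1, h2⟩ ⟨h3, h4⟩
    refine ⟨by omega, ?_⟩
    push_cast
    omega
  -- bounds for the left side
  have hleft : Lat B P (fun i m => 0 ≤ i ∧ 0 ≤ m ∧
      m ≤ ((bu + n * e + (n * D + (e + KB B P) * n) : ℕ) : ℤ))
      (algebraMap (BA k) (MM k P R) (iA k F) * w₂) := by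
    rw [hdiff]
    have hpa := Lat_pow_bdd' B P hP1 ha' n
    rw [← ha] at hpa
    refine Lat_sub B P (Lat_smul B P (SU_tz _) hbu ?_) (Lat_smul B P (SU_tz _) hpa ?_)
    · rintro i m i' m' ⟨h1, h2⟩ ⟨h3, h4, h5⟩
      have h6 : (0 : ℤ) ≤ (n : ℤ) * e := by positivity
      have h7 : (0 : ℤ) ≤ ((n * D + (e + KB B P) * n : ℕ) : ℤ) := Nat.cast_nonneg _
      refine ⟨by omega, by omega, ?_⟩
      rw [Nat.cast_add, Nat.cast_add, Nat.cast_mul n e]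
      omega
    · rintro i m i' m' ⟨h1, h2⟩ ⟨h3, h4, h5⟩
      have h6 : (0 : ℤ) ≤ ((n * D : ℕ) : ℤ) := Nat.cast_nonneg _
      have h7 : (0 : ℤ) ≤ ((bu + n * e : ℕ) : ℤ) := Nat.cast_nonneg _
      refine ⟨by omega, by omega, ?_⟩
      rw [Nat.cast_add (bu + n * e), Nat.cast_add (n * D)]
      omega
  obtain ⟨b3, hb3⟩ : ∃ b3 : ℕ, b3 = bu + n * e + (n * D + (e + KB B P) * n) := ⟨_, rfl⟩
  rw [← hb3] at hleft
  obtain ⟨b2, hb2⟩ : ∃ b2 : ℕ, b2 = b1 + E.toNat := ⟨_, rfl⟩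
  rw [← hb2] at hw2B
  obtain ⟨c, hc⟩ : ∃ c : ℕ, c = b2 + b3 := ⟨_, rfl⟩
  -- the division
  obtain ⟨q', hq'⟩ : ∃ q' : MM k P R, q' = algebraMap (BA k) (MM k P R) (tz k (-(c : ℤ))) * w₂ :=
    ⟨_, rfl⟩
  have hq'0 : Lat B P (fun n m => 0 ≤ n ∧ m ≤ 0) q' := by
    rw [hq']
    refine Lat_smul B P (SU_tz _) hw2B ?_
    rintro n m n' m' ⟨h1, h2⟩ ⟨h3, h4⟩
    exact ⟨by omega, by omega⟩
  have hprod : Lat B P (fun n m => 0 ≤ n ∧ -((e + c : ℕ) : ℤ) ≤ m ∧ m ≤ 0)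
      (algebraMap (BA k) (MM k P R) (tz k (-(F.natDegree : ℤ)) * iA k F) * q') := by
    have h1 : algebraMap (BA k) (MM k P R) (tz k (-(F.natDegree : ℤ)) * iA k F) * q' =
        algebraMap (BA k) (MM k P R) (tz k (-(e : ℤ) + -(c : ℤ))) *
          (algebraMap (BA k) (MM k P R) (iA k F) * w₂) := by
      rw [hq', ← he, tz_add, map_mul, map_mul]
      ring
    rw [h1]
    refine Lat_smul B P (SU_tz _) hleft ?_
    rintro n m n' m' ⟨h1, h2⟩ ⟨h3, h4, h5⟩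
    refine ⟨by omega, ?_, by omega⟩
    rw [Nat.cast_add]
    omega
  have hq'1 := Lat_rev_bdd B P F h0 hi q' hq'0 (e + c) hprod
  have hw3 : algebraMap (BA k) (MM k P R) (tz k (e : ℤ)) * w₂ =
      algebraMap (BA k) (MM k P R) (tz k ((e : ℤ) + c)) * q' := by
    rw [hq', tz_add, map_mul]
    have h1 : algebraMap (BA k) (MM k P R) (tz k (c : ℤ)) *
        algebraMap (BA k) (MM k P R) (tz k (-(c : ℤ))) = 1 := by
      rw [← map_mul, ← tz_add, add_neg_cancel, tz_zero, map_one]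
    have h2 : algebraMap (BA k) (MM k P R) (tz k (e : ℤ)) *
        algebraMap (BA k) (MM k P R) (tz k (c : ℤ)) *
        (algebraMap (BA k) (MM k P R) (tz k (-(c : ℤ))) * w₂) =
        algebraMap (BA k) (MM k P R) (tz k (e : ℤ)) *
        (algebraMap (BA k) (MM k P R) (tz k (c : ℤ)) *
        algebraMap (BA k) (MM k P R) (tz k (-(c : ℤ)))) * w₂ := by ring
    rw [h2, h1, mul_one]
  have hw4 : Lat B P (fun n m => 0 ≤ n ∧ 0 ≤ m ∧ m ≤ ((e + c : ℕ) : ℤ))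
      (algebraMap (BA k) (MM k P R) (tz k (e : ℤ)) * w₂) := by
    rw [hw3]
    refine Lat_smul B P (SU_tz _) hq'1 ?_
    rintro n m n' m' ⟨h1, h2⟩ ⟨h3, h4, h5⟩
    rw [Nat.cast_add] at h4
    refine ⟨by omega, by omega, ?_⟩
    rw [Nat.cast_add]
    omega
  obtain ⟨w, hw⟩ := iM_surj B P 0 (e + c) _ hw4
  refine ⟨e + n * e, n * D + e, a, w, iM_inj P C ?_⟩
  have hX : ∀ M : ℕ, iM k P R (algebraMap (LaurentSeries k)[X] (OL k P R) (X ^ M)) =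
      algebraMap (BA k) (MM k P R) (tz k (M : ℤ)) := by
    intro M
    rw [iM_alg, map_pow, iA_X, tz_pow, mul_one]
  rw [map_mul, map_add, map_mul, map_mul, map_pow (iM k P R) a n, hX, hX, iM_alg, hw]
  have h1 : tz k ((e + n * e : ℕ) : ℤ) = tz k (e : ℤ) * tz k ((n : ℤ) * e) := by
    rw [← tz_add]
    push_cast
    rfl
  have h2 : tz k ((n * D + e : ℕ) : ℤ) = tz k ((n * D : ℕ) : ℤ) * tz k (e : ℤ) := by
    rw [← tz_add]
    push_cast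
    rfl
  rw [h1, h2, map_mul, map_mul]
  have h3 : algebraMap (BA k) (MM k P R) (iA k F) *
      (algebraMap (BA k) (MM k P R) (tz k (e : ℤ)) * w₂) =
      algebraMap (BA k) (MM k P R) (tz k (e : ℤ)) *
      (algebraMap (BA k) (MM k P R) (iA k F) * w₂) := by ring
  rw [h3, hdiff]
  ring

end Pool.Agent.AB3
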