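import Pool.Agent.Lib.MP_5de024_nt.S.PatX.WdaA

/-!
# Patching: irreducible polynomials over `k((β))` (part PAT, file Dich)
-/

set_option autoImplicit false
set_option linter.unusedSectionVars false

namespace Pool.Agent.AB3

open Polynomial

variable {k : Type} [Field k]

/-- `k[[β]][t] → k[t][[β]]` -/
noncomputable def dichTh (k : Type) [Field k] : (PowerSeries k)[X] →+* PowerSeries k[X] :=
  Polynomial.eval₂RingHom (PowerSeries.map (C : k →+* k[X])) (PowerSeries.C X)

theorem dich_th_coeff (f : (PowerSeries k)[X]) (n i : ℕ) :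
    (PowerSeries.coeff n (dichTh k f)).coeff i = PowerSeries.coeff n (f.coeff i) := by
  induction f using Polynomial.induction_on' with
  | add p q hp hq => rw [map_add, map_add, coeff_add, coeff_add, map_add, hp, hq]
  | monomial m a =>
    rw [dichTh, coe_eval₂RingHom, eval₂_monomial, ← map_pow, PowerSeries.coeff_mul_C,
      PowerSeries.coeff_map, coeff_C_mul_X_pow, coeff_monomial]
    by_cases h : m = i
    · subst h
      simp
    · rw [if_neg (Ne.symm h), if_neg h, map_zero]

theorem dich_th_inj {f g : (PowerSeries k)[X]} (h : dichTh k f = dichTh k g) : f = g := by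
  ext i n
  rw [← dich_th_coeff, ← dich_th_coeff, h]

theorem dich_th_surj (g : PowerSeries k[X]) (b : ℕ)
    (hb : ∀ n, (PowerSeries.coeff n g).natDegree ≤ b) :
    ∃ f : (PowerSeries k)[X], dichTh k f = g := by
  refine ⟨∑ i ∈ Finset.range (b + 1),
    monomial i (PowerSeries.mk fun n => (PowerSeries.coeff n g).coeff i), ?_⟩
  ext n i
  rw [dich_th_coeff, finsetSum_coeff]
  simp only [coeff_monomial]
  by_cases hi : i < b + 1
  · rw [Finset.sum_eq_single_of_mem i (Finset.mem_range.2 hi) (fun j _ hj => if_neg hj),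
      if_pos rfl, PowerSeries.coeff_mk]
  · rw [Finset.sum_eq_zero fun j hj => if_neg (by
      rintro rfl
      exact hi (Finset.mem_range.1 hj)), map_zero]
    refine (coeff_eq_zero_of_natDegree_lt ?_).symm
    have := hb n
    omega

/-- `k[[β]][t] → k((β))[t]` -/
noncomputable abbrev dichIo (k : Type) [Field k] : (PowerSeries k)[X] →+* (LaurentSeries k)[X] :=
  Polynomial.mapRingHom (HahnSeries.ofPowerSeries ℤ k)

theorem dich_io_coeff (f : (PowerSeries k)[X]) (i : ℕ) (j : ℤ) :
    ((dichIo k f).coeff i).coeff j =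
      if j < 0 then 0 else PowerSeries.coeff j.natAbs (f.coeff i) := by
  rw [coe_mapRingHom, coeff_map]
  exact PowerSeries.coeff_coe (f.coeff i) j

theorem dich_io_itg (f : (PowerSeries k)[X]) : Itg (dichIo k f) := by
  intro i j hj
  rw [dich_io_coeff, if_pos hj]

theorem dich_io_surj {F : (LaurentSeries k)[X]} (hF : Itg F) :
    ∃ f : (PowerSeries k)[X], dichIo k f = F := by
  refine ⟨∑ i ∈ Finset.range (F.natDegree + 1),
    monomial i (PowerSeries.mk fun n => (F.coeff i).coeff (n : ℤ)), ?_⟩
  ext i j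
  rw [dich_io_coeff, finsetSum_coeff]
  simp only [coeff_monomial]
  by_cases hj : j < 0
  · rw [if_pos hj, hF i j hj]
  · rw [if_neg hj]
    have hjj : ((j.natAbs : ℕ) : ℤ) = j := by omega
    by_cases hi : i < F.natDegree + 1
    · rw [Finset.sum_eq_single_of_mem i (Finset.mem_range.2 hi) (fun j _ hj => if_neg hj),
        if_pos rfl, PowerSeries.coeff_mk, hjj]
    · rw [Finset.sum_eq_zero fun j hj => if_neg (by
        rintro rfl
        exact hi (Finset.mem_range.1 hj)), map_zero,
        coeff_eq_zero_of_natDegree_lt (show F.natDegree < i by omega)]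
      rfl

/-- scaling -/
theorem dich_scale (F : (LaurentSeries k)[X]) (hF : F ≠ 0) :
    ∃ (c : LaurentSeries k) (f : (PowerSeries k)[X]), c ≠ 0 ∧ dichIo k f = C c * F ∧
      ∃ i, PowerSeries.coeff 0 (f.coeff i) ≠ 0 := by
  obtain ⟨i₀, hi₀, hmin⟩ := Finset.exists_min_image F.support (fun i => (F.coeff i).order)
    (nonempty_support_iff.2 hF)
  have hne : F.coeff i₀ ≠ 0 := mem_support_iff.1 hi₀
  set m : ℤ := (F.coeff i₀).order with hm
  have hco : ∀ i j, ((C (HahnSeries.single (-m) (1 : k)) * F).coeff i).coeff j =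
      (F.coeff i).coeff (j + m) := by
    intro i j
    rw [coeff_C_mul, HahnSeries.coeff_single_mul, one_mul, sub_neg_eq_add]
  have hitg : Itg (C (HahnSeries.single (-m) (1 : k)) * F) := by
    intro i j hj
    rw [hco]
    by_cases h0 : F.coeff i = 0
    · rw [h0]
      rfl
    · refine HahnSeries.coeff_eq_zero_of_lt_order ?_
      have h1 : m ≤ (F.coeff i).order := hmin i (mem_support_iff.2 h0)
      omega
  obtain ⟨f, hf⟩ := dich_io_surj hitg
  refine ⟨HahnSeries.single (-m) 1, f, ?_, hf, i₀, ?_⟩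
  · exact HahnSeries.single_ne_zero one_ne_zero
  · have h1 := dich_io_coeff f i₀ 0
    rw [hf, hco, if_neg (lt_irrefl _), zero_add] at h1
    rw [Int.natAbs_zero] at h1
    rw [← h1, Ne, hm, HahnSeries.coeff_order_eq_zero]
    exact hne

/-- An irreducible polynomial over `k((β))` is, up to a constant, integral and monic or integral
with constant coefficient `1`.
Proof: scale so that `F` is integral and nonzero modulo `β`; `iA F = jA F'`; `wd_fac`:
`F' = F₁ H`; all degrees are bounded, so `F₁` and `H` come from integral polynomials `f₁` (monic of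
degree `d`) and `h` over `k((β))` (`iA_surj`, `iA_inj`), `F = f₁ h`.  `F` irreducible: `f₁` is a
unit (`d = 0`, `f₁ = 1`, `F = h`, the constant coefficient of `h` is a nonzero constant modulo `β`,
so a unit of `k[[β]]`: divide by it) or `h` is a unit, a constant `c` of `k((β))`: divide by it. -/
theorem dich (F : (LaurentSeries k)[X]) (hF : Irreducible F) :
    ∃ c : LaurentSeries k, c ≠ 0 ∧ Itg (C c * F) ∧
      ((C c * F).Monic ∨ (C c * F).coeff 0 = 1) := by
  obtain ⟨c₀, f, hc₀, hf, i₁, hi₁⟩ := dich_scale F hF.ne_zero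
  have h0 : PowerSeries.coeff 0 (dichTh k f) ≠ 0 := by
    intro h
    apply hi₁
    rw [← dich_th_coeff, h, coeff_zero]
  obtain ⟨F₁, H, hFH, hmon, -, hdeg, ⟨c, hc, hH0⟩, hHb⟩ :=
    wd_fac (dichTh k f) h0 f.natDegree (fun n => by
      rw [natDegree_le_iff_coeff_eq_zero]
      intro i hi
      rw [dich_th_coeff, coeff_eq_zero_of_natDegree_lt hi, map_zero])
  have hF₁b : ∀ n, (PowerSeries.coeff n F₁).natDegree ≤ (PowerSeries.coeff 0 F₁).natDegree := by
    intro n
    rcases Nat.eq_zero_or_pos n with rfl | hn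
    · exact le_rfl
    · exact natDegree_le_natDegree (hdeg n hn).le
  obtain ⟨f₁, hf₁⟩ := dich_th_surj F₁ _ hF₁b
  obtain ⟨h, hh⟩ := dich_th_surj H _ hHb
  have hfac : f = f₁ * h := by
    apply dich_th_inj
    rw [map_mul, hf₁, hh, hFH]
  set d := (PowerSeries.coeff 0 F₁).natDegree with hd
  have hlead : f₁.coeff d = 1 := by
    ext n
    rw [← dich_th_coeff, hf₁, PowerSeries.coeff_one]
    rcases Nat.eq_zero_or_pos n with rfl | hn
    · rw [if_pos rfl]
      exact hmon
    · rw [if_neg (by omega)]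
      refine coeff_eq_zero_of_degree_lt ?_
      have := hdeg n hn
      rwa [degree_eq_natDegree hmon.ne_zero] at this
  have hmon₁ : f₁.Monic := by
    refine monic_of_natDegree_le_of_coeff_eq_one d ?_ hlead
    rw [natDegree_le_iff_coeff_eq_zero]
    intro i hi
    ext n
    rw [← dich_th_coeff, hf₁, map_zero]
    refine coeff_eq_zero_of_natDegree_lt ?_
    have := hF₁b n
    omega
  have hprod : C c₀ * F = dichIo k f₁ * dichIo k h := by
    rw [← hf, hfac, map_mul]
  have hmon₂ : (dichIo k f₁).Monic := hmon₁.map _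
  have hcu : IsUnit (C c₀ : (LaurentSeries k)[X]) := isUnit_C.2 (isUnit_iff_ne_zero.2 hc₀)
  have hirr : Irreducible (dichIo k f₁ * dichIo k h) := by
    rw [← hprod]
    exact (irreducible_isUnit_mul hcu).2 hF
  rcases hirr.isUnit_or_isUnit rfl with hu | hu
  · have h1 : dichIo k f₁ = 1 := hmon₂.eq_one_of_isUnit hu
    rw [h1, one_mul] at hprod
    have h2 : PowerSeries.constantCoeff (h.coeff 0) ≠ 0 := by
      have h3 := dich_th_coeff h 0 0
      rw [hh, hH0, coeff_C_zero] at h3
      rw [← PowerSeries.coeff_zero_eq_constantCoeff_apply, ← h3]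
      exact hc
    have h4 : (h.coeff 0)⁻¹ * h.coeff 0 = 1 := PowerSeries.inv_mul_cancel _ h2
    set u : PowerSeries k := (h.coeff 0)⁻¹ with hu'
    have h5 : C (HahnSeries.ofPowerSeries ℤ k u * c₀) * F = dichIo k (C u * h) := by
      rw [map_mul, mul_assoc, hprod, map_mul]
      congr 1
      rw [coe_mapRingHom, map_C]
    refine ⟨HahnSeries.ofPowerSeries ℤ k u * c₀, ?_, ?_, Or.inr ?_⟩
    · refine mul_ne_zero ?_ hc₀
      intro h6
      have h7 : u = 0 := HahnSeries.ofPowerSeries_injective (by rw [h6, map_zero])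
      rw [h7, zero_mul] at h4
      exact zero_ne_one h4
    · rw [h5]
      exact dich_io_itg _
    · rw [h5, coe_mapRingHom, coeff_map, coeff_C_mul, h4, map_one]
  · obtain ⟨r, hr, hr'⟩ := Polynomial.isUnit_iff.1 hu
    have hr0 : r ≠ 0 := hr.ne_zero
    have h5 : C (r⁻¹ * c₀) * F = dichIo k f₁ := by
      rw [map_mul, mul_assoc, hprod, ← hr', mul_comm (dichIo k f₁), ← mul_assoc, ← map_mul,
        inv_mul_cancel₀ hr0, map_one, one_mul]
    refine ⟨r⁻¹ * c₀, mul_ne_zero (inv_ne_zero hr0) hc₀, ?_, Or.inl ?_⟩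
    · rw [h5]
      exact dich_io_itg _
    · rw [h5]
      exact hmon₂

end Pool.Agent.AB3
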