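import Pool.Agent.Lib.MP_5de024_nt.S.PatX.ApxB
import Pool.Agent.Lib.MP_5de024_nt.S.PatX.ApxC
import Pool.Agent.Lib.MP_5de024_nt.S.PatX.Dich
import Pool.Agent.Lib.MP_5de024_nt.S.PatX.ValB
import Pool.Agent.Lib.MP_5de024_nt.S.GeoB

/-!
# Patching: the certificate of `u` (part PAT, file CertU)
-/

set_option autoImplicit false
set_option linter.unusedSectionVars false

namespace Pool.Agent.AB3

open Polynomial

theorem CertU_itg_mul {k : Type} [Field k] {f g : (LaurentSeries k)[X]} (hf : Itg f)
    (hg : Itg g) : Itg (f * g) := by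
  intro i j hj
  rw [Polynomial.coeff_mul]
  have h1 : ∀ (s : Finset (ℕ × ℕ)) (q : ℕ × ℕ → LaurentSeries k),
      (∑ x ∈ s, q x).coeff j = ∑ x ∈ s, (q x).coeff j := by
    intro s q
    exact map_sum (HahnSeries.coeff.addMonoidHom (R := k) j) q s
  rw [h1]
  refine Finset.sum_eq_zero fun x _ => ?_
  rw [HahnSeries.coeff_mul]
  refine Finset.sum_eq_zero fun y hy => ?_
  rw [Finset.mem_addAntidiagonal] at hy
  by_cases h : y.1 < 0
  · rw [hf x.1 y.1 h, zero_mul]
  · rw [hg x.2 y.2 (by omega), mul_zero]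

theorem CertU_itg_one {k : Type} [Field k] : Itg (1 : (LaurentSeries k)[X]) := by
  intro i j hj
  rw [Polynomial.coeff_one]
  split_ifs with h
  · rw [HahnSeries.coeff_one, if_neg (by omega)]
  · rfl

theorem CertU_itg_pow {k : Type} [Field k] {f : (LaurentSeries k)[X]} (hf : Itg f) (K : ℕ) :
    Itg (f ^ K) := by
  induction K with
  | zero =>
    rw [pow_zero]
    exact CertU_itg_one
  | succ K ih =>
    rw [pow_succ]
    exact CertU_itg_mul ih hf

variable {k R H : Type} [Field k] [CommRing R] [Algebra k[X] R] [Group H] [Finite H] {N : ℕ}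
  (B : RBas k R N) (P : ℕ)

/-- `cert_of_loc`.  `m` maximal, nonzero: its contraction to `k((β))[X]` is nonzero (`OL` is finite
over it, `fam_finite`, and a domain) and prime, so generated by an irreducible `F`, which we
normalise by `dich` (up to a constant).  `F ^ K ∈ m ^ K`.
Monic case: `apx_mon` for `G = F ^ K`; `Cert n η`: `a₀ ^ n = η c₀`, `a₁ ^ n = η c₁`,
`d₀ c₀ + d₁ c₁ = 1`, so `c_i ∉ m` for some `i`; `τ = c_i`,
`c_i u = (a_i β ^ D a) ^ n + c_i G w`.
Case `F(0) = 1`: `X ∉ m`; `apx_rev` for `F ^ K`; multiply by a power of `X` such that the exponent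
`M₂` becomes a multiple of `n`; `τ` = power of `X`. -/
theorem pat_cert (hP : 2 ≤ P) (C : Cov k R H) [IsDomain (OL k P R)] (n D : ℕ) (hn : 0 < n)
    (η : R) (hη : B.Lt (η - algebraMap k[X] R (X ^ (n * D))) (n * D)) (hc : Cert n η)
    {u : OL k P R} {x y : MM k P R} (h : IsPat B P n D η u x y) (hu : u ≠ 0) :
    Cert n u := by
  haveI hded : IsDedekindDomain (OL k P R) := fam_dedekind C _
  haveI hfin : Module.Finite (LaurentSeries k)[X] (OL k P R) := fam_finite C _
  haveI : Algebra.IsIntegral (LaurentSeries k)[X] (OL k P R) := Algebra.IsIntegral.of_finite _ _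
  refine cert_of_loc n hn u hu fun m hm hm0 K => ?_
  haveI := hm.isPrime
  obtain ⟨z, hz, hz0⟩ := Submodule.exists_mem_ne_zero_of_ne_bot hm0
  have h4 : m.comap (algebraMap (LaurentSeries k)[X] (OL k P R)) ≠ ⊥ :=
    Ideal.comap_ne_bot_of_integral_mem (R := (LaurentSeries k)[X]) hz0 hz
      (Algebra.IsIntegral.isIntegral z)
  haveI h5 : (m.comap (algebraMap (LaurentSeries k)[X] (OL k P R))).IsPrime :=
    Ideal.comap_isPrime _ m
  obtain ⟨F, hF⟩ : ∃ F : (LaurentSeries k)[X],
      m.comap (algebraMap (LaurentSeries k)[X] (OL k P R)) = Ideal.span {F} :=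
    (IsPrincipalIdealRing.principal
      (m.comap (algebraMap (LaurentSeries k)[X] (OL k P R)))).principal
  have hF0 : F ≠ 0 := by
    rintro rfl
    apply h4
    rw [hF]
    exact Ideal.span_singleton_eq_bot.2 rfl
  have hFp : Prime F := by
    rw [hF] at h5
    exact (Ideal.span_singleton_prime hF0).1 h5
  obtain ⟨c, hc0, hFi, hFd⟩ := dich F hFp.irreducible
  have hFm : algebraMap (LaurentSeries k)[X] (OL k P R) (Polynomial.C c * F) ∈ m := by
    have h6 : F ∈ m.comap (algebraMap (LaurentSeries k)[X] (OL k P R)) := by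
      rw [hF]
      exact Ideal.mem_span_singleton_self F
    rw [map_mul]
    exact Ideal.mul_mem_left _ _ h6
  have hGm : algebraMap (LaurentSeries k)[X] (OL k P R) ((Polynomial.C c * F) ^ K) ∈ m ^ K := by
    rw [map_pow]
    exact Ideal.pow_mem_pow hFm K
  rcases hFd with hmon | hone
  · obtain ⟨a, w, haw⟩ := apx_mon B P hP C n D η hη h ((Polynomial.C c * F) ^ K)
      (hmon.pow K) (CertU_itg_pow hFi K)
    obtain ⟨a0, a1, c0, c1, d0, d1, h0, h1, h01⟩ := hc
    -- one of the `c_i` is not in `m`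
    have key : ∀ a' c' : R, a' ^ n = η * c' →
        Bs.inR (evg k (LaurentSeries k) (gb (LaurentSeries k) P (bL k))) R c' ∉ m →
        ∃ τ x e : OL k P R, τ ∉ m ∧ e ∈ m ^ K ∧ τ * u = x ^ n + e := by
      intro a' c' hac hcm
      refine ⟨Bs.inR (evg k (LaurentSeries k) (gb (LaurentSeries k) P (bL k))) R c',
        algebraMap (LaurentSeries k)[X] (OL k P R) (Polynomial.C (bL k ^ D)) *
          Bs.inR (evg k (LaurentSeries k) (gb (LaurentSeries k) P (bL k))) R a' * a,
        Bs.inR (evg k (LaurentSeries k) (gb (LaurentSeries k) P (bL k))) R c' * w *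
          algebraMap (LaurentSeries k)[X] (OL k P R) ((Polynomial.C c * F) ^ K), hcm,
        Ideal.mul_mem_left _ _ hGm, ?_⟩
      have e1 : algebraMap (LaurentSeries k)[X] (OL k P R) (Polynomial.C (bL k ^ D)) ^ n =
          algebraMap (LaurentSeries k)[X] (OL k P R) (Polynomial.C (bL k ^ (n * D))) := by
        rw [← map_pow, ← map_pow, ← pow_mul, mul_comm D n]
      have e2 : Bs.inR (evg k (LaurentSeries k) (gb (LaurentSeries k) P (bL k))) R a' ^ n =
          Bs.inR (evg k (LaurentSeries k) (gb (LaurentSeries k) P (bL k))) R η *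
          Bs.inR (evg k (LaurentSeries k) (gb (LaurentSeries k) P (bL k))) R c' := by
        rw [← map_pow, hac, map_mul]
      rw [mul_pow, mul_pow, e1, e2]
      conv_lhs => rw [haw]
      ring
    by_cases hcm : Bs.inR (evg k (LaurentSeries k) (gb (LaurentSeries k) P (bL k))) R c0 ∈ m
    · refine key a1 c1 h1 fun hcm1 => ?_
      apply hm.ne_top
      rw [Ideal.eq_top_iff_one]
      have h7 : (1 : OL k P R) =
          Bs.inR (evg k (LaurentSeries k) (gb (LaurentSeries k) P (bL k))) R d0 *
            Bs.inR (evg k (LaurentSeries k) (gb (LaurentSeries k) P (bL k))) R c0 +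
          Bs.inR (evg k (LaurentSeries k) (gb (LaurentSeries k) P (bL k))) R d1 *
            Bs.inR (evg k (LaurentSeries k) (gb (LaurentSeries k) P (bL k))) R c1 := by
        rw [← map_mul, ← map_mul, ← map_add, h01, map_one]
      rw [h7]
      exact Ideal.add_mem _ (Ideal.mul_mem_left _ _ hcm) (Ideal.mul_mem_left _ _ hcm1)
    · exact key a0 c0 h0 hcm
  · have hone' : ((Polynomial.C c * F) ^ K).coeff 0 = 1 := by
      rw [Polynomial.coeff_zero_eq_eval_zero, Polynomial.eval_pow,
        ← Polynomial.coeff_zero_eq_eval_zero, hone, one_pow]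
    obtain ⟨M₁, M₂, a, w, haw⟩ := apx_rev B P hP C n D η hη h ((Polynomial.C c * F) ^ K)
      hone' (CertU_itg_pow hFi K)
    have hX : algebraMap (LaurentSeries k)[X] (OL k P R) X ∉ m := by
      intro hXm
      apply hm.ne_top
      rw [Ideal.eq_top_iff_one]
      obtain ⟨q, hq⟩ : ∃ q : (LaurentSeries k)[X], Polynomial.C c * F = X * q + 1 := by
        refine ⟨(Polynomial.C c * F).divX, ?_⟩
        conv_lhs => rw [← Polynomial.X_mul_divX_add (Polynomial.C c * F)]
        rw [hone, Polynomial.C_1]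
      have h8 : (1 : OL k P R) =
          algebraMap (LaurentSeries k)[X] (OL k P R) (Polynomial.C c * F) -
          algebraMap (LaurentSeries k)[X] (OL k P R) q *
            algebraMap (LaurentSeries k)[X] (OL k P R) X := by
        rw [hq, map_add, map_mul, map_one]
        ring
      rw [h8]
      exact Ideal.sub_mem _ hFm (Ideal.mul_mem_left _ _ hXm)
    refine ⟨algebraMap (LaurentSeries k)[X] (OL k P R) (X ^ (M₁ + (n - 1) * M₂)),
      algebraMap (LaurentSeries k)[X] (OL k P R) (X ^ M₂) * a,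
      algebraMap (LaurentSeries k)[X] (OL k P R) (X ^ ((n - 1) * M₂)) * w *
        algebraMap (LaurentSeries k)[X] (OL k P R) ((Polynomial.C c * F) ^ K), ?_,
      Ideal.mul_mem_left _ _ hGm, ?_⟩
    · intro h9
      rw [map_pow] at h9
      exact hX (Ideal.IsPrime.mem_of_pow_mem inferInstance _ h9)
    · have e1 : n * M₂ = (n - 1) * M₂ + M₂ := by
        obtain ⟨j, rfl⟩ : ∃ j, n = j + 1 := ⟨n - 1, by omega⟩
        rw [Nat.add_sub_cancel]
        ring
      have e2 : algebraMap (LaurentSeries k)[X] (OL k P R) (X ^ M₂) ^ n =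
          algebraMap (LaurentSeries k)[X] (OL k P R) (X ^ ((n - 1) * M₂)) *
          algebraMap (LaurentSeries k)[X] (OL k P R) (X ^ M₂) := by
        rw [← map_pow, ← pow_mul, mul_comm M₂ n, e1, pow_add, map_mul]
      have e3 : algebraMap (LaurentSeries k)[X] (OL k P R) (X ^ (M₁ + (n - 1) * M₂)) * u =
          algebraMap (LaurentSeries k)[X] (OL k P R) (X ^ ((n - 1) * M₂)) *
          (algebraMap (LaurentSeries k)[X] (OL k P R) (X ^ M₁) * u) := by
        rw [pow_add, map_mul]
        ring
      rw [e3, haw, mul_pow (algebraMap (LaurentSeries k)[X] (OL k P R) (X ^ M₂)) a n, e2]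
      ring

end Pool.Agent.AB3
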