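import Pool.Agent.Lib.MP_5de024_nt.S.PatX.Phi

/-!
# Patching: lattices, products (part PAT, file LatA)
-/

set_option autoImplicit false
set_option linter.unusedSectionVars false

namespace Pool.Agent.AB3


open Polynomial

variable {k R H : Type} [Field k] [CommRing R] [Algebra k[X] R] [Group H] [Finite H] {N : ℕ}
  (B : RBas k R N) (P : ℕ)

theorem Lat_smul {U V W : ℤ → ℤ → Prop} {a : BA k} {z : MM k P R} (ha : SU U a)
    (hz : Lat B P V z) (h : ∀ n m n' m', U n m → V n' m' → W (n + n') (m + m')) :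
    Lat B P W (algebraMap (BA k) (MM k P R) a * z) := by
  intro i
  rw [co_smul]
  exact SU_mul ha (hz i) h

private theorem LatA_fac (hP : 1 ≤ P) (c : k[X]) (D E K : ℕ) (h : c = 0 ∨ c.natDegree + E ≤ D)
    (hK : P * D ≤ K) :
    SU (fun n m => 0 ≤ n ∧ 0 ≤ m ∧ m ≤ (K : ℤ)) (bz k ((D : ℤ) - E) * phiPat k P c) := by
  rcases h with h | h
  · rw [h, map_zero, mul_zero]
    exact SU_zero _
  · have h1 : ((D : ℤ) - E) = ((D - E : ℕ) : ℤ) := by
      rw [Nat.cast_sub (by omega)]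
    rw [h1]
    refine SU_mono (fun n m hnm => ?_) (phi_SU P hP c (D - E) (by omega))
    obtain ⟨h2, h3, h4⟩ := hnm
    refine ⟨h2, h3, h4.trans ?_⟩
    have h5 : P * (D - E) ≤ K := (Nat.mul_le_mul_left P (Nat.sub_le D E)).trans hK
    exact_mod_cast h5

private theorem LatA_KB1 (i : Fin N) : P * B.d i ≤ KB B P := by
  unfold KB
  refine Nat.mul_le_mul_left P ?_
  have h1 : 2 * B.d i ≤ ∑ i, 2 * B.d i :=
    Finset.single_le_sum (f := fun i => 2 * B.d i) (fun _ _ => Nat.zero_le _) (Finset.mem_univ i)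
  omega

private theorem LatA_KB2 (i j : Fin N) : P * (B.d i + B.d j) ≤ KB B P := by
  unfold KB
  refine Nat.mul_le_mul_left P ?_
  have h1 : 2 * B.d i ≤ ∑ i, 2 * B.d i :=
    Finset.single_le_sum (f := fun i => 2 * B.d i) (fun _ _ => Nat.zero_le _) (Finset.mem_univ i)
  have h2 : 2 * B.d j ≤ ∑ i, 2 * B.d i :=
    Finset.single_le_sum (f := fun i => 2 * B.d i) (fun _ _ => Nat.zero_le _) (Finset.mem_univ j)
  omega

private theorem LatA_repr_mul (z w : MM k P R) (l : Fin N) :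
    (Bs.basis (phiPat k P) B.e).repr (z * w) l = ∑ i, ∑ j,
      (Bs.basis (phiPat k P) B.e).repr z i * ((Bs.basis (phiPat k P) B.e).repr w j *
        phiPat k P (B.e.repr (B.e i * B.e j) l)) := by
  set b := Bs.basis (phiPat k P) B.e with hb
  have h1 : z * w = ∑ i, ∑ j, (b.repr z i * b.repr w j) •
      Bs.inR (phiPat k P) R (B.e i * B.e j) := by
    conv_lhs => rw [← b.sum_repr z, ← b.sum_repr w]
    rw [Finset.sum_mul_sum]
    refine Finset.sum_congr rfl fun i _ => Finset.sum_congr rfl fun j _ => ?_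
    rw [smul_mul_smul_comm, hb, Bs.basis_apply, Bs.basis_apply, map_mul]
  rw [h1, map_sum, Finsupp.finsetSum_apply]
  refine Finset.sum_congr rfl fun i _ => ?_
  rw [map_sum, Finsupp.finsetSum_apply]
  refine Finset.sum_congr rfl fun j _ => ?_
  rw [map_smul, Finsupp.smul_apply, smul_eq_mul, hb, Bs.repr_inR, mul_assoc]

private theorem LatA_repr_act (C : Cov k R H) (σ : H) (z : MM k P R) (l : Fin N) :
    (Bs.basis (phiPat k P) B.e).repr (Bs.act (phiPat k P) C.act σ z) l = ∑ i,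
      (Bs.basis (phiPat k P) B.e).repr z i * phiPat k P (B.e.repr (C.act σ (B.e i)) l) := by
  set b := Bs.basis (phiPat k P) B.e with hb
  have h1 : Bs.act (phiPat k P) C.act σ z = ∑ i, b.repr z i •
      Bs.inR (phiPat k P) R (C.act σ (B.e i)) := by
    conv_lhs => rw [← b.sum_repr z]
    rw [map_sum]
    refine Finset.sum_congr rfl fun i _ => ?_
    rw [map_smul, hb, Bs.basis_apply, Bs.act_inR]
  rw [h1, map_sum, Finsupp.finsetSum_apply]
  refine Finset.sum_congr rfl fun i _ => ?_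
  rw [map_smul, Finsupp.smul_apply, smul_eq_mul, hb, Bs.repr_inR]

private theorem LatA_co_one (l : Fin N) :
    co B P (1 : MM k P R) l = bz k (-(B.d l : ℤ)) * phiPat k P (B.e.repr 1 l) := by
  unfold co
  rw [← map_one (Bs.inR (phiPat k P) R), Bs.repr_inR]

private theorem LatA_one_cases (l : Fin N) : B.e.repr 1 l = 0 ∨
    (B.d l = 0 ∧ B.e.repr 1 l = Polynomial.C ((B.e.repr 1 l).coeff 0)) := by
  rcases B.one l with h | h
  · exact Or.inl h
  · refine Or.inr ⟨by omega, ?_⟩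
    exact Polynomial.eq_C_of_natDegree_eq_zero (by omega)

/-- `co (z w) l = ∑_{i,j} co z i * co w j * (β ^ (d_i + d_j - d_l) φ(c_ijl))` where `c_ijl` is the
`l`-th coordinate of `e_i e_j` (expand `z = ∑ repr z i • e_i`, `Bs.basis_apply`, `Bs.repr_inR`);
`c_ijl = 0` or `deg c_ijl ≤ d_i + d_j - d_l =: M` (`B.mul`), so the last factor has exponents
`0 ≤ n`, `0 ≤ m ≤ P M ≤ KB B P` (`phi_SU`; `M ≤ d_i + d_j ≤ ∑ 2 d`). -/
theorem Lat_mul (hP : 1 ≤ P) {U V W : ℤ → ℤ → Prop} {z w : MM k P R} (hz : Lat B P U z)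
    (hw : Lat B P V w)
    (h : ∀ n m n' m' n'' m'' : ℤ, U n m → V n' m' → 0 ≤ n'' → 0 ≤ m'' → m'' ≤ KB B P →
      W (n + n' + n'') (m + m' + m'')) : Lat B P W (z * w) := by
  intro l
  have h1 : co B P (z * w) l = ∑ i, ∑ j, co B P z i * (co B P w j *
      (bz k (((B.d i + B.d j : ℕ) : ℤ) - B.d l) * phiPat k P (B.e.repr (B.e i * B.e j) l))) := by
    rw [co, LatA_repr_mul, Finset.mul_sum]
    refine Finset.sum_congr rfl fun i _ => ?_
    rw [Finset.mul_sum]
    refine Finset.sum_congr rfl fun j _ => ?_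
    have h2 : bz k (-(B.d l : ℤ)) = bz k (-(B.d i : ℤ)) * (bz k (-(B.d j : ℤ)) *
        bz k (((B.d i + B.d j : ℕ) : ℤ) - B.d l)) := by
      rw [← bz_add, ← bz_add]
      congr 1
      push_cast
      ring
    rw [h2, co, co]
    ring
  rw [h1]
  refine SU_sum _ _ fun i _ => SU_sum _ _ fun j _ => ?_
  have h3 := LatA_fac P hP (B.e.repr (B.e i * B.e j) l) (B.d i + B.d j) (B.d l) (KB B P)
    (B.mul i j l) (LatA_KB2 B P i j)
  have h4 : SU (fun n m => ∃ n' m' n'' m'' : ℤ, V n' m' ∧ 0 ≤ n'' ∧ 0 ≤ m'' ∧ m'' ≤ KB B P ∧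
      n = n' + n'' ∧ m = m' + m'') (co B P w j *
      (bz k (((B.d i + B.d j : ℕ) : ℤ) - B.d l) * phiPat k P (B.e.repr (B.e i * B.e j) l))) :=
    SU_mul (hw j) h3 fun n m n' m' hV hn =>
      ⟨n, m, n', m', hV, hn.1, hn.2.1, hn.2.2, rfl, rfl⟩
  refine SU_mul (hz i) h4 ?_
  rintro n m _ _ hU ⟨n', m', n'', m'', hV, h5, h6, h7, rfl, rfl⟩
  rw [← add_assoc, ← add_assoc]
  exact h n m n' m' n'' m'' hU hV h5 h6 h7

/-- `B.one`: the coordinates of `1` are constants, zero unless `d l = 0`. -/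
theorem Lat_one : Lat B P (fun n m => n = 0 ∧ m = 0) (1 : MM k P R) := by
  intro l
  rw [LatA_co_one]
  rcases LatA_one_cases B l with h | ⟨h1, h2⟩
  · rw [h, map_zero, mul_zero]
    exact SU_zero _
  · rw [h1, h2, phi_C, Nat.cast_zero, neg_zero, bz_zero, one_mul]
    exact SU_kc _

theorem Lat_alg {U : ℤ → ℤ → Prop} {a : BA k} (ha : SU U a) :
    Lat B P U (algebraMap (BA k) (MM k P R) a) := by
  have h := Lat_smul B P (W := U) ha (Lat_one B P) (by
    rintro n m n' m' hU ⟨rfl, rfl⟩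
    rw [add_zero, add_zero]
    exact hU)
  rwa [mul_one] at h

/-- Some coordinate of `1` is a nonzero constant. -/
theorem Lat_alg_inv [Nontrivial R] {U : ℤ → ℤ → Prop} {a : BA k}
    (ha : Lat B P U (algebraMap (BA k) (MM k P R) a)) : SU U a := by
  have h1 : ∃ l, B.e.repr 1 l ≠ 0 := by
    by_contra hcon
    push Not at hcon
    have h2 : B.e.repr 1 = 0 := Finsupp.ext hcon
    exact one_ne_zero (B.e.repr.map_eq_zero_iff.1 h2)
  obtain ⟨l, hl⟩ := h1
  rcases LatA_one_cases B l with h | ⟨h2, h3⟩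
  · exact absurd h hl
  · have hc : (B.e.repr 1 l).coeff 0 ≠ 0 := by
      intro h4
      rw [h4, Polynomial.C_0] at h3
      exact hl h3
    have h5 := ha l
    have h6 : co B P (algebraMap (BA k) (MM k P R) a) l =
        kc k ((B.e.repr 1 l).coeff 0) * a := by
      rw [← mul_one (algebraMap (BA k) (MM k P R) a), co_smul, LatA_co_one, h2]
      conv_lhs => rw [h3]
      rw [phi_C, Nat.cast_zero, neg_zero, bz_zero, one_mul, mul_comm]
    rw [h6] at h5
    intro n m hU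
    have h7 := h5 n m hU
    rw [cf_kc] at h7
    exact (mul_eq_zero.1 h7).resolve_left hc

/-- `B.Stab`: as in `Lat_mul`, `co (h z) l = ∑_i co z i * (β ^ (d_i - d_l) φ(c_il))`, `c_il` the
`l`-th coordinate of `h e_i`, zero or of degree `≤ d_i - d_l`. -/
theorem Lat_act (hP : 1 ≤ P) (C : Cov k R H) (hS : B.Stab C) {U W : ℤ → ℤ → Prop}
    {z : MM k P R} (hz : Lat B P U z) (σ : H)
    (h : ∀ n m n'' m'' : ℤ, U n m → 0 ≤ n'' → 0 ≤ m'' → m'' ≤ KB B P →
      W (n + n'') (m + m'')) : Lat B P W (Bs.act (phiPat k P) C.act σ z) := by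
  intro l
  have h1 : co B P (Bs.act (phiPat k P) C.act σ z) l = ∑ i, co B P z i *
      (bz k ((B.d i : ℤ) - B.d l) * phiPat k P (B.e.repr (C.act σ (B.e i)) l)) := by
    rw [co, LatA_repr_act, Finset.mul_sum]
    refine Finset.sum_congr rfl fun i _ => ?_
    have h2 : bz k (-(B.d l : ℤ)) = bz k (-(B.d i : ℤ)) * bz k ((B.d i : ℤ) - B.d l) := by
      rw [← bz_add]
      congr 1
      ring
    rw [h2, co]
    ring
  rw [h1]
  refine SU_sum _ _ fun i _ => ?_
  have h3 := LatA_fac P hP (B.e.repr (C.act σ (B.e i)) l) (B.d i) (B.d l) (KB B P)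
    (hS σ i l) (LatA_KB1 B P i)
  exact SU_mul (hz i) h3 fun n m n' m' hU hn => h n m n' m' hU hn.1 hn.2.1 hn.2.2

/-- `U` and `V` closed under the multiplication in the sense of `Lat_mul` -/
theorem Lat_pow (hP : 1 ≤ P) {U : ℤ → ℤ → Prop} {z : MM k P R} (hz : Lat B P U z)
    (h0 : U 0 0)
    (h : ∀ n m n' m' n'' m'' : ℤ, U n m → U n' m' → 0 ≤ n'' → 0 ≤ m'' → m'' ≤ KB B P →
      U (n + n' + n'') (m + m' + m'')) (i : ℕ) : Lat B P U (z ^ i) := by
  induction i with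
  | zero =>
    rw [pow_zero]
    exact Lat_mono B P (fun n m hnm => by rw [hnm.1, hnm.2]; exact h0) (Lat_one B P)
  | succ i ih =>
    rw [pow_succ]
    exact Lat_mul B P hP ih hz h

/-- powers of elements with exponents `0 ≤ n`, `m ≤ b` -/
theorem Lat_pow_bdd (hP : 1 ≤ P) {b : ℕ} {z : MM k P R}
    (hz : Lat B P (fun n m => 0 ≤ n ∧ m ≤ b) z) (i : ℕ) :
    Lat B P (fun n m => 0 ≤ n ∧ m ≤ ((b + KB B P) * i : ℕ)) (z ^ i) := by
  induction i with
  | zero =>
    rw [pow_zero]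
    refine Lat_mono B P (fun n m hnm => ?_) (Lat_one B P)
    obtain ⟨h1, h2⟩ := hnm
    subst h1 h2
    simp
  | succ i ih =>
    rw [pow_succ]
    refine Lat_mul B P hP ih hz fun n m n' m' n'' m'' h1 h2 h3 h4 h5 => ?_
    obtain ⟨h6, h7⟩ := h1
    obtain ⟨h8, h9⟩ := h2
    have e : (((b + KB B P) * (i + 1) : ℕ) : ℤ) =
        (((b + KB B P) * i : ℕ) : ℤ) + b + KB B P := by
      push_cast
      ring
    refine ⟨by omega, ?_⟩
    show m + m' + m'' ≤ (((b + KB B P) * (i + 1) : ℕ) : ℤ)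
    rw [e]
    exact add_le_add (add_le_add h7 h9) h5

/-- powers of elements with exponents `0 ≤ n`, `0 ≤ m ≤ b` -/
theorem Lat_pow_bdd' (hP : 1 ≤ P) {b : ℕ} {z : MM k P R}
    (hz : Lat B P (fun n m => 0 ≤ n ∧ 0 ≤ m ∧ m ≤ b) z) (i : ℕ) :
    Lat B P (fun n m => 0 ≤ n ∧ 0 ≤ m ∧ m ≤ ((b + KB B P) * i : ℕ)) (z ^ i) := by
  induction i with
  | zero =>
    rw [pow_zero]
    refine Lat_mono B P (fun n m hnm => ?_) (Lat_one B P)
    obtain ⟨h1, h2⟩ := hnm
    subst h1 h2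
    simp
  | succ i ih =>
    rw [pow_succ]
    refine Lat_mul B P hP ih hz fun n m n' m' n'' m'' h1 h2 h3 h4 h5 => ?_
    obtain ⟨h6, h7, h8⟩ := h1
    obtain ⟨h9, h10, h11⟩ := h2
    have e : (((b + KB B P) * (i + 1) : ℕ) : ℤ) =
        (((b + KB B P) * i : ℕ) : ℤ) + b + KB B P := by
      push_cast
      ring
    refine ⟨by omega, by omega, ?_⟩
    show m + m' + m'' ≤ (((b + KB B P) * (i + 1) : ℕ) : ℤ)
    rw [e]
    exact add_le_add (add_le_add h8 h11) h5

end Pool.Agent.AB3
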