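import Pool.Agent.Lib.MP_5de024_nt.S.PatX.LatM
import Pool.Agent.Lib.MP_5de024_nt.S.PatX.LatA

/-!
# Patching: the element `β ^ (n D) η` (part PAT, file CoreA)
-/

set_option autoImplicit false
set_option linter.unusedSectionVars false

namespace Pool.Agent.AB3


open Polynomial

variable {k R H : Type} [Field k] [CommRing R] [Algebra k[X] R] [Group H] [Finite H] {N : ℕ}
  (B : RBas k R N) (P : ℕ)

/-- the element `β ^ (n D) η` of the big ring -/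
noncomputable def HHe (n D : ℕ) (η : R) : MM k P R :=
  algebraMap (BA k) (MM k P R) (bz k ((n * D : ℕ) : ℤ)) * Bs.inR (phiPat k P) R η

/-- the output of the patching: `u = β ^ (n D) η x ^ n = (t ^ D y) ^ n` with `x` in `1 + β M₊` and
`y` in `1 + β M₋` -/
def IsPat (n D : ℕ) (η : R) (u : OL k P R) (x y : MM k P R) : Prop :=
  Lat B P (fun a b => 1 ≤ a ∧ 0 ≤ b) (x - 1) ∧ Lat B P (fun a b => 1 ≤ a ∧ b < 0) (y - 1) ∧
    iM k P R u = HHe P n D η * x ^ n ∧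
    iM k P R u = algebraMap (BA k) (MM k P R) (tz k ((n * D : ℕ) : ℤ)) * y ^ n

private theorem CoreA_w (P : ℕ) (hP : 2 ≤ P) :
    SU (fun a m => 1 ≤ a ∧ 0 ≤ m ∧ m ≤ (P : ℤ))
      ((tz k 1 - bz k ((P : ℤ) - 1) * tz k P) - tz k 1) := by
  have h1 : (tz k 1 - bz k ((P : ℤ) - 1) * tz k P) - tz k 1 =
      0 - bz k ((P : ℤ) - 1) * tz k P := by ring
  rw [h1]
  refine SU_sub (SU_zero _) (SU_mul (SU_bz _) (SU_tz _) fun n m n' m' h h' => ?_)
  obtain ⟨h1, h2⟩ := h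
  obtain ⟨h3, h4⟩ := h'
  refine ⟨by omega, by omega, by omega⟩

private theorem CoreA_pow (P : ℕ) (hP : 2 ≤ P) (j : ℕ) :
    SU (fun a m => 1 ≤ a ∧ 0 ≤ m ∧ m ≤ ((P * j : ℕ) : ℤ))
      ((tz k 1 - bz k ((P : ℤ) - 1) * tz k P) ^ j - tz k (j : ℤ)) := by
  set w : BA k := tz k 1 - bz k ((P : ℤ) - 1) * tz k P with hw
  have hw0 := CoreA_w (k := k) P hP
  rw [← hw] at hw0
  induction j with
  | zero =>
    rw [pow_zero, Nat.cast_zero, tz_zero, sub_self]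
    exact SU_zero _
  | succ j ih =>
    have h1 : w ^ (j + 1) - tz k ((j + 1 : ℕ) : ℤ) =
        (w ^ j - tz k (j : ℤ)) * (w - tz k 1) + (w ^ j - tz k (j : ℤ)) * tz k 1 +
          tz k (j : ℤ) * (w - tz k 1) := by
      have h2 : tz k ((j + 1 : ℕ) : ℤ) = tz k (j : ℤ) * tz k 1 := by
        rw [← tz_add]
        push_cast
        rfl
      rw [h2]
      ring
    rw [h1]
    have e : ((P * (j + 1) : ℕ) : ℤ) = ((P * j : ℕ) : ℤ) + P := by
      push_cast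
      ring
    have e2 : (j : ℤ) ≤ ((P * j : ℕ) : ℤ) := by
      have : j ≤ P * j := Nat.le_mul_of_pos_left j (by omega)
      exact_mod_cast this
    refine SU_add (SU_add (SU_mul ih hw0 ?_) (SU_mul ih (SU_tz 1) ?_)) (SU_mul (SU_tz _) hw0 ?_)
    · rintro n m n' m' ⟨h2, h3, h4⟩ ⟨h5, h6, h7⟩
      refine ⟨by omega, by omega, ?_⟩
      rw [e]
      omega
    · rintro n m n' m' ⟨h2, h3, h4⟩ ⟨h5, h6⟩
      refine ⟨by omega, by omega, ?_⟩
      rw [e]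
      omega
    · rintro n m n' m' ⟨h2, h3⟩ ⟨h5, h6, h7⟩
      refine ⟨by omega, by omega, ?_⟩
      rw [e]
      omega

private theorem CoreA_X (P : ℕ) (hP : 2 ≤ P) (j : ℕ) :
    bz k (j : ℤ) * phiPat k P (X ^ j) = (tz k 1 - bz k ((P : ℤ) - 1) * tz k P) ^ j := by
  rw [map_pow, phi_X P (by omega)]
  have h1 : bz k (j : ℤ) = bz k 1 ^ j := by rw [bz_pow, mul_one]
  rw [h1, ← mul_pow, ← mul_assoc, ← bz_add]
  have h2 : bz k (1 + -1) = 1 := bz_zero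
  rw [h2, one_mul]

/-- the difference `β ^ (n D) η - t ^ (n D)` -/
private theorem CoreA_diff (hP : 2 ≤ P) (n D : ℕ) (η : R)
    (hη : B.Lt (η - algebraMap k[X] R (X ^ (n * D))) (n * D)) :
    Lat B P (fun a m => 1 ≤ a ∧ 0 ≤ m ∧ m ≤ ((P * (n * D) : ℕ) : ℤ))
      (HHe P n D η - algebraMap (BA k) (MM k P R) (tz k ((n * D : ℕ) : ℤ))) := by
  set M := n * D with hM
  set ζ : R := η - algebraMap k[X] R (X ^ M) with hζ
  have h1 : HHe P n D η - algebraMap (BA k) (MM k P R) (tz k (M : ℤ)) =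
      algebraMap (BA k) (MM k P R) (bz k (M : ℤ)) * Bs.inR (phiPat k P) R ζ +
      algebraMap (BA k) (MM k P R)
        ((tz k 1 - bz k ((P : ℤ) - 1) * tz k P) ^ M - tz k (M : ℤ)) := by
    have h2 : algebraMap (BA k) (MM k P R)
        ((tz k 1 - bz k ((P : ℤ) - 1) * tz k P) ^ M - tz k (M : ℤ)) =
        algebraMap (BA k) (MM k P R) (bz k (M : ℤ)) * algebraMap (BA k) (MM k P R)
          (phiPat k P (X ^ M)) - algebraMap (BA k) (MM k P R) (tz k (M : ℤ)) := by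
      rw [map_sub, ← CoreA_X P hP M, map_mul (algebraMap (BA k) (MM k P R))]
    rw [h2, HHe, ← hM, ← Bs.inR_alg, hζ, map_sub]
    ring
  rw [h1]
  refine Lat_add B P ?_ (Lat_alg B P (CoreA_pow P hP M))
  intro i
  rw [co_smul, co, Bs.repr_inR]
  rcases hη i with h | h
  · rw [h, map_zero, mul_zero, mul_zero]
    exact SU_zero _
  · have h2 : (B.e.repr ζ i).natDegree ≤ M - 1 - B.d i := by omega
    have h3 := phi_SU P (by omega) (B.e.repr ζ i) (M - 1 - B.d i) h2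
    have h4 : bz k (M : ℤ) * (bz k (-(B.d i : ℤ)) * phiPat k P (B.e.repr ζ i)) =
        bz k 1 * (bz k ((M - 1 - B.d i : ℕ) : ℤ) * phiPat k P (B.e.repr ζ i)) := by
      rw [← mul_assoc, ← mul_assoc, ← bz_add, ← bz_add]
      congr 2
      omega
    rw [h4]
    refine SU_mul (SU_bz 1) h3 ?_
    rintro a m a' m' ⟨h5, h6⟩ ⟨h7, h8, h9⟩
    have h10 : ((P * (M - 1 - B.d i) : ℕ) : ℤ) ≤ ((P * M : ℕ) : ℤ) := by
      exact_mod_cast Nat.mul_le_mul_left P (by omega)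
    refine ⟨by omega, by omega, by omega⟩

/-- `HH = β ^ (n D) η` is `t ^ (n D) q`, `q` in `1 + β M₀`: write `η = X ^ (n D) + ζ` with
`B.Lt ζ (n D)`; the scaled coordinates of `β ^ (n D) ζ` are `β ^ (n D - d_l) φ(c_l)`,
`deg c_l ≤ n D - 1 - d_l`, so have exponents `1 ≤ n`, `0 ≤ m ≤ P n D` (`phi_SU`), and
`β ^ (n D) φ(X ^ (n D)) = (t - β ^ (P - 1) t ^ P) ^ (n D)`, which is
`t ^ (n D) + (exponents 1 ≤ n, 0 ≤ m ≤ P n D)` because `P ≥ 2`. -/
theorem hh_lat (hP : 2 ≤ P) (n D : ℕ) (η : R)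
    (hη : B.Lt (η - algebraMap k[X] R (X ^ (n * D))) (n * D)) :
    (∃ b : ℕ, Lat B P (fun a m => 0 ≤ a ∧ 0 ≤ m ∧ m ≤ b) (HHe P n D η)) ∧
    ∃ q : MM k P R, Lat B P (fun a _ => 1 ≤ a) (q - 1) ∧
      HHe P n D η = algebraMap (BA k) (MM k P R) (tz k ((n * D : ℕ) : ℤ)) * q := by
  have h := CoreA_diff B P hP n D η hη
  refine ⟨⟨P * (n * D), ?_⟩, algebraMap (BA k) (MM k P R) (tz k (-((n * D : ℕ) : ℤ))) *
    HHe P n D η, ?_, ?_⟩
  · have h1 : HHe P n D η = (HHe P n D η - algebraMap (BA k) (MM k P R)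
        (tz k ((n * D : ℕ) : ℤ))) + algebraMap (BA k) (MM k P R) (tz k ((n * D : ℕ) : ℤ)) := by
      ring
    rw [h1]
    refine Lat_add B P (Lat_mono B P (fun a m h2 => ?_) h)
      (Lat_mono B P (fun a m h2 => ?_) (Lat_alg B P (SU_tz _)))
    · exact ⟨by have := h2.1; omega, h2.2.1, h2.2.2⟩
    · obtain ⟨h3, h4⟩ := h2
      have h5 : ((n * D : ℕ) : ℤ) ≤ ((P * (n * D) : ℕ) : ℤ) := by
        exact_mod_cast Nat.le_mul_of_pos_left (n * D) (by omega)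
      refine ⟨by omega, by omega, by omega⟩
  · have h1 : algebraMap (BA k) (MM k P R) (tz k (-((n * D : ℕ) : ℤ))) * HHe P n D η - 1 =
        algebraMap (BA k) (MM k P R) (tz k (-((n * D : ℕ) : ℤ))) *
        (HHe P n D η - algebraMap (BA k) (MM k P R) (tz k ((n * D : ℕ) : ℤ))) := by
      rw [mul_sub, ← map_mul, ← tz_add, neg_add_cancel, tz_zero, map_one]
    rw [h1]
    refine Lat_smul B P (SU_tz _) h ?_
    rintro a m a' m' ⟨h2, h3⟩ ⟨h4, h5, h6⟩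
    omega
  · rw [← mul_assoc, ← map_mul, ← tz_add, add_neg_cancel, tz_zero, map_one, one_mul]

end Pool.Agent.AB3
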