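import Pool.Agent.Lib.MP_5de024_nt.S.GeoM

/-!
# Patching: definitions (part PAT, file Defs)

`BA k` is the ring `k[t, 1/t]((β))`, `MM k P R` the base change of `R` along
`X ↦ β⁻¹ (t - β ^ (P - 1) t ^ P)` and `OL k P R` the ring of the family over `k((β))`, which is a
subring of `MM k P R` via `iM`.  Lattices in `MM` are given by the pairs of exponents `(n, m)` of
`β ^ n t ^ m` which may occur in the scaled coordinates `co`.
-/

set_option autoImplicit false
set_option linter.unusedSectionVars false

namespace Pool.Agent.AB3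

open Polynomial

/-- the ring `k[t, 1/t]((β))` -/
abbrev BA (k : Type) [Field k] : Type := HahnSeries ℤ (LaurentPolynomial k)

/-- the coefficient of `β ^ n t ^ m` -/
noncomputable def cf {k : Type} [Field k] (z : BA k) (n m : ℤ) : k := (z.coeff n).coeff m

/-- only exponents in `U` occur -/
def SU {k : Type} [Field k] (U : ℤ → ℤ → Prop) (z : BA k) : Prop :=
  ∀ n m, ¬ U n m → cf z n m = 0

/-- the coefficientwise map of Laurent series -/
noncomputable def hmap {A A' : Type} [CommRing A] [CommRing A'] (f : A →+* A') :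
    HahnSeries ℤ A →+* HahnSeries ℤ A' where
  toFun z := z.map f
  map_one' := by
    ext n
    rw [HahnSeries.map_coeff, HahnSeries.coeff_one, HahnSeries.coeff_one]
    split_ifs
    · exact map_one f
    · exact map_zero f
  map_mul' _ _ := HahnSeries.map_mul (f : A →ₙ+* A')
  map_zero' := by
    ext n
    exact map_zero f
  map_add' x y := by
    ext n
    exact map_add f (x.coeff n) (y.coeff n)

theorem hmap_coeff {A A' : Type} [CommRing A] [CommRing A'] (f : A →+* A')
    (z : HahnSeries ℤ A) (n : ℤ) : (hmap f z).coeff n = f (z.coeff n) := by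
  unfold hmap
  exact HahnSeries.map_coeff z f n

/-- the monomial `β ^ j` -/
noncomputable def bz (k : Type) [Field k] (j : ℤ) : BA k := HahnSeries.single j 1

/-- the monomial `t ^ j` -/
noncomputable def tz (k : Type) [Field k] (j : ℤ) : BA k :=
  HahnSeries.single 0 (LaurentPolynomial.T j)

/-- constants -/
noncomputable def kc (k : Type) [Field k] : k →+* BA k :=
  (HahnSeries.C : LaurentPolynomial k →+* BA k).comp LaurentPolynomial.C

/-- the embedding of `k((β))[t]` -/
noncomputable def iA (k : Type) [Field k] : (LaurentSeries k)[X] →+* BA k :=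
  Polynomial.eval₂RingHom (hmap (LaurentPolynomial.C : k →+* LaurentPolynomial k)) (tz k 1)

/-- the parameter `β` of `k((β))` -/
noncomputable abbrev bL (k : Type) [Field k] : LaurentSeries k := HahnSeries.single 1 1

/-- `X ↦ β⁻¹ (t - β ^ (P - 1) t ^ P)` -/
noncomputable def phiPat (k : Type) [Field k] (P : ℕ) : k[X] →+* BA k :=
  (iA k).comp (evg k (LaurentSeries k) (gb (LaurentSeries k) P (bL k)))

section

variable (k : Type) [Field k] (P : ℕ) (R : Type) [CommRing R] [Algebra k[X] R]

/-- the big ring -/
abbrev MM : Type := Bs (phiPat k P) R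

/-- the ring of the family over `k((β))` -/
abbrev OL : Type := Fam k (LaurentSeries k) (gb (LaurentSeries k) P (bL k)) R

/-- the embedding -/
noncomputable def iM : OL k P R →+* MM k P R :=
  Bs.map (evg k (LaurentSeries k) (gb (LaurentSeries k) P (bL k))) (iA k) (phiPat k P)
    (fun _ => rfl)

end

section

variable {k : Type} [Field k] {R : Type} [CommRing R] [Algebra k[X] R] {N : ℕ}

/-- the scaled coordinates in `MM`, i.e. the coordinates in the basis `β ^ (d i) e i` -/
noncomputable def co (B : RBas k R N) (P : ℕ) (z : MM k P R) (i : Fin N) : BA k :=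
  bz k (-(B.d i : ℤ)) * (Bs.basis (phiPat k P) B.e).repr z i

/-- the lattice of the elements whose scaled coordinates have exponents in `U` -/
def Lat (B : RBas k R N) (P : ℕ) (U : ℤ → ℤ → Prop) (z : MM k P R) : Prop :=
  ∀ i, SU U (co B P z i)

/-- a bound for the degrees of the structure constants -/
def KB (B : RBas k R N) (P : ℕ) : ℕ := P * ∑ i, 2 * B.d i

/-- integral polynomials over `k((β))` -/
def Itg (f : (LaurentSeries k)[X]) : Prop := ∀ i j, j < 0 → (f.coeff i).coeff j = 0

end

section basic

variable {k : Type} [Field k]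

theorem cf_add (z w : BA k) (n m : ℤ) : cf (z + w) n m = cf z n m + cf w n m := rfl

theorem cf_zero (n m : ℤ) : cf (0 : BA k) n m = 0 := rfl

theorem cf_neg (z : BA k) (n m : ℤ) : cf (-z) n m = -cf z n m := rfl

theorem cf_sub (z w : BA k) (n m : ℤ) : cf (z - w) n m = cf z n m - cf w n m := rfl

theorem cf_ext {z w : BA k} (h : ∀ n m, cf z n m = cf w n m) : z = w := by
  ext n m
  exact h n m

theorem SU_mono {U V : ℤ → ℤ → Prop} (h : ∀ n m, U n m → V n m) {z : BA k} (hz : SU U z) :
    SU V z := fun n m hn => hz n m fun hU => hn (h n m hU)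

theorem SU_zero (U : ℤ → ℤ → Prop) : SU U (0 : BA k) := fun _ _ _ => rfl

theorem SU_add {U : ℤ → ℤ → Prop} {z w : BA k} (hz : SU U z) (hw : SU U w) : SU U (z + w) := by
  intro n m h
  rw [cf_add, hz n m h, hw n m h, add_zero]

theorem SU_sub {U : ℤ → ℤ → Prop} {z w : BA k} (hz : SU U z) (hw : SU U w) : SU U (z - w) := by
  intro n m h
  rw [cf_sub, hz n m h, hw n m h, sub_zero]

end basic

section lat

variable {k : Type} [Field k] {R : Type} [CommRing R] [Algebra k[X] R] {N : ℕ}
  (B : RBas k R N) (P : ℕ)

theorem co_add (z w : MM k P R) (i : Fin N) : co B P (z + w) i = co B P z i + co B P w i := by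
  unfold co
  rw [map_add, Finsupp.add_apply, mul_add]

theorem co_sub (z w : MM k P R) (i : Fin N) : co B P (z - w) i = co B P z i - co B P w i := by
  unfold co
  rw [map_sub, Finsupp.sub_apply, mul_sub]

theorem co_zero (i : Fin N) : co B P (0 : MM k P R) i = 0 := by
  unfold co
  rw [map_zero, Finsupp.zero_apply, mul_zero]

theorem co_smul (a : BA k) (z : MM k P R) (i : Fin N) :
    co B P (algebraMap (BA k) (MM k P R) a * z) i = a * co B P z i := by
  unfold co
  rw [← Algebra.smul_def, map_smul, Finsupp.smul_apply, smul_eq_mul]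
  ring

theorem Lat_mono {U V : ℤ → ℤ → Prop} (h : ∀ n m, U n m → V n m) {z : MM k P R}
    (hz : Lat B P U z) : Lat B P V z := fun i => SU_mono h (hz i)

theorem Lat_zero (U : ℤ → ℤ → Prop) : Lat B P U (0 : MM k P R) := by
  intro i
  rw [co_zero]
  exact SU_zero U

theorem Lat_add {U : ℤ → ℤ → Prop} {z w : MM k P R} (hz : Lat B P U z) (hw : Lat B P U w) :
    Lat B P U (z + w) := by
  intro i
  rw [co_add]
  exact SU_add (hz i) (hw i)

theorem Lat_sub {U : ℤ → ℤ → Prop} {z w : MM k P R} (hz : Lat B P U z) (hw : Lat B P U w) :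
    Lat B P U (z - w) := by
  intro i
  rw [co_sub]
  exact SU_sub (hz i) (hw i)

end lat

end Pool.Agent.AB3
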