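import Pool.Agent.Lib.MP_5de024_nt.S.PatX.SerA

/-!
# Patching: polynomials over `k((β))` in `k[t, 1/t]((β))` (part PAT, file Emb)
-/

set_option autoImplicit false
set_option linter.unusedSectionVars false

namespace Pool.Agent.AB3


open Polynomial

variable {k : Type} [Field k]

theorem iA_X : iA k X = tz k 1 := by
  unfold iA
  exact Polynomial.eval₂_X _ _

theorem iA_C (a : LaurentSeries k) :
    iA k (Polynomial.C a) = hmap (LaurentPolynomial.C : k →+* LaurentPolynomial k) a := by
  unfold iA
  exact Polynomial.eval₂_C _ _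

private theorem Emb_C_coeff (c : k) (m : ℤ) :
    (LaurentPolynomial.C c : LaurentPolynomial k).coeff m = if m = 0 then c else 0 := by
  rw [LaurentPolynomial.C_apply]

private theorem Emb_mono (i : ℕ) (a : LaurentSeries k) (n m : ℤ) :
    cf (iA k (Polynomial.monomial i a)) n m = if m = i then a.coeff n else 0 := by
  have h1 : iA k (Polynomial.monomial i a)
      = tz k i * hmap (LaurentPolynomial.C : k →+* LaurentPolynomial k) a := by
    rw [← Polynomial.C_mul_X_pow_eq_monomial, map_mul, map_pow, iA_C, iA_X, tz_pow, mul_one,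
      mul_comm]
  rw [h1, cf_tz]
  unfold cf
  rw [hmap_coeff, Emb_C_coeff]
  by_cases h : m = i
  · rw [if_pos h, if_pos (by omega)]
  · rw [if_neg h, if_neg (by omega)]

/-- (`Polynomial.induction_on'`: the monomial `a X ^ i` goes to
`hmap C a * single 0 (T i)`, whose coefficient at `n` is `C (a.coeff n) * T i`.) -/
theorem cf_iA (f : (LaurentSeries k)[X]) (n m : ℤ) :
    cf (iA k f) n m = if 0 ≤ m then (f.coeff m.toNat).coeff n else 0 := by
  induction f using Polynomial.induction_on' with
  | add p q hp hq =>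
    rw [map_add, cf_add, hp, hq, Polynomial.coeff_add]
    by_cases h : 0 ≤ m
    · rw [if_pos h, if_pos h, if_pos h]
      rfl
    · rw [if_neg h, if_neg h, if_neg h, add_zero]
  | monomial i a =>
    rw [Emb_mono, Polynomial.coeff_monomial]
    by_cases h : 0 ≤ m
    · rw [if_pos h]
      by_cases h2 : m = i
      · rw [if_pos h2, if_pos (by omega)]
      · rw [if_neg h2, if_neg (by omega)]
        rfl
    · rw [if_neg h, if_neg (by omega)]

private theorem Emb_coeff (f : (LaurentSeries k)[X]) (i : ℕ) (n : ℤ) :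
    (f.coeff i).coeff n = cf (iA k f) n i := by
  rw [cf_iA, if_pos (Int.natCast_nonneg i), Int.toNat_natCast]

theorem iA_inj : Function.Injective (iA k) := by
  intro f g h
  ext i n
  rw [Emb_coeff, Emb_coeff, h]

theorem iA_SU (f : (LaurentSeries k)[X]) (J : ℤ) (hf : ∀ i j, j < J → (f.coeff i).coeff j = 0) :
    SU (fun n m => J ≤ n ∧ 0 ≤ m ∧ m ≤ f.natDegree) (iA k f) := by
  intro n m h
  rw [cf_iA]
  by_cases h0 : 0 ≤ m
  · rw [if_pos h0]
    by_cases h1 : m ≤ f.natDegree
    · refine hf _ _ ?_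
      by_contra h2
      exact h ⟨not_lt.1 h2, h0, h1⟩
    · rw [Polynomial.coeff_eq_zero_of_natDegree_lt (by omega)]
      rfl
  · rw [if_neg h0]

/-- every polynomial has coefficients of bounded order -/
theorem iA_SU_exists (f : (LaurentSeries k)[X]) :
    ∃ J : ℤ, SU (fun n m => J ≤ n ∧ 0 ≤ m ∧ m ≤ f.natDegree) (iA k f) := by
  obtain ⟨J, hJ⟩ := ((Finset.range (f.natDegree + 1)).image fun i => (f.coeff i).order).bddBelow
  refine ⟨J, iA_SU f J fun i j hj => ?_⟩
  by_cases hi : i ≤ f.natDegree
  · refine HahnSeries.coeff_eq_zero_of_lt_order (lt_of_lt_of_le hj ?_)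
    have hi' : i ∈ Finset.range (f.natDegree + 1) := Finset.mem_range.2 (by omega)
    exact hJ (Finset.mem_coe.2 (Finset.mem_image_of_mem (fun i => (f.coeff i).order) hi'))
  · have h0 : f.coeff i = 0 := Polynomial.coeff_eq_zero_of_natDegree_lt (not_le.1 hi)
    rw [h0]
    rfl

/-- (`f = ∑_{i ≤ b} C (∑_n cf z n i β ^ n) X ^ i`, coefficients by `HahnSeries.ofSuppBddBelow`.) -/
theorem iA_surj (J : ℤ) (b : ℕ) (z : BA k) (hz : SU (fun n m => J ≤ n ∧ 0 ≤ m ∧ m ≤ b) z) :
    ∃ f : (LaurentSeries k)[X], iA k f = z ∧ f.natDegree ≤ b ∧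
      ∀ i j, j < J → (f.coeff i).coeff j = 0 := by
  classical
  have hb : ∀ i : ℕ, BddBelow (Function.support fun n : ℤ => cf z n i) := by
    intro i
    refine ⟨J, fun n hn => ?_⟩
    by_contra h
    exact hn (hz n i fun h' => h h'.1)
  let a : ℕ → LaurentSeries k := fun i =>
    HahnSeries.ofSuppBddBelow (fun n : ℤ => cf z n i) (hb i)
  have ha : ∀ i n, (a i).coeff n = cf z n i := fun i n => rfl
  let f : (LaurentSeries k)[X] := ∑ i ∈ Finset.range (b + 1), Polynomial.monomial i (a i)
  have hf : ∀ i, f.coeff i = if i < b + 1 then a i else 0 := by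
    intro i
    show (∑ i ∈ Finset.range (b + 1), Polynomial.monomial i (a i)).coeff i = _
    rw [Polynomial.finsetSum_coeff]
    simp only [Polynomial.coeff_monomial]
    rw [Finset.sum_ite_eq' (Finset.range (b + 1)) i]
    simp only [Finset.mem_range]
  have hfc : ∀ i n, (f.coeff i).coeff n = cf z n i := by
    intro i n
    rw [hf]
    by_cases h : i < b + 1
    · rw [if_pos h, ha]
    · rw [if_neg h]
      exact (hz n i fun h' => h (by omega)).symm
  refine ⟨f, cf_ext fun n m => ?_, ?_, fun i j hj => ?_⟩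
  · rw [cf_iA]
    by_cases h : 0 ≤ m
    · rw [if_pos h, hfc, Int.toNat_of_nonneg h]
    · rw [if_neg h]
      exact (hz n m fun h' => h h'.2.1).symm
  · rw [Polynomial.natDegree_le_iff_coeff_eq_zero]
    intro i hi
    rw [hf, if_neg (by omega)]
  · rw [hfc]
    exact hz j i fun h' => absurd h'.1 (by omega)

end Pool.Agent.AB3
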