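import Pool.Agent.Lib.MP_5de024_nt.S.PatX.Emb

/-!
# Patching: the ring of the family inside the big ring (part PAT, file LatM)
-/

set_option autoImplicit false
set_option linter.unusedSectionVars false

namespace Pool.Agent.AB3

open Polynomial

variable {k R H : Type} [Field k] [CommRing R] [Algebra k[X] R] [Group H] [Finite H] {N : ℕ}
  (B : RBas k R N) (P : ℕ)

theorem iM_alg (f : (LaurentSeries k)[X]) :
    iM k P R (algebraMap (LaurentSeries k)[X] (OL k P R) f) =
      algebraMap (BA k) (MM k P R) (iA k f) :=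
  Bs.map_alg _ _ _ _ f

theorem iM_inR (r : R) : iM k P R (Bs.inR (evg k (LaurentSeries k)
    (gb (LaurentSeries k) P (bL k))) R r) = Bs.inR (phiPat k P) R r :=
  Bs.map_inR _ _ _ _ r

theorem iM_act (C : Cov k R H) (h : H) (z : OL k P R) :
    iM k P R (Bs.act (evg k (LaurentSeries k) (gb (LaurentSeries k) P (bL k))) C.act h z) =
      Bs.act (phiPat k P) C.act h (iM k P R z) :=
  bs_map_act C _ _ _ _ h z

theorem iM_inj (C : Cov k R H) : Function.Injective (iM k P R) :=
  bs_map_inj C _ _ _ _ iA_inj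

private theorem LatM_repr (z : OL k P R) (i : Fin N) :
    (Bs.basis (phiPat k P) B.e).repr (iM k P R z) i =
      iA k ((Bs.basis (evg k (LaurentSeries k) (gb (LaurentSeries k) P (bL k))) B.e).repr z i) :=
  bs_map_repr _ _ _ _ B.e z i

theorem co_iM (z : OL k P R) (i : Fin N) : co B P (iM k P R z) i =
    bz k (-(B.d i : ℤ)) * iA k ((Bs.basis (evg k (LaurentSeries k)
      (gb (LaurentSeries k) P (bL k))) B.e).repr z i) := by
  unfold co
  rw [LatM_repr]

/-- the image of `OL`: bounded exponents, `0 ≤ m` -/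
theorem iM_surj (J : ℤ) (b : ℕ) (w : MM k P R)
    (hw : Lat B P (fun n m => J ≤ n ∧ 0 ≤ m ∧ m ≤ b) w) : ∃ z : OL k P R, iM k P R z = w := by
  have h1 : ∀ i : Fin N, ∃ f : (LaurentSeries k)[X],
      iA k f = (Bs.basis (phiPat k P) B.e).repr w i := by
    intro i
    have h2 : SU (fun n m => J ≤ n ∧ 0 ≤ m ∧ m ≤ b) ((Bs.basis (phiPat k P) B.e).repr w i) := by
      intro n m hnm
      have h3 := hw i (n - B.d i) m (fun hU => hnm ⟨by have := hU.1; omega, hU.2.1, hU.2.2⟩)
      unfold co at h3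
      rw [cf_bz] at h3
      have h4 : n - (B.d i : ℤ) - -(B.d i : ℤ) = n := by ring
      rw [h4] at h3
      exact h3
    obtain ⟨f, hf, -, -⟩ := iA_surj J b _ h2
    exact ⟨f, hf⟩
  choose f hf using h1
  refine ⟨(Bs.basis (evg k (LaurentSeries k) (gb (LaurentSeries k) P (bL k))) B.e).repr.symm
    (Finsupp.equivFunOnFinite.symm f), ?_⟩
  apply (Bs.basis (phiPat k P) B.e).repr.injective
  ext1 i
  rw [LatM_repr, LinearEquiv.apply_symm_apply]
  exact hf i

theorem Lat_iM (z : OL k P R) :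
    ∃ (J : ℤ) (b : ℕ), Lat B P (fun n m => J ≤ n ∧ 0 ≤ m ∧ m ≤ b) (iM k P R z) := by
  set c : Fin N → (LaurentSeries k)[X] := fun i =>
    (Bs.basis (evg k (LaurentSeries k) (gb (LaurentSeries k) P (bL k))) B.e).repr z i with hc
  have h1 : ∀ i : Fin N, ∃ J : ℤ, SU (fun n m => J ≤ n ∧ 0 ≤ m ∧ m ≤ (c i).natDegree)
      (iA k (c i)) := fun i => iA_SU_exists (c i)
  choose J hJ using h1
  refine ⟨-∑ i, (|J i| + B.d i), ∑ i, (c i).natDegree, ?_⟩
  intro i
  rw [co_iM]
  intro n m hnm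
  rw [cf_bz]
  apply hJ i
  rintro ⟨h2, h3, h4⟩
  apply hnm
  have h5 : |J i| + (B.d i : ℤ) ≤ ∑ i, (|J i| + (B.d i : ℤ)) :=
    Finset.single_le_sum (f := fun i => |J i| + (B.d i : ℤ)) (fun _ _ => by positivity)
      (Finset.mem_univ i)
  have h6 : (c i).natDegree ≤ ∑ i, (c i).natDegree :=
    Finset.single_le_sum (f := fun i => (c i).natDegree) (fun _ _ => Nat.zero_le _)
      (Finset.mem_univ i)
  have h7 : -|J i| ≤ J i := neg_abs_le _
  refine ⟨by omega, h3, ?_⟩
  exact h4.trans (by exact_mod_cast h6)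

end Pool.Agent.AB3
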