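import Pool.Agent.Lib.MP_5de024_nt.S.PatX.Defs

/-!
# Patching: leading coefficients of Laurent series (part PAT, file Ld)
-/

set_option autoImplicit false
set_option linter.unusedSectionVars false

namespace Pool.Agent.AB3

variable {S : Type} [CommRing S]

/-- the order is at least `J` -/
def LO (J : ℤ) (f : LaurentSeries S) : Prop := ∀ j : ℤ, j < J → f.coeff j = 0

/-- the order is at least `J` and the coefficient at `J` is `c` -/
def LD (J : ℤ) (c : S) (f : LaurentSeries S) : Prop := LO J f ∧ f.coeff J = c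

theorem LO_mono {J J' : ℤ} (h : J' ≤ J) {f : LaurentSeries S} (hf : LO J f) : LO J' f :=
  fun j hj => hf j (lt_of_lt_of_le hj h)

theorem LO_add {J : ℤ} {f g : LaurentSeries S} (hf : LO J f) (hg : LO J g) :
    LO J (f + g) := by
  intro j hj
  rw [HahnSeries.coeff_add, hf j hj, hg j hj, add_zero]

theorem LO_sum {ι : Type} (s : Finset ι) {J : ℤ} (f : ι → LaurentSeries S)
    (hf : ∀ i ∈ s, LO J (f i)) : LO J (∑ i ∈ s, f i) := by
  classical
  induction s using Finset.induction_on with
  | empty =>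
    intro j _
    rw [Finset.sum_empty]
    rfl
  | insert a s ha ih =>
    rw [Finset.sum_insert ha]
    exact LO_add (hf a (Finset.mem_insert_self a s))
      (ih fun i hi => hf i (Finset.mem_insert_of_mem hi))

theorem LO_mul {J J' : ℤ} {f g : LaurentSeries S} (hf : LO J f) (hg : LO J' g) :
    LO (J + J') (f * g) := by
  intro j hj
  rw [HahnSeries.coeff_mul]
  refine Finset.sum_eq_zero fun p hp => ?_
  have hp' := (Finset.mem_addAntidiagonal.1 hp).2.2
  rcases lt_or_ge p.1 J with h | h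
  · rw [hf _ h, zero_mul]
  · rw [hg p.2 (by linarith), mul_zero]

theorem LO_pow {J : ℤ} {f : LaurentSeries S} (hf : LO J f) (i : ℕ) : LO (i * J) (f ^ i) := by
  induction i with
  | zero =>
    intro j hj
    rw [pow_zero, HahnSeries.coeff_one, if_neg]
    rintro rfl
    simp at hj
  | succ i ih =>
    rw [pow_succ]
    have h := LO_mul ih hf
    have e : ((i + 1 : ℕ) : ℤ) * J = i * J + J := by push_cast; ring
    rw [e]
    exact h

theorem LD_add {J : ℤ} {c : S} {f g : LaurentSeries S} (hf : LD J c f) (hg : LO (J + 1) g) :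
    LD J c (f + g) := by
  refine ⟨LO_add hf.1 (LO_mono (by linarith) hg), ?_⟩
  rw [HahnSeries.coeff_add, hf.2, hg J (by linarith), add_zero]

theorem LD_mul {J J' : ℤ} {c c' : S} {f g : LaurentSeries S} (hf : LD J c f)
    (hg : LD J' c' g) : LD (J + J') (c * c') (f * g) := by
  refine ⟨LO_mul hf.1 hg.1, ?_⟩
  rw [HahnSeries.coeff_mul, Finset.sum_eq_single (J, J')]
  · rw [hf.2, hg.2]
  · rintro ⟨a, b⟩ hp hne
    have hp' : a + b = J + J' := (Finset.mem_addAntidiagonal.1 hp).2.2
    rcases lt_trichotomy a J with h | h | h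
    · rw [hf.1 a h, zero_mul]
    · exact absurd (Prod.ext h (by simp only; linarith)) hne
    · rw [hg.1 b (by linarith), mul_zero]
  · intro hp
    rw [Finset.mem_addAntidiagonal] at hp
    by_cases h1 : f.coeff J = 0
    · rw [h1, zero_mul]
    · by_cases h2 : g.coeff J' = 0
      · rw [h2, mul_zero]
      · exact absurd ⟨h1, h2, rfl⟩ hp

theorem LD_one : LD 0 1 (1 : LaurentSeries S) := by
  refine ⟨fun j hj => ?_, ?_⟩
  · rw [HahnSeries.coeff_one, if_neg hj.ne]
  · rw [HahnSeries.coeff_one, if_pos rfl]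

theorem LD_pow {J : ℤ} {c : S} {f : LaurentSeries S} (hf : LD J c f) (i : ℕ) :
    LD (i * J) (c ^ i) (f ^ i) := by
  induction i with
  | zero =>
    simp only [pow_zero, Nat.cast_zero, zero_mul]
    exact LD_one
  | succ i ih =>
    rw [pow_succ, pow_succ]
    have h := LD_mul ih hf
    have e : ((i + 1 : ℕ) : ℤ) * J = i * J + J := by push_cast; ring
    rw [e]
    exact h

theorem LD_prod {ι : Type} (s : Finset ι) (J : ι → ℤ) (c : ι → S) (f : ι → LaurentSeries S)
    (hf : ∀ i ∈ s, LD (J i) (c i) (f i)) :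
    LD (∑ i ∈ s, J i) (∏ i ∈ s, c i) (∏ i ∈ s, f i) := by
  classical
  induction s using Finset.induction_on with
  | empty =>
    simp only [Finset.sum_empty, Finset.prod_empty]
    exact LD_one
  | insert a s ha ih =>
    rw [Finset.sum_insert ha, Finset.prod_insert ha, Finset.prod_insert ha]
    exact LD_mul (hf a (Finset.mem_insert_self a s))
      (ih fun i hi => hf i (Finset.mem_insert_of_mem hi))

theorem LD_exists {f : LaurentSeries S} (hf : f ≠ 0) : ∃ (J : ℤ) (c : S), c ≠ 0 ∧ LD J c f := by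
  refine ⟨f.order, f.coeff f.order, mt HahnSeries.coeff_order_eq_zero.1 hf, fun j hj => ?_, rfl⟩
  exact HahnSeries.coeff_eq_zero_of_lt_order hj

theorem LD_uniq {J J' : ℤ} {c c' : S} {f : LaurentSeries S} (hf : LD J c f) (hf' : LD J' c' f)
    (hc : c ≠ 0) (hc' : c' ≠ 0) : J = J' ∧ c = c' := by
  have h : J = J' := by
    rcases lt_trichotomy J J' with h | h | h
    · exact absurd (hf.2.symm.trans (hf'.1 J h)) hc
    · exact h
    · exact absurd (hf'.2.symm.trans (hf.1 J' h)) hc'
  subst h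
  exact ⟨rfl, hf.2.symm.trans hf'.2⟩

theorem LD_ne {J : ℤ} {c : S} {f : LaurentSeries S} (hf : LD J c f) (hc : c ≠ 0) : f ≠ 0 := by
  rintro rfl
  exact hc (hf.2.symm.trans HahnSeries.coeff_zero)

/-- division in a domain -/
theorem LD_div [IsDomain S] {J J' : ℤ} {c c' : S} {f g : LaurentSeries S} (hg : LD J c g)
    (hfg : LD J' (c' * c) (g * f)) (hc : c ≠ 0) (hc' : c' ≠ 0) : LD (J' - J) c' f := by
  have h0 : g * f ≠ 0 := LD_ne hfg (mul_ne_zero hc' hc)
  obtain ⟨J'', c'', hc'', hf⟩ := LD_exists (right_ne_zero_of_mul h0)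
  obtain ⟨h1, h2⟩ := LD_uniq (LD_mul hg hf) hfg (mul_ne_zero hc hc'') (mul_ne_zero hc' hc)
  have h3 : c'' = c' := by
    rw [mul_comm c c''] at h2
    exact mul_right_cancel₀ hc h2
  have h4 : J' - J = J'' := by linarith
  rw [h4, ← h3]
  exact hf

theorem LD_hmap {S' : Type} [CommRing S'] (σ : S →+* S') {J : ℤ} {c : S}
    {f : LaurentSeries S} (hf : LD J c f) : LD J (σ c) (hmap σ f) := by
  refine ⟨fun j hj => ?_, ?_⟩
  · rw [hmap_coeff, hf.1 j hj, map_zero]
  · rw [hmap_coeff, hf.2]

theorem LO_C (c : S) : LO 0 (HahnSeries.C c : LaurentSeries S) := by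
  intro j hj
  rw [HahnSeries.C_apply, HahnSeries.coeff_single_of_ne hj.ne]

theorem LD_C (c : S) : LD 0 c (HahnSeries.C c : LaurentSeries S) := by
  refine ⟨LO_C c, ?_⟩
  rw [HahnSeries.C_apply, HahnSeries.coeff_single_same]

theorem LO_single (J : ℤ) (c : S) : LO J (HahnSeries.single J c : LaurentSeries S) := by
  intro j hj
  rw [HahnSeries.coeff_single_of_ne hj.ne]

theorem LO_ofPowerSeries (T : PowerSeries S) :
    LO 0 (HahnSeries.ofPowerSeries ℤ S T) := by
  intro j hj
  rw [HahnSeries.ofPowerSeries_apply]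
  refine HahnSeries.embDomain_notin_range ?_
  rintro ⟨n, hn⟩
  have h : ((n : ℕ) : ℤ) = j := hn
  omega

end Pool.Agent.AB3
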