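import Pool.Agent.Lib.MP_5de024_nt.S.GeoM

/-!
# Patching: degrees (part PAT, file NrmA)
-/

set_option autoImplicit false
set_option linter.unusedSectionVars false

namespace Pool.Agent.AB3


open Polynomial

variable {k R H : Type} [Field k] [CommRing R] [Algebra k[X] R] [Group H] [Finite H] {N : ℕ}
  (B : RBas k R N)

/-- the element `x` of `R` has degree at most `m` -/
def RBas.Le (x : R) (m : ℕ) : Prop :=
  ∀ l, B.e.repr x l = 0 ∨ (B.e.repr x l).natDegree + B.d l ≤ m

/-- the polynomials `f` with `deg f + c ≤ m` are closed under addition -/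
theorem NrmA_add {f g : k[X]} {c m : ℕ} (hf : f = 0 ∨ f.natDegree + c ≤ m)
    (hg : g = 0 ∨ g.natDegree + c ≤ m) : f + g = 0 ∨ (f + g).natDegree + c ≤ m := by
  rcases hf with rfl | hf
  · rwa [zero_add]
  rcases hg with rfl | hg
  · right
    rwa [add_zero]
  right
  have h1 := Polynomial.natDegree_add_le f g
  omega

/-- finite sums -/
theorem NrmA_sum {ι : Type} (s : Finset ι) (F : ι → k[X]) {c m : ℕ}
    (h : ∀ i ∈ s, F i = 0 ∨ (F i).natDegree + c ≤ m) :
    (∑ i ∈ s, F i) = 0 ∨ (∑ i ∈ s, F i).natDegree + c ≤ m := by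
  classical
  induction s using Finset.induction_on with
  | empty => left; rw [Finset.sum_empty]
  | insert a s ha ih =>
    rw [Finset.sum_insert ha]
    exact NrmA_add (h a (Finset.mem_insert_self _ _))
      (ih fun i hi => h i (Finset.mem_insert_of_mem hi))

/-- products -/
theorem NrmA_mul {f g : k[X]} {c a m : ℕ} (hf : f = 0 ∨ f.natDegree + a ≤ m)
    {b : ℕ} (hg : g = 0 ∨ g.natDegree + c ≤ a + b) :
    f * g = 0 ∨ (f * g).natDegree + c ≤ m + b := by
  rcases hf with rfl | hf
  · left
    rw [zero_mul]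
  rcases hg with rfl | hg
  · left
    rw [mul_zero]
  right
  have h1 := Polynomial.natDegree_mul_le (p := f) (q := g)
  omega

theorem Le_one : B.Le 1 0 := B.one

theorem NrmA_Le_add {x y : R} {m : ℕ} (hx : B.Le x m) (hy : B.Le y m) : B.Le (x + y) m := by
  intro l
  rw [map_add, Finsupp.add_apply]
  exact NrmA_add (hx l) (hy l)

theorem NrmA_Le_sum {ι : Type} (s : Finset ι) (F : ι → R) {m : ℕ}
    (h : ∀ i ∈ s, B.Le (F i) m) : B.Le (∑ i ∈ s, F i) m := by
  intro l
  rw [map_sum, Finsupp.finsetSum_apply]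
  exact NrmA_sum s _ fun i hi => h i hi l

/-- a multiple of an element -/
theorem NrmA_Le_smul {f : k[X]} {x : R} {a b m : ℕ} (hf : f = 0 ∨ f.natDegree + a ≤ m)
    (hx : B.Le x (a + b)) : B.Le (f • x) (m + b) := by
  intro l
  rw [map_smul, Finsupp.smul_apply, smul_eq_mul]
  exact NrmA_mul hf (hx l)

/-- an element is the sum of its coordinates times the basis -/
theorem NrmA_repr (x : R) : x = ∑ i, B.e.repr x i • B.e i := (B.e.sum_repr x).symm

theorem Le_mul {x y : R} {m m' : ℕ} (hx : B.Le x m) (hy : B.Le y m') :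
    B.Le (x * y) (m + m') := by
  rw [NrmA_repr B x, NrmA_repr B y, Finset.sum_mul_sum]
  refine NrmA_Le_sum B _ _ fun i _ => NrmA_Le_sum B _ _ fun j _ => ?_
  rw [smul_mul_smul_comm, ← smul_smul]
  refine NrmA_Le_smul B (a := B.d i) (hx i) ?_
  rw [add_comm (B.d i)]
  refine NrmA_Le_smul B (a := B.d j) (hy j) ?_
  rw [add_comm (B.d j)]
  exact B.mul i j

theorem Le_act (C : Cov k R H) (hS : B.Stab C) {x : R} {m : ℕ} (hx : B.Le x m) (σ : H) :
    B.Le (C.act σ x) m := by
  rw [NrmA_repr B x, map_sum]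
  refine NrmA_Le_sum B _ _ fun i _ => ?_
  rw [map_smul]
  exact NrmA_Le_smul B (a := B.d i) (b := 0) (hx i) (hS σ i)

/-- some coordinate of `1` is a nonzero constant and the degree `d` at this place is zero -/
theorem Le_alg [Nontrivial R] (f : k[X]) (m : ℕ) (h : B.Le (algebraMap k[X] R f) m) :
    f.natDegree ≤ m := by
  by_cases hf : f = 0
  · rw [hf, natDegree_zero]
    exact Nat.zero_le _
  obtain ⟨l, hl⟩ : ∃ l, B.e.repr (1 : R) l ≠ 0 := by
    by_contra hcon
    push Not at hcon
    apply one_ne_zero (α := R)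
    rw [NrmA_repr B (1 : R)]
    refine Finset.sum_eq_zero fun i _ => ?_
    rw [hcon i, zero_smul]
  have h1 := h l
  rw [Algebra.algebraMap_eq_smul_one, map_smul, Finsupp.smul_apply, smul_eq_mul] at h1
  rcases h1 with h1 | h1
  · exact absurd h1 (mul_ne_zero hf hl)
  · rw [natDegree_mul hf hl] at h1
    omega

theorem Le_eta (n D : ℕ) (η : R)
    (hη : B.Lt (η - algebraMap k[X] R (X ^ (n * D))) (n * D)) : B.Le η (n * D) := by
  rw [← sub_add_cancel η (algebraMap k[X] R (X ^ (n * D)))]
  refine NrmA_Le_add B (fun l => ?_) ?_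
  · exact (hη l).imp_right le_of_lt
  · rw [Algebra.algebraMap_eq_smul_one]
    refine NrmA_Le_smul B (a := 0) (b := 0) (Or.inr ?_) B.one
    rw [natDegree_X_pow]
    exact le_rfl

/-- the norm of `η` has degree at most `n D |H|`, so `deg y ≤ D |H|` -/
theorem deg_y [Nontrivial R] (C : Cov k R H) (hS : B.Stab C) (n D : ℕ) (hn : 0 < n) (η : R)
    (hη : B.Lt (η - algebraMap k[X] R (X ^ (n * D))) (n * D)) (y : k[X])
    (hy : (∏ᶠ h : H, C.act h η) = algebraMap k[X] R y ^ n) :
    y.natDegree ≤ D * Nat.card H := by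
  classical
  have := Fintype.ofFinite H
  have h1 : ∀ s : Finset H, B.Le (∏ h ∈ s, C.act h η) (s.card * (n * D)) := by
    intro s
    induction s using Finset.induction_on with
    | empty =>
      rw [Finset.prod_empty, Finset.card_empty, zero_mul]
      exact Le_one B
    | insert a s ha ih =>
      rw [Finset.prod_insert ha, Finset.card_insert_of_notMem ha, add_mul, one_mul, add_comm]
      exact Le_mul B (Le_act B C hS (Le_eta B n D η hη) a) ih
  have h2 := h1 Finset.univ
  rw [finprod_eq_prod_of_fintype] at hy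
  rw [hy, ← map_pow] at h2
  have h3 := Le_alg B _ _ h2
  rw [natDegree_pow, Finset.card_univ, ← Nat.card_eq_fintype_card] at h3
  have h4 : n * y.natDegree ≤ n * (D * Nat.card H) := by
    calc n * y.natDegree ≤ Nat.card H * (n * D) := h3
      _ = n * (D * Nat.card H) := by ring
  exact Nat.le_of_mul_le_mul_left h4 hn

end Pool.Agent.AB3
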