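import Pool.Agent.Lib.MP_5de024_nt.S.PatX.Emb

/-!
# Patching: the substitution (part PAT, file Phi)
-/

set_option autoImplicit false
set_option linter.unusedSectionVars false

namespace Pool.Agent.AB3


open Polynomial

variable {k : Type} [Field k]

private theorem Phi_iA_X : iA k X = tz k 1 := Polynomial.eval₂_X _ _

private theorem Phi_iA_C (a : LaurentSeries k) :
    iA k (Polynomial.C a) = hmap (LaurentPolynomial.C : k →+* LaurentPolynomial k) a :=
  Polynomial.eval₂_C _ _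

private theorem Phi_hmap_single (n : ℤ) (a : k) :
    hmap (LaurentPolynomial.C : k →+* LaurentPolynomial k) (HahnSeries.single n a) =
      HahnSeries.single n (LaurentPolynomial.C a) := by
  ext m
  rw [hmap_coeff]
  by_cases h : m = n
  · subst h
    rw [HahnSeries.coeff_single_same, HahnSeries.coeff_single_same]
  · rw [HahnSeries.coeff_single_of_ne h, HahnSeries.coeff_single_of_ne h, map_zero]

private theorem Phi_eval (P : ℕ) (f : k[X]) : phiPat k P f =
    iA k (Polynomial.eval₂ (Polynomial.C.comp (algebraMap k (LaurentSeries k)))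
      (gb (LaurentSeries k) P (bL k)) f) := rfl

private theorem Phi_bL_inv : (bL k)⁻¹ = (HahnSeries.single (-1 : ℤ) (1 : k) : LaurentSeries k) := by
  refine inv_eq_of_mul_eq_one_right ?_
  rw [HahnSeries.single_mul_single, mul_one]
  rfl

theorem phi_C (P : ℕ) (a : k) : phiPat k P (Polynomial.C a) = kc k a := by
  rw [Phi_eval, Polynomial.eval₂_C, RingHom.comp_apply, Phi_iA_C]
  have h : algebraMap k (LaurentSeries k) a = HahnSeries.single (0 : ℤ) a := by
    rw [HahnSeries.algebraMap_apply']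
    have h3 : algebraMap k (PowerSeries k) a = PowerSeries.C a := rfl
    rw [h3, HahnSeries.ofPowerSeries_C]
    rfl
  rw [h, Phi_hmap_single]
  rfl

theorem phi_X (P : ℕ) (hP : 1 ≤ P) :
    phiPat k P X = bz k (-1) * (tz k 1 - bz k ((P : ℤ) - 1) * tz k P) := by
  rw [Phi_eval, Polynomial.eval₂_X]
  unfold gb
  rw [map_mul, map_sub, map_mul, map_pow (iA k) X P, Phi_iA_X, Phi_iA_C, Phi_iA_C, Phi_bL_inv,
    Phi_hmap_single, map_pow, Phi_hmap_single, map_one]
  have h1 : (HahnSeries.single (1 : ℤ) (1 : LaurentPolynomial k) : BA k) = bz k 1 := rfl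
  have h2 : (HahnSeries.single (-1 : ℤ) (1 : LaurentPolynomial k) : BA k) = bz k (-1) := rfl
  rw [h1, h2, bz_pow, tz_pow, mul_one, mul_one]
  congr 4
  omega

private theorem Phi_exp (c : k[X]) (M : ℕ) (hc : c.natDegree ≤ M) :
    c = ∑ j ∈ Finset.range (M + 1), Polynomial.C (c.coeff j) * X ^ j :=
  Polynomial.as_sum_range_C_mul_X_pow' c (Nat.lt_succ_of_le hc)

/-- `β ^ M c(s)` is in `k[β, t]` if `deg c ≤ M`: it is `∑_j c_j β ^ (M - j) (β s) ^ j` and
`β s = t - β ^ (P - 1) t ^ P`. -/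
theorem phi_SU (P : ℕ) (hP : 1 ≤ P) (c : k[X]) (M : ℕ) (hc : c.natDegree ≤ M) :
    SU (fun n m => 0 ≤ n ∧ 0 ≤ m ∧ m ≤ (P * M : ℕ)) (bz k M * phiPat k P c) := by
  have hw : SU (fun n m => 0 ≤ n ∧ 0 ≤ m ∧ m ≤ (P : ℕ))
      (tz k 1 - bz k ((P : ℤ) - 1) * tz k P) := by
    refine SU_sub ?_ ?_
    · refine SU_mono (fun n m h => ?_) (SU_tz 1)
      obtain ⟨h1, h2⟩ := h
      refine ⟨by omega, by omega, by omega⟩
    · refine SU_mul (SU_bz _) (SU_tz _) fun n m n' m' h h' => ?_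
      obtain ⟨h1, h2⟩ := h
      obtain ⟨h3, h4⟩ := h'
      refine ⟨by omega, by omega, by omega⟩
  rw [Phi_exp c M hc, map_sum, Finset.mul_sum]
  refine SU_sum _ _ fun j hj => ?_
  rw [Finset.mem_range] at hj
  rw [map_mul, map_pow, phi_C, phi_X P hP]
  set w : BA k := tz k 1 - bz k ((P : ℤ) - 1) * tz k P with hwdef
  have h1 : bz k (M : ℤ) * (kc k (c.coeff j) * (bz k (-1) * w) ^ j) =
      kc k (c.coeff j) * (bz k ((M : ℤ) - j) * w ^ j) := by
    have h2 : bz k ((M : ℤ) - j) = bz k (M : ℤ) * bz k (-1) ^ j := by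
      rw [bz_pow, ← bz_add]
      congr 1
      ring
    rw [h2, mul_pow]
    ring
  rw [h1]
  refine SU_mul (SU_kc _) (SU_mul (W := fun n m => 0 ≤ n ∧ 0 ≤ m ∧ m ≤ (P * M : ℕ))
    (SU_bz _) (SU_pow_bdd hw j) fun n m n' m' h h' => ?_) fun n m n' m' h h' => ?_
  · obtain ⟨h3, h4⟩ := h
    obtain ⟨h5, h6, h7⟩ := h'
    have h8 : ((P * j : ℕ) : ℤ) ≤ ((P * M : ℕ) : ℤ) := by
      exact_mod_cast Nat.mul_le_mul_left P (by omega : j ≤ M)
    exact ⟨by omega, by omega, by rw [h4, zero_add]; exact h7.trans h8⟩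
  · obtain ⟨h3, h4⟩ := h
    rw [h3, h4, zero_add, zero_add]
    exact h'

end Pool.Agent.AB3
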