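import Mathlib

/-!
# Patching: the series `T` (part PAT, file Tser)
-/

set_option autoImplicit false
set_option linter.unusedSectionVars false

namespace Pool.Agent.AB3

/-- The map `T ↦ β s + β ^ (P - 1) T ^ P` is a contraction for the `β`-adic metric. -/
private theorem Tser_contr {S : Type} [CommRing S] {P : ℕ} (hP : 2 ≤ P) (s : S) (k : ℕ)
    (A B : PowerSeries S) (h : PowerSeries.X ^ k ∣ A - B) :
    PowerSeries.X ^ (k + 1) ∣
      (PowerSeries.X * PowerSeries.C s + PowerSeries.X ^ (P - 1) * A ^ P) -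
        (PowerSeries.X * PowerSeries.C s + PowerSeries.X ^ (P - 1) * B ^ P) := by
  have h1 : (PowerSeries.X * PowerSeries.C s + PowerSeries.X ^ (P - 1) * A ^ P) -
      (PowerSeries.X * PowerSeries.C s + PowerSeries.X ^ (P - 1) * B ^ P) =
      PowerSeries.X ^ (P - 1) * (A ^ P - B ^ P) := by ring
  have h2 : (PowerSeries.X : PowerSeries S) ^ k ∣ A ^ P - B ^ P :=
    h.trans (sub_dvd_pow_sub_pow A B P)
  have h3 : (PowerSeries.X : PowerSeries S) ^ 1 ∣ PowerSeries.X ^ (P - 1) :=
    pow_dvd_pow _ (by omega)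
  rw [h1, Nat.add_comm k 1, pow_add]
  exact mul_dvd_mul h3 h2

/-- The series `T = ∑_i s ^ (P ^ i) β ^ (2 P ^ i - 1)` solves `T = β s + β ^ (P - 1) T ^ P`, `P` a
power of `p` and `p = 0` in `S` (`T ^ p = ∑ a_j ^ p β ^ (p j)` for `T = ∑ a_j β ^ j`; for this
compare with the truncations of `T`, `add_pow_char` and `Polynomial.expand_char`).
(Another way, for every `P ≥ 2` and every commutative ring: recursion for the coefficients.) -/
theorem tser_exists (p : ℕ) [Fact p.Prime] (S : Type) [CommRing S] [CharP S p] (r : ℕ)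
    (s : S) : ∃ T : PowerSeries S, T = PowerSeries.X * PowerSeries.C s +
      PowerSeries.X ^ (p ^ (r + 1) - 1) * T ^ p ^ (r + 1) := by
  obtain ⟨P, hP⟩ : ∃ P : ℕ, P = p ^ (r + 1) := ⟨_, rfl⟩
  have hP2 : 2 ≤ P := by
    have hp : 2 ≤ p := (Fact.out : p.Prime).two_le
    rw [hP]
    calc 2 ≤ p := hp
      _ = p ^ 1 := (pow_one p).symm
      _ ≤ p ^ (r + 1) := Nat.pow_le_pow_right (by omega) (by omega)
  rw [← hP]
  let Φ : PowerSeries S → PowerSeries S := fun T =>
    PowerSeries.X * PowerSeries.C s + PowerSeries.X ^ (P - 1) * T ^ P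
  have hΦ : ∀ (k : ℕ) (A B : PowerSeries S), PowerSeries.X ^ k ∣ A - B →
      PowerSeries.X ^ (k + 1) ∣ Φ A - Φ B := fun k A B h => Tser_contr hP2 s k A B h
  let F : ℕ → PowerSeries S := fun k => Φ^[k] 0
  have hFs : ∀ k, F (k + 1) = Φ (F k) := fun k => Function.iterate_succ_apply' Φ k 0
  have hF : ∀ k, PowerSeries.X ^ k ∣ F (k + 1) - F k := by
    intro k
    induction k with
    | zero => rw [pow_zero]; exact one_dvd _
    | succ k ih =>
      rw [hFs (k + 1)]
      have h1 := hΦ k _ _ ih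
      rw [← hFs k] at h1
      exact h1
  have hF2 : ∀ k m, PowerSeries.X ^ k ∣ F (k + m) - F k := by
    intro k m
    induction m with
    | zero =>
      rw [Nat.add_zero, sub_self]
      exact dvd_zero _
    | succ m ih =>
      have h1 : (PowerSeries.X : PowerSeries S) ^ k ∣ F (k + m + 1) - F (k + m) :=
        (pow_dvd_pow _ (by omega)).trans (hF (k + m))
      have h2 := dvd_add h1 ih
      rw [sub_add_sub_cancel] at h2
      exact h2
  let T : PowerSeries S := PowerSeries.mk fun n => PowerSeries.coeff n (F (n + 1))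
  have hT : ∀ k, PowerSeries.X ^ k ∣ T - F k := by
    intro k
    rw [PowerSeries.X_pow_dvd_iff]
    intro m hm
    obtain ⟨j, rfl⟩ : ∃ j, k = m + 1 + j := ⟨k - (m + 1), by omega⟩
    have h1 := (PowerSeries.X_pow_dvd_iff.1 (hF2 (m + 1) j)) m (by omega)
    rw [map_sub, sub_eq_zero] at h1
    rw [map_sub, PowerSeries.coeff_mk, h1, sub_self]
  refine ⟨T, ?_⟩
  have key : ∀ n, PowerSeries.coeff n T = PowerSeries.coeff n (Φ T) := by
    intro n
    have h1 := hΦ n _ _ (hT n)
    rw [← hFs n] at h1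
    have h2 := hT (n + 1)
    have h3 := dvd_sub h2 h1
    rw [sub_sub_sub_cancel_right] at h3
    have h4 := (PowerSeries.X_pow_dvd_iff.1 h3) n (by omega)
    rw [map_sub, sub_eq_zero] at h4
    exact h4
  exact PowerSeries.ext key

end Pool.Agent.AB3
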