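import Pool.Agent.Lib.MP_5de024_nt.S.PatX.LatM
import Pool.Agent.Lib.MP_5de024_nt.S.PatX.Tser
import Pool.Agent.Lib.MP_5de024_nt.S.PatX.Ld

/-!
# Patching: the maps `t ↦ T + a / β` to `R((β))` (part PAT, file RhoA)
-/

set_option autoImplicit false
set_option linter.unusedSectionVars false

namespace Pool.Agent.AB3


open Polynomial

variable {k R H : Type} [Field k] [CommRing R] [Algebra k[X] R] [Group H] [Finite H] {N : ℕ}
  (B : RBas k R N) (P : ℕ)

/-- constants in `R` -/
noncomputable def kR (k R : Type) [Field k] [CommRing R] [Algebra k[X] R] : k →+* R :=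
  (algebraMap k[X] R).comp Polynomial.C

/-- the solution of `T = β s + β ^ (P - 1) T ^ P` -/
def IsT (P : ℕ) (T : PowerSeries R) : Prop :=
  T = PowerSeries.X * PowerSeries.C (algebraMap k[X] R X) + PowerSeries.X ^ (P - 1) * T ^ P

/-- `ρ` is the identity on `R` and maps `t` to `T + a / β` -/
def IsRho (T : PowerSeries R) (a : k) (ρ : OL k P R →+* LaurentSeries R) : Prop :=
  (∀ r : R, ρ (Bs.inR (evg k (LaurentSeries k) (gb (LaurentSeries k) P (bL k))) R r) =
    HahnSeries.C r) ∧
  ∀ f : (LaurentSeries k)[X], ρ (algebraMap (LaurentSeries k)[X] (OL k P R) f) =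
    Polynomial.eval₂ (hmap (kR k R))
      (HahnSeries.ofPowerSeries ℤ R T + HahnSeries.single (-1) (kR k R a)) f

theorem RhoA_hmap_single {A A' : Type} [CommRing A] [CommRing A'] (f : A →+* A') (n : ℤ)
    (a : A) : hmap f (HahnSeries.single n a) = HahnSeries.single n (f a) := by
  ext m
  rw [hmap_coeff, HahnSeries.coeff_single, HahnSeries.coeff_single]
  split_ifs
  · rfl
  · exact map_zero f

theorem RhoA_algebraMap (a : k) : algebraMap k (LaurentSeries k) a =
    (HahnSeries.single 0 a : LaurentSeries k) := by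
  simp [LaurentSeries.algebraMap_apply]

theorem RhoA_inv : (bL k)⁻¹ = (HahnSeries.single (-1) 1 : LaurentSeries k) := by
  symm
  apply eq_inv_of_mul_eq_one_left
  rw [HahnSeries.single_mul_single, neg_add_cancel, mul_one]
  rfl

theorem RhoA_single_pow {A : Type} [CommRing A] (n : ℤ) (a : A) (m : ℕ) :
    (HahnSeries.single n a : HahnSeries ℤ A) ^ m = HahnSeries.single (m * n) (a ^ m) := by
  rw [HahnSeries.single_pow, nsmul_eq_mul]

/-- the equation of the image of `t` -/
theorem RhoA_eq (p : ℕ) [Fact p.Prime] [CharP k p] (r : ℕ) (T : PowerSeries R)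
    (hT : IsT (k := k) (p ^ (r + 1)) T) (a : k) (ha : a ^ p ^ (r + 1) = a) :
    (HahnSeries.ofPowerSeries ℤ R T + HahnSeries.single (-1) (kR k R a)) -
      (HahnSeries.single 1 1 : LaurentSeries R) ^ (p ^ (r + 1) - 1) *
      (HahnSeries.ofPowerSeries ℤ R T + HahnSeries.single (-1) (kR k R a)) ^ p ^ (r + 1) =
    HahnSeries.single 1 1 * HahnSeries.C (algebraMap k[X] R X) := by
  rcases subsingleton_or_nontrivial R with hR | hR
  · have : Subsingleton (LaurentSeries R) := ⟨fun x y => by
      ext n
      exact Subsingleton.elim _ _⟩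
    exact Subsingleton.elim _ _
  have hinj : Function.Injective ((HahnSeries.C : R →+* LaurentSeries R).comp (kR k R)) :=
    ((HahnSeries.C : R →+* LaurentSeries R).comp (kR k R)).injective
  have hch : CharP (LaurentSeries R) p := charP_of_injective_ringHom hinj p
  have hpos : 0 < p ^ (r + 1) := pow_pos (Fact.out : p.Prime).pos _
  rw [add_pow_char_pow]
  have h1 : (HahnSeries.single 1 1 : LaurentSeries R) ^ (p ^ (r + 1) - 1) *
      (HahnSeries.single (-1) (kR k R a) : LaurentSeries R) ^ p ^ (r + 1) =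
      HahnSeries.single (-1) (kR k R a) := by
    rw [RhoA_single_pow, RhoA_single_pow, HahnSeries.single_mul_single, one_pow, one_mul,
      ← map_pow, ha]
    have h4 : ((p ^ (r + 1) - 1 : ℕ) : ℤ) = ((p ^ (r + 1) : ℕ) : ℤ) - 1 := by
      rw [Nat.cast_sub hpos, Nat.cast_one]
    have h5 : ((p ^ (r + 1) - 1 : ℕ) : ℤ) * 1 + ((p ^ (r + 1) : ℕ) : ℤ) * -1 = -1 := by
      rw [h4]
      ring
    rw [h5]
  have h2 : HahnSeries.ofPowerSeries ℤ R T = HahnSeries.single 1 1 *
      HahnSeries.C (algebraMap k[X] R X) +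
      (HahnSeries.single 1 1 : LaurentSeries R) ^ (p ^ (r + 1) - 1) *
        (HahnSeries.ofPowerSeries ℤ R T) ^ p ^ (r + 1) := by
    have h3 := congrArg (HahnSeries.ofPowerSeries ℤ R) hT
    rw [map_add, map_mul, map_mul, map_pow, map_pow, HahnSeries.ofPowerSeries_X,
      HahnSeries.ofPowerSeries_C] at h3
    exact h3
  rw [mul_add, h1]
  linear_combination h2

/-- (`Bs.lift`; the condition on `X` is the equation of `T`: `P` is a power of the characteristic,
`a ^ P = a`.) -/
theorem rho_exists (p : ℕ) [Fact p.Prime] [CharP k p] (r : ℕ) (T : PowerSeries R)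
    (hT : IsT (k := k) (p ^ (r + 1)) T) (a : k) (ha : a ^ p ^ (r + 1) = a) :
    ∃ ρ : OL k (p ^ (r + 1)) R →+* LaurentSeries R, IsRho (p ^ (r + 1)) T a ρ := by
  let α : (LaurentSeries k)[X] →+* LaurentSeries R := Polynomial.eval₂RingHom (hmap (kR k R))
    (HahnSeries.ofPowerSeries ℤ R T + HahnSeries.single (-1) (kR k R a))
  have hα : ∀ f : k[X], α (evg k (LaurentSeries k)
      (gb (LaurentSeries k) (p ^ (r + 1)) (bL k)) f) =
      (HahnSeries.C : R →+* LaurentSeries R) (algebraMap k[X] R f) := by
    have h1 : α.comp (evg k (LaurentSeries k) (gb (LaurentSeries k) (p ^ (r + 1)) (bL k))) =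
        (HahnSeries.C : R →+* LaurentSeries R).comp (algebraMap k[X] R) := by
      apply Polynomial.ringHom_ext
      · intro c
        rw [RingHom.comp_apply, RingHom.comp_apply]
        have h2 : evg k (LaurentSeries k) (gb (LaurentSeries k) (p ^ (r + 1)) (bL k)) (C c) =
            C (algebraMap k (LaurentSeries k) c) := by
          change Polynomial.eval₂ _ _ _ = _
          rw [Polynomial.eval₂_C]
          rfl
        rw [h2]
        change Polynomial.eval₂ _ _ _ = _
        rw [Polynomial.eval₂_C, RhoA_algebraMap, RhoA_hmap_single]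
        rfl
      · rw [RingHom.comp_apply, RingHom.comp_apply]
        have h2 : evg k (LaurentSeries k) (gb (LaurentSeries k) (p ^ (r + 1)) (bL k)) X =
            gb (LaurentSeries k) (p ^ (r + 1)) (bL k) := by
          change Polynomial.eval₂ _ _ _ = _
          rw [Polynomial.eval₂_X]
        rw [h2]
        unfold gb
        rw [map_mul, map_sub, map_mul]
        have hX : α X = HahnSeries.ofPowerSeries ℤ R T +
            HahnSeries.single (-1) (kR k R a) := Polynomial.eval₂_X _ _
        have hC : ∀ c, α (C c) = hmap (kR k R) c := fun c => Polynomial.eval₂_C _ _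
        have hXP : α (X ^ p ^ (r + 1)) = (HahnSeries.ofPowerSeries ℤ R T +
            HahnSeries.single (-1) (kR k R a)) ^ p ^ (r + 1) := by
          rw [map_pow, hX]
        rw [hXP, hX, hC, hC, map_pow, RhoA_hmap_single, map_one, RhoA_eq p r T hT a ha, RhoA_inv,
          RhoA_hmap_single, map_one, ← mul_assoc, HahnSeries.single_mul_single,
          neg_add_cancel, mul_one]
        exact one_mul _
    exact fun f => congrArg (fun g : k[X] →+* LaurentSeries R => g f) h1
  refine ⟨Bs.lift _ α HahnSeries.C hα, fun r => Bs.lift_inR _ _ _ _ _, fun f => ?_⟩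
  exact Bs.lift_alg _ _ _ _ _

theorem rho_uniq (T : PowerSeries R) (a : k) (ρ ρ' : OL k P R →+* LaurentSeries R)
    (h : IsRho P T a ρ) (h' : IsRho P T a ρ') : ρ = ρ' := by
  apply Bs.hom_ext
  · intro f
    exact (h.2 f).trans (h'.2 f).symm
  · intro r
    exact (h.1 r).trans (h'.1 r).symm

/-- composition with the translations of the family -/
theorem rho_shf (T : PowerSeries R) (a b : k) (ρ : OL k P R →+* LaurentSeries R)
    (h : IsRho P T a ρ) (s : OL k P R →+* OL k P R)
    (hs : IsShf (gb (LaurentSeries k) P (bL k)) (bL k) (algebraMap k (LaurentSeries k) b) s) :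
    IsRho P T (a + b) (ρ.comp s) := by
  refine ⟨fun r => ?_, fun f => ?_⟩
  · rw [RingHom.comp_apply, hs.1, h.1]
  · rw [RingHom.comp_apply, hs.2, h.2, Polynomial.eval₂_comp]
    congr 1
    rw [Polynomial.eval₂_add, Polynomial.eval₂_X, Polynomial.eval₂_C, div_eq_mul_inv,
      RhoA_inv, RhoA_algebraMap, HahnSeries.single_mul_single, RhoA_hmap_single, mul_one,
      zero_add, map_add, add_assoc]
    congr 1
    ext m
    rw [HahnSeries.coeff_add, HahnSeries.coeff_single, HahnSeries.coeff_single,
      HahnSeries.coeff_single]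
    split_ifs
    · rfl
    · exact add_zero 0

end Pool.Agent.AB3
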