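import Pool.Agent.Lib.MP_5de024_nt.S.PatX.RhoA

/-!
# Patching: compatibility with the group (part PAT, file RhoB)
-/

set_option autoImplicit false
set_option linter.unusedSectionVars false

namespace Pool.Agent.AB3


open Polynomial

variable {k R H : Type} [Field k] [CommRing R] [Algebra k[X] R] [Group H] [Finite H] {N : ℕ}
  (B : RBas k R N) (P : ℕ)

/-- the equation of `T` has only one solution -/
theorem RhoB_uniq (hP : 2 ≤ P) (T T' : PowerSeries R) (hT : IsT (k := k) P T)
    (hT' : IsT (k := k) P T') : T = T' := by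
  have h1 : T - T' = PowerSeries.X ^ (P - 1) * (T ^ P - T' ^ P) := by
    conv_lhs => rw [hT, hT']
    ring
  obtain ⟨c, hc⟩ := sub_dvd_pow_sub_pow T T' P
  have h2 : ∀ n : ℕ, (PowerSeries.X : PowerSeries R) ^ n ∣ T - T' := by
    intro n
    induction n with
    | zero =>
      rw [pow_zero]
      exact one_dvd _
    | succ n ih =>
      obtain ⟨d, hd⟩ := ih
      have h3 : T - T' = PowerSeries.X ^ (n + 1) * (PowerSeries.X ^ (P - 2) * d * c) := by
        obtain ⟨Q, rfl⟩ : ∃ Q, P = Q + 2 := ⟨P - 2, by omega⟩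
        rw [h1, hc, hd]
        rw [show Q + 2 - 1 = Q + 1 by omega, show Q + 2 - 2 = Q by omega]
        ring
      exact ⟨_, h3⟩
  have h4 : T - T' = 0 := by
    ext n
    rw [map_zero]
    exact (PowerSeries.X_pow_dvd_iff.1 (h2 (n + 1))) n (by omega)
  exact sub_eq_zero.1 h4

/-- `T` is fixed by the group -/
theorem RhoB_fix (hP : 2 ≤ P) (g : R ≃ₐ[k[X]] R) (T : PowerSeries R) (hT : IsT (k := k) P T) :
    PowerSeries.map (g : R →+* R) T = T := by
  refine RhoB_uniq (k := k) P hP _ _ ?_ hT
  unfold IsT
  conv_lhs => rw [hT]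
  rw [map_add, map_mul, map_mul, map_pow, map_pow, PowerSeries.map_X, PowerSeries.map_C]
  have h1 : (g : R →+* R) (algebraMap k[X] R X) = algebraMap k[X] R X := g.commutes X
  rw [h1]

theorem RhoB_ofPS (g : R →+* R) (T : PowerSeries R) :
    hmap g (HahnSeries.ofPowerSeries ℤ R T) =
      HahnSeries.ofPowerSeries ℤ R (PowerSeries.map g T) := by
  ext n
  rw [hmap_coeff]
  have h1 := PowerSeries.coeff_coe T n
  have h2 := PowerSeries.coeff_coe (PowerSeries.map g T) n
  rw [h1, h2]
  split_ifs
  · exact map_zero g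
  · rw [PowerSeries.coeff_map]

theorem RhoB_single (g : R →+* R) (j : ℤ) (r : R) :
    hmap g (HahnSeries.single j r) = HahnSeries.single j (g r) := by
  ext n
  rw [hmap_coeff, HahnSeries.coeff_single, HahnSeries.coeff_single]
  split_ifs
  · rfl
  · exact map_zero g

/-- `T` is fixed by `H` because it is a power series in `s = algebraMap X` (uniqueness of the
solution `T` of `IsT`: the difference `δ` of two solutions is divisible by every power of `β`), so
the maps commute with `H` (`Bs.hom_ext`). -/
theorem rho_act (hP : 2 ≤ P) (C : Cov k R H) (T : PowerSeries R) (hT : IsT (k := k) P T)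
    (a : k) (ρ : OL k P R →+* LaurentSeries R) (h : IsRho P T a ρ) (σ : H) (z : OL k P R) :
    ρ (Bs.act (evg k (LaurentSeries k) (gb (LaurentSeries k) P (bL k))) C.act σ z) =
      hmap (C.act σ : R →+* R) (ρ z) := by
  have hkR : ∀ c : k, (C.act σ : R →+* R) (kR k R c) = kR k R c := fun c =>
    (C.act σ).commutes (Polynomial.C c)
  let f1 : OL k P R →+* LaurentSeries R := ρ.comp
    ((Bs.act (evg k (LaurentSeries k) (gb (LaurentSeries k) P (bL k))) C.act σ :
      OL k P R ≃ₐ[(LaurentSeries k)[X]] OL k P R) : OL k P R →+* OL k P R)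
  let f2 : OL k P R →+* LaurentSeries R :=
    (hmap (C.act σ : R →+* R)).comp ρ
  have key : f1 = f2 := by
    apply Bs.hom_ext
    · intro f
      change ρ (Bs.act (evg k (LaurentSeries k) (gb (LaurentSeries k) P (bL k))) C.act σ
        (algebraMap (LaurentSeries k)[X] (OL k P R) f)) =
        hmap (C.act σ : R →+* R) (ρ (algebraMap (LaurentSeries k)[X] (OL k P R) f))
      rw [Bs.act_alg, h.2, Polynomial.hom_eval₂, map_add, RhoB_ofPS, RhoB_fix P hP _ T hT,
        RhoB_single, hkR]
      have h3 : (hmap (C.act σ : R →+* R)).comp (hmap (kR k R)) = hmap (kR k R) := by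
        apply RingHom.ext
        intro w
        ext n
        rw [RingHom.comp_apply, hmap_coeff, hmap_coeff, hkR]
      rw [h3]
    · intro r
      change ρ (Bs.act (evg k (LaurentSeries k) (gb (LaurentSeries k) P (bL k))) C.act σ
        (Bs.inR (evg k (LaurentSeries k) (gb (LaurentSeries k) P (bL k))) R r)) =
        hmap (C.act σ : R →+* R)
          (ρ (Bs.inR (evg k (LaurentSeries k) (gb (LaurentSeries k) P (bL k))) R r))
      rw [Bs.act_inR, h.1, h.1]
      exact (RhoB_single (C.act σ : R →+* R) 0 r).symm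
  exact RingHom.congr_fun key z

end Pool.Agent.AB3
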