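import Pool.Agent.Lib.MP_5de024_nt.S.PatX.RhoA

/-!
# Patching: orders (part PAT, file RhoC)
-/

set_option autoImplicit false
set_option linter.unusedSectionVars false

namespace Pool.Agent.AB3


open Polynomial

variable {k R H : Type} [Field k] [CommRing R] [Algebra k[X] R] [Group H] [Finite H] {N : ℕ}
  (B : RBas k R N) (P : ℕ)

/-- the image of `t` -/
theorem rho_t (T : PowerSeries R) (a : k) (ρ : OL k P R →+* LaurentSeries R)
    (h : IsRho P T a ρ) (M : ℕ) : LD (-(M : ℤ)) (kR k R a ^ M)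
      (ρ (algebraMap (LaurentSeries k)[X] (OL k P R) (X ^ M))) := by
  have h1 : LD (-1) (kR k R a) (HahnSeries.single (-1) (kR k R a) : LaurentSeries R) :=
    ⟨LO_single _ _, HahnSeries.coeff_single_same _ _⟩
  have h2 := LD_pow (LD_add h1 (LO_ofPowerSeries T)) M
  have e : (M : ℤ) * (-1) = -(M : ℤ) := by ring
  rw [e, add_comm (HahnSeries.single (-1) (kR k R a) : LaurentSeries R)] at h2
  rw [h.2, eval₂_pow, eval₂_X]
  exact h2

/-- scalars -/
theorem rho_C (T : PowerSeries R) (a : k) (ρ : OL k P R →+* LaurentSeries R)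
    (h : IsRho P T a ρ) (c : LaurentSeries k) :
    ρ (algebraMap (LaurentSeries k)[X] (OL k P R) (Polynomial.C c)) = hmap (kR k R) c := by
  rw [h.2, eval₂_C]

private theorem RhoC_gen (T : PowerSeries R) (a : k) (ρ : OL k P R →+* LaurentSeries R)
    (h : IsRho P T a ρ) (J : ℤ) (b : ℕ) (z : OL k P R)
    (hz : Lat B P (fun n m => J ≤ n ∧ 0 ≤ m ∧ m ≤ b) (iM k P R z)) (e : ℤ) (he : e ≤ 0)
    (hT : LO e (HahnSeries.ofPowerSeries ℤ R T + HahnSeries.single (-1) (kR k R a))) :
    LO (J + b * e) (ρ z) := by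
  have hcf : ∀ (i : Fin N) (m : ℕ) (n : ℤ), (n < J ∨ b < m) →
      (((Bs.basis (evg k (LaurentSeries k) (gb (LaurentSeries k) P (bL k))) B.e).repr z i).coeff
        m).coeff n = 0 := by
    intro i m n hnm
    have h1 := hz i (n - B.d i) m (by
      rintro ⟨h2, -, h3⟩
      rcases hnm with h4 | h4
      · omega
      · exact absurd (by exact_mod_cast h3 : m ≤ b) (not_le.2 h4))
    rw [co_iM, cf_bz, cf_iA, if_pos (Int.natCast_nonneg m), Int.toNat_natCast] at h1
    have h5 : n - (B.d i : ℤ) - -(B.d i : ℤ) = n := by ring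
    rwa [h5] at h1
  have hsum := (Bs.basis (evg k (LaurentSeries k) (gb (LaurentSeries k) P (bL k))) B.e).sum_repr z
  rw [← hsum, map_sum]
  refine LO_sum _ _ fun i _ => ?_
  rw [Algebra.smul_def, map_mul, Bs.basis_apply, h.1, h.2]
  have hd : ((Bs.basis (evg k (LaurentSeries k) (gb (LaurentSeries k) P (bL k))) B.e).repr z
      i).natDegree < b + 1 := by
    refine Nat.lt_succ_of_le (natDegree_le_iff_coeff_eq_zero.2 fun m hm => ?_)
    ext n
    exact hcf i m n (Or.inr hm)
  rw [eval₂_eq_sum_range' _ hd]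
  have h6 : LO (J + b * e + 0) ((∑ m ∈ Finset.range (b + 1), hmap (kR k R)
      (((Bs.basis (evg k (LaurentSeries k) (gb (LaurentSeries k) P (bL k))) B.e).repr z i).coeff
        m) * (HahnSeries.ofPowerSeries ℤ R T + HahnSeries.single (-1) (kR k R a)) ^ m) *
      (HahnSeries.C (B.e i) : LaurentSeries R)) := by
    refine LO_mul (LO_sum _ _ fun m hm => ?_) (LO_C _)
    have h7 : LO J (hmap (kR k R) (((Bs.basis (evg k (LaurentSeries k)
        (gb (LaurentSeries k) P (bL k))) B.e).repr z i).coeff m)) := by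
      intro n hn
      rw [hmap_coeff, hcf i m n (Or.inl hn), map_zero]
    refine LO_mono ?_ (LO_mul h7 (LO_pow hT m))
    have h8 : (m : ℤ) ≤ b := by
      have := Finset.mem_range.1 hm
      omega
    nlinarith
  rwa [add_zero] at h6

/-- the loss of precision is at most the degree in `t` -/
theorem rho_LO (T : PowerSeries R) (a : k) (ρ : OL k P R →+* LaurentSeries R)
    (h : IsRho P T a ρ) (J : ℤ) (b : ℕ) (z : OL k P R)
    (hz : Lat B P (fun n m => J ≤ n ∧ 0 ≤ m ∧ m ≤ b) (iM k P R z)) : LO (J - b) (ρ z) := by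
  have h1 := RhoC_gen B P T a ρ h J b z hz (-1) (by norm_num)
    (LO_add (LO_mono (by norm_num) (LO_ofPowerSeries T)) (LO_single _ _))
  have h2 : J + (b : ℤ) * (-1) = J - b := by ring
  rwa [h2] at h1

/-- for `a = 0` there is no loss -/
theorem rho_LO_zero (T : PowerSeries R) (ρ : OL k P R →+* LaurentSeries R)
    (h : IsRho P T 0 ρ) (J : ℤ) (b : ℕ) (z : OL k P R)
    (hz : Lat B P (fun n m => J ≤ n ∧ 0 ≤ m ∧ m ≤ b) (iM k P R z)) : LO J (ρ z) := by
  have h1 := RhoC_gen B P T 0 ρ h J b z hz 0 (le_refl _) (by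
    rw [map_zero, map_zero, add_zero]
    exact LO_ofPowerSeries T)
  rwa [mul_zero, add_zero] at h1

end Pool.Agent.AB3
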