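import Pool.Agent.Lib.MP_5de024_nt.S.PatX.Defs

/-!
# Patching: the ring `k[t, 1/t]((β))`, products (part PAT, file SerA)
-/

set_option autoImplicit false
set_option linter.unusedSectionVars false

namespace Pool.Agent.AB3


open Polynomial

variable {k : Type} [Field k]

private theorem SerA_lp_mul (x y : LaurentPolynomial k) (m : ℤ)
    (h : ∀ a b, a + b = m → x.coeff a = 0 ∨ y.coeff b = 0) : (x * y).coeff m = 0 := by
  classical
  rw [AddMonoidAlgebra.coeff_mul]
  refine Finset.sum_eq_zero fun a _ => ?_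
  refine Finset.sum_eq_zero fun b _ => ?_
  show (if a + b = m then x.coeff a * y.coeff b else 0) = 0
  by_cases hab : a + b = m
  · rw [if_pos hab]
    rcases h a b hab with h1 | h1
    · rw [h1, zero_mul]
    · rw [h1, mul_zero]
  · exact if_neg hab

/-- The exponents of a product are sums of exponents of the factors.  (`HahnSeries.coeff_mul`, a
finite sum; each product of Laurent polynomials has its support in the sum of the supports.) -/
theorem SU_mul {U V W : ℤ → ℤ → Prop} {z w : BA k} (hz : SU U z) (hw : SU V w)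
    (h : ∀ n m n' m', U n m → V n' m' → W (n + n') (m + m')) : SU W (z * w) := by
  classical
  intro n m hnm
  unfold cf
  rw [HahnSeries.coeff_mul, AddMonoidAlgebra.coeff_sum, Finsupp.finsetSum_apply]
  refine Finset.sum_eq_zero fun ij hij => ?_
  have h1 : ij.1 + ij.2 = n := (Finset.mem_antidiagonal.1 hij).2.2
  refine SerA_lp_mul _ _ m fun a b hab => ?_
  by_contra hcon
  rw [not_or] at hcon
  have h2 : U ij.1 a := by
    by_contra h3
    exact hcon.1 (hz _ _ h3)
  have h4 : V ij.2 b := by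
    by_contra h3
    exact hcon.2 (hw _ _ h3)
  have h5 := h _ _ _ _ h2 h4
  rw [h1, hab] at h5
  exact hnm h5

theorem bz_zero : bz k 0 = 1 := rfl

theorem tz_zero : tz k 0 = 1 := rfl

theorem cf_bz (j : ℤ) (z : BA k) (n m : ℤ) : cf (bz k j * z) n m = cf z (n - j) m := by
  unfold cf bz
  rw [HahnSeries.coeff_single_mul, one_mul]

private theorem SerA_T_mul (j : ℤ) (x : LaurentPolynomial k) (m : ℤ) :
    (LaurentPolynomial.T j * x).coeff m = x.coeff (m - j) := by
  have h := AddMonoidAlgebra.coeff_single_mul_eq_mul_coeff (R := k) (x := x) (m := j) (r := 1)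
    (m₁ := m) (m - j) (fun m' _ => by constructor <;> intro h <;> omega)
  rw [one_mul] at h
  exact h

theorem cf_tz (j : ℤ) (z : BA k) (n m : ℤ) : cf (tz k j * z) n m = cf z n (m - j) := by
  unfold cf tz
  rw [HahnSeries.coeff_single_zero_mul, SerA_T_mul]

private theorem SerA_C_mul (a : k) (x : LaurentPolynomial k) (m : ℤ) :
    (LaurentPolynomial.C a * x).coeff m = a * x.coeff m := by
  rw [← LaurentPolynomial.smul_eq_C_mul]
  rfl

theorem cf_kc (a : k) (z : BA k) (n m : ℤ) : cf (kc k a * z) n m = a * cf z n m := by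
  unfold cf kc
  show (((HahnSeries.C (LaurentPolynomial.C a) : BA k) * z).coeff n).coeff m = _
  rw [HahnSeries.C_apply, HahnSeries.coeff_single_zero_mul, SerA_C_mul]

private theorem SerA_cf_one (n m : ℤ) : cf (1 : BA k) n m = if n = 0 ∧ m = 0 then 1 else 0 := by
  unfold cf
  rw [HahnSeries.coeff_one]
  by_cases hn : n = 0
  · rw [if_pos hn, ← LaurentPolynomial.T_zero, LaurentPolynomial.T_apply]
    by_cases hm : m = 0
    · rw [if_pos hm.symm, if_pos ⟨hn, hm⟩]
    · rw [if_neg (fun h => hm h.symm), if_neg (fun h => hm h.2)]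
  · rw [if_neg hn, if_neg (fun h => hn h.1)]
    rfl

theorem SU_one : SU (fun n m => n = 0 ∧ m = 0) (1 : BA k) := by
  intro n m h
  rw [SerA_cf_one, if_neg h]

theorem SU_pow {U : ℤ → ℤ → Prop} {z : BA k} (hz : SU U z) (h0 : U 0 0)
    (h : ∀ n m n' m', U n m → U n' m' → U (n + n') (m + m')) (i : ℕ) : SU U (z ^ i) := by
  induction i with
  | zero =>
    rw [pow_zero]
    exact SU_mono (fun n m hnm => by rw [hnm.1, hnm.2]; exact h0) SU_one
  | succ i ih =>
    rw [pow_succ]
    exact SU_mul ih hz h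

/-- the powers, with a bound of the second exponent -/
theorem SU_pow_bdd {b : ℕ} {z : BA k} (hz : SU (fun n m => 0 ≤ n ∧ 0 ≤ m ∧ m ≤ b) z) (i : ℕ) :
    SU (fun n m => 0 ≤ n ∧ 0 ≤ m ∧ m ≤ (b * i : ℕ)) (z ^ i) := by
  induction i with
  | zero =>
    rw [pow_zero]
    refine SU_mono (fun n m hnm => ?_) SU_one
    obtain ⟨h1, h2⟩ := hnm
    subst h1 h2
    simp
  | succ i ih =>
    rw [pow_succ]
    refine SU_mul ih hz fun n m n' m' h1 h2 => ?_
    obtain ⟨h3, h4, h5⟩ := h1
    obtain ⟨h6, h7, h8⟩ := h2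
    have e : ((b * (i + 1) : ℕ) : ℤ) = ((b * i : ℕ) : ℤ) + b := by
      push_cast
      ring
    refine ⟨by omega, by omega, ?_⟩
    show m + m' ≤ ((b * (i + 1) : ℕ) : ℤ)
    rw [e]
    exact add_le_add h5 h8

theorem SU_sum {ι : Type} (s : Finset ι) {U : ℤ → ℤ → Prop} (f : ι → BA k)
    (h : ∀ i ∈ s, SU U (f i)) : SU U (∑ i ∈ s, f i) := by
  classical
  induction s using Finset.induction_on with
  | empty =>
    rw [Finset.sum_empty]
    exact SU_zero U
  | insert a s ha ih =>
    rw [Finset.sum_insert ha]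
    exact SU_add (h a (Finset.mem_insert_self _ _))
      (ih fun i hi => h i (Finset.mem_insert_of_mem hi))

theorem SU_bz (j : ℤ) : SU (fun n m => n = j ∧ m = 0) (bz k j) := by
  intro n m h
  rw [← mul_one (bz k j), cf_bz, SerA_cf_one, if_neg]
  rintro ⟨h1, h2⟩
  exact h ⟨by omega, h2⟩

theorem SU_tz (j : ℤ) : SU (fun n m => n = 0 ∧ m = j) (tz k j) := by
  intro n m h
  rw [← mul_one (tz k j), cf_tz, SerA_cf_one, if_neg]
  rintro ⟨h1, h2⟩
  exact h ⟨h1, by omega⟩

theorem SU_kc (a : k) : SU (fun n m => n = 0 ∧ m = 0) (kc k a) := by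
  intro n m h
  rw [← mul_one (kc k a), cf_kc, SerA_cf_one, if_neg h, mul_zero]

theorem bz_add (i j : ℤ) : bz k (i + j) = bz k i * bz k j := by
  unfold bz
  rw [HahnSeries.single_mul_single, one_mul]

theorem bz_pow (i : ℤ) (n : ℕ) : bz k i ^ n = bz k (n * i) := by
  unfold bz
  rw [HahnSeries.single_pow, one_pow, nsmul_eq_mul]

theorem tz_add (i j : ℤ) : tz k (i + j) = tz k i * tz k j := by
  unfold tz
  rw [HahnSeries.single_mul_single, add_zero, LaurentPolynomial.T_add]

theorem tz_pow (i : ℤ) (n : ℕ) : tz k i ^ n = tz k (n * i) := by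
  unfold tz
  rw [HahnSeries.single_pow, nsmul_zero, LaurentPolynomial.T_pow]

/-- `BA k` is a domain (an instance). -/
theorem BA_domain : IsDomain (BA k) := by
  have : IsDomain (LaurentPolynomial k) := inferInstance
  infer_instance

end Pool.Agent.AB3
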