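import Pool.Agent.Lib.MP_5de024_nt.S.PatX.SerA

/-!
# Patching: the ring `k[t, 1/t]((β))`, limits (part PAT, file SerB)
-/

set_option autoImplicit false
set_option linter.unusedSectionVars false

namespace Pool.Agent.AB3


open Polynomial

variable {k : Type} [Field k]

/-- An element whose exponents all have `n ≥ J` for every `J` is zero. -/
theorem SU_sep {z : BA k} (h : ∀ J : ℕ, SU (fun n _ => (J : ℤ) ≤ n) z) : z = 0 := by
  refine cf_ext fun n m => ?_
  rw [cf_zero]
  refine h (n + 1).toNat n m ?_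
  show ¬ (((n + 1).toNat : ℤ) ≤ n)
  omega

/-- restriction of the coefficients to a condition on the exponents -/
private theorem SerB_part (W : ℤ → ℤ → Prop) [∀ n m, Decidable (W n m)] (z : BA k) :
    ∃ x : BA k, ∀ n m, cf x n m = if W n m then cf z n m else 0 := by
  have hsub : Function.support
      (fun n : ℤ => (.ofCoeff ((z.coeff n).coeff.filter (fun m => W n m)) : LaurentPolynomial k))
      ⊆ z.support := by
    intro n hn hz0
    apply hn
    show (.ofCoeff ((z.coeff n).coeff.filter (fun m => W n m)) : LaurentPolynomial k) = 0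
    rw [hz0]
    show (.ofCoeff ((0 : ℤ →₀ k).filter (fun m => W n m)) : LaurentPolynomial k) = 0
    rw [Finsupp.filter_zero]
    rfl
  refine ⟨⟨fun n => .ofCoeff ((z.coeff n).coeff.filter (fun m => W n m)),
    z.isPWO_support.mono hsub⟩, fun n m => ?_⟩
  show ((z.coeff n).coeff.filter (fun m => W n m)) m = _
  rw [Finsupp.filter_apply]
  rfl

/-- Splitting by any condition on the exponents (restrict the coefficients; the support of the
Hahn series only becomes smaller). -/
theorem SU_split {U : ℤ → ℤ → Prop} (V : ℤ → ℤ → Prop) {z : BA k} (hz : SU U z) :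
    ∃ x y : BA k, z = x + y ∧ SU (fun n m => U n m ∧ V n m) x ∧
      SU (fun n m => U n m ∧ ¬ V n m) y := by
  classical
  obtain ⟨x, hx⟩ := SerB_part V z
  obtain ⟨y, hy⟩ := SerB_part (fun n m => ¬ V n m) z
  refine ⟨x, y, cf_ext fun n m => ?_, fun n m h => ?_, fun n m h => ?_⟩
  · rw [cf_add, hx, hy]
    by_cases hV : V n m
    · rw [if_pos hV, if_neg (fun h => h hV), add_zero]
    · rw [if_neg hV, if_pos hV, zero_add]
  · rw [hx]
    by_cases hV : V n m
    · rw [if_pos hV]
      exact hz n m fun hU => h ⟨hU, hV⟩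
    · exact if_neg hV
  · rw [hy]
    by_cases hV : V n m
    · exact if_neg (fun h => h hV)
    · rw [if_pos hV]
      exact hz n m fun hU => h ⟨hU, hV⟩

/-- If only finitely many powers of `β` occur the powers of `t` are bounded. -/
theorem SU_bdd {U : ℤ → ℤ → Prop} (J K : ℤ) {z : BA k} (hz : SU U z)
    (hU : ∀ n m, U n m → J ≤ n ∧ n < K) :
    ∃ b : ℕ, SU (fun n m => U n m ∧ -(b : ℤ) ≤ m ∧ m ≤ b) z := by
  classical
  refine ⟨(Finset.Ico J K).sup fun n => (z.coeff n).coeff.support.sup Int.natAbs,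
    fun n m h => ?_⟩
  by_contra hne
  have h1 : U n m := by
    by_contra h2
    exact hne (hz n m h2)
  obtain ⟨h3, h4⟩ := hU n m h1
  have h5 : m ∈ (z.coeff n).coeff.support := Finsupp.mem_support_iff.2 hne
  have h6 : m.natAbs ≤ (z.coeff n).coeff.support.sup Int.natAbs :=
    Finset.le_sup (f := Int.natAbs) h5
  have h7 : ((z.coeff n).coeff.support.sup Int.natAbs) ≤
      (Finset.Ico J K).sup fun n => (z.coeff n).coeff.support.sup Int.natAbs :=
    Finset.le_sup (f := fun n => (z.coeff n).coeff.support.sup Int.natAbs)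
      (Finset.mem_Ico.2 ⟨h3, h4⟩)
  apply h
  refine ⟨h1, ?_, ?_⟩ <;> omega

/-- Limits: the coefficient of `β ^ n` of the limit is that of `x (n + 1)` for `n ≥ 0` and that of
`x 0` for `n < 0` (the support is bounded below, `HahnSeries.ofSuppBddBelow`). -/
theorem SU_lim (x : ℕ → BA k) (hx : ∀ J : ℕ, SU (fun n _ => (J : ℤ) ≤ n) (x (J + 1) - x J)) :
    ∃ y : BA k, ∀ J : ℕ, SU (fun n _ => (J : ℤ) ≤ n) (y - x J) := by
  classical
  have hst : ∀ (J d : ℕ) (n m : ℤ), n < J → cf (x (J + d)) n m = cf (x J) n m := by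
    intro J d n m hn
    induction d with
    | zero => rfl
    | succ d ih =>
      have h1 := hx (J + d) n m (by show ¬ (((J + d : ℕ) : ℤ) ≤ n); push_cast; omega)
      rw [cf_sub] at h1
      rw [← ih]
      exact sub_eq_zero.1 h1
  have hbd : BddBelow (Function.support
      (fun n : ℤ => if n < 0 then (x 0).coeff n else (x (n + 1).toNat).coeff n)) := by
    have h0 : ∃ b : ℤ, ∀ n, n < b → (x 0).coeff n = 0 := by
      by_cases hx0 : x 0 = 0
      · exact ⟨0, fun n _ => by rw [hx0]; rfl⟩
      · exact ⟨(x 0).order, fun n hn => HahnSeries.coeff_eq_zero_of_lt_order hn⟩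
    obtain ⟨b, hb⟩ := h0
    refine ⟨min b 0, fun n hn => ?_⟩
    by_contra hlt
    rw [not_le, lt_min_iff] at hlt
    apply hn
    show (if n < 0 then (x 0).coeff n else (x (n + 1).toNat).coeff n) = 0
    rw [if_pos hlt.2]
    exact hb n hlt.1
  refine ⟨HahnSeries.ofSuppBddBelow _ hbd, fun J n m h => ?_⟩
  have h' : n < (J : ℤ) := not_le.1 h
  rw [cf_sub]
  by_cases hn : n < 0
  · have h1 : cf (HahnSeries.ofSuppBddBelow _ hbd) n m = cf (x 0) n m := by
      show ((if n < 0 then (x 0).coeff n else (x (n + 1).toNat).coeff n)).coeff m = _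
      rw [if_pos hn]
      rfl
    rw [h1]
    have h2 := hst 0 J n m (by simpa using hn)
    rw [Nat.zero_add] at h2
    rw [h2, sub_self]
  · have h1 : cf (HahnSeries.ofSuppBddBelow _ hbd) n m = cf (x (n + 1).toNat) n m := by
      show ((if n < 0 then (x 0).coeff n else (x (n + 1).toNat).coeff n)).coeff m = _
      rw [if_neg hn]
      rfl
    rw [h1]
    obtain ⟨d, hd⟩ : ∃ d : ℕ, J = (n + 1).toNat + d := ⟨J - (n + 1).toNat, by omega⟩
    rw [hd, hst (n + 1).toNat d n m (by omega), sub_self]

end Pool.Agent.AB3
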