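import Mathlib

/-!
# Patching: Weierstrass division in `k[t][[β]]` (part PAT, file Wd)
-/

set_option autoImplicit false
set_option linter.unusedSectionVars false

namespace Pool.Agent.AB3

open Polynomial

variable {k : Type} [Field k]

/-- the coefficients of the quotient -/
noncomputable def wdq (F a : PowerSeries k[X]) : ℕ → k[X]
  | n => (PowerSeries.coeff n a - ∑ j : Fin n, wdq F a j * PowerSeries.coeff (n - j) F)
      / PowerSeries.coeff 0 F
termination_by n => n
decreasing_by exact j.2

/-- the coefficients of the dividends -/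
noncomputable def wds (F a : PowerSeries k[X]) (n : ℕ) : k[X] :=
  PowerSeries.coeff n a - ∑ j : Fin n, wdq F a j * PowerSeries.coeff (n - j) F

theorem wdq_eq (F a : PowerSeries k[X]) (n : ℕ) :
    wdq F a n = wds F a n / PowerSeries.coeff 0 F := by
  rw [wdq, wds]

theorem wd_coeff_mul (F q : PowerSeries k[X]) (n : ℕ) :
    PowerSeries.coeff n (F * q) = (∑ j : Fin n, PowerSeries.coeff (j : ℕ) q
      * PowerSeries.coeff (n - j) F) + PowerSeries.coeff n q * PowerSeries.coeff 0 F := by
  rw [mul_comm, PowerSeries.coeff_mul,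
    Finset.Nat.sum_antidiagonal_eq_sum_range_succ_mk, Finset.sum_range_succ, Nat.sub_self,
    Finset.sum_range]

/-- Weierstrass division: the coefficients of `q` and `r` by strong recursion:
`F₀ q_n + r_n = a_n - ∑_{1 ≤ j ≤ n} F_j q_(n-j)`, `q_n` and `r_n` = quotient and remainder of the
division by `F₀` in `k[t]`. -/
theorem wd_exists (F : PowerSeries k[X]) (hF : PowerSeries.coeff 0 F ≠ 0)
    (a : PowerSeries k[X]) : ∃ q r : PowerSeries k[X], a = F * q + r ∧
      ∀ n, (PowerSeries.coeff n r).degree < (PowerSeries.coeff 0 F).degree := by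
  refine ⟨PowerSeries.mk (wdq F a), PowerSeries.mk fun n => wds F a n % PowerSeries.coeff 0 F,
    ?_, fun n => ?_⟩
  · ext1 n
    rw [map_add, wd_coeff_mul, PowerSeries.coeff_mk, PowerSeries.coeff_mk]
    have h1 : ∑ j : Fin n, PowerSeries.coeff (j : ℕ) (PowerSeries.mk (wdq F a))
        * PowerSeries.coeff (n - j) F = ∑ j : Fin n, wdq F a j * PowerSeries.coeff (n - j) F :=
      Finset.sum_congr rfl fun j _ => by rw [PowerSeries.coeff_mk]
    rw [h1, add_assoc, wdq_eq F a n, mul_comm (wds F a n / _), EuclideanDomain.div_add_mod]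
    rw [wds]
    ring
  · rw [PowerSeries.coeff_mk]
    exact Polynomial.degree_mod_lt _ hF

/-- The quotient of a series with bounded degrees by a monic polynomial has bounded degrees
(strong induction on `n`). -/
theorem wd_bdd (G q : PowerSeries k[X]) (e b : ℕ) (h0 : (PowerSeries.coeff 0 G).degree = e)
    (hG : ∀ j, 1 ≤ j → (PowerSeries.coeff j G).degree < e)
    (h : ∀ n, (PowerSeries.coeff n (G * q)).natDegree ≤ b) (n : ℕ) :
    (PowerSeries.coeff n q).natDegree ≤ b := by
  rw [Polynomial.natDegree_le_iff_degree_le]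
  induction n using Nat.strong_induction_on with
  | _ n ih =>
    have h1 : PowerSeries.coeff n q * PowerSeries.coeff 0 G = PowerSeries.coeff n (G * q)
        - ∑ j : Fin n, PowerSeries.coeff (j : ℕ) q * PowerSeries.coeff (n - j) G := by
      rw [wd_coeff_mul]
      ring
    have h2 : (PowerSeries.coeff n q * PowerSeries.coeff 0 G).degree ≤ ((b : WithBot ℕ) + e) := by
      rw [h1]
      refine (Polynomial.degree_sub_le _ _).trans (max_le ?_ ?_)
      · refine (Polynomial.natDegree_le_iff_degree_le.1 (h n)).trans ?_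
        exact_mod_cast Nat.le_add_right b e
      · refine (Polynomial.degree_sum_le _ _).trans (Finset.sup_le fun j _ => ?_)
        refine (Polynomial.degree_mul_le _ _).trans (add_le_add (ih j j.2) ?_)
        exact (hG (n - j) (by have := j.2; omega)).le
    rw [Polynomial.degree_mul, h0] at h2
    exact (WithBot.add_le_add_iff_right (by simp)).1 h2

/-- Let all `F_n` have degree `≤ b` and `F₀ ≠ 0` of degree `d`.  Then `F = F₁ H` where `F₁` is a monic
polynomial of degree `d` (`F₁` has constant coefficient monic of degree `d`, the others of degree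
`< d`) and `H₀` is a nonzero constant and all `H_n` have degree `≤ b`.
Proof: `wd_exists` for `a = t ^ d`: `t ^ d = F q + r`, `F₁ = t ^ d - r = F q`; `q₀` is a nonzero
constant, `q` is a unit, `H = q⁻¹`, `wd_bdd` for `F₁ H = F`. -/
theorem wd_fac (F : PowerSeries k[X]) (hF : PowerSeries.coeff 0 F ≠ 0) (b : ℕ)
    (hb : ∀ n, (PowerSeries.coeff n F).natDegree ≤ b) :
    ∃ F₁ H : PowerSeries k[X], F = F₁ * H ∧
      (PowerSeries.coeff 0 F₁).Monic ∧
      (PowerSeries.coeff 0 F₁).natDegree = (PowerSeries.coeff 0 F).natDegree ∧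
      (∀ j, 1 ≤ j → (PowerSeries.coeff j F₁).degree < (PowerSeries.coeff 0 F₁).degree) ∧
      (∃ c : k, c ≠ 0 ∧ PowerSeries.coeff 0 H = C c) ∧
      ∀ n, (PowerSeries.coeff n H).natDegree ≤ b := by
  obtain ⟨d, hd⟩ : ∃ d, (PowerSeries.coeff 0 F).natDegree = d := ⟨_, rfl⟩
  have hdeg : (PowerSeries.coeff 0 F).degree = (d : WithBot ℕ) := by
    rw [Polynomial.degree_eq_natDegree hF, hd]
  obtain ⟨q, r, hqr, hr⟩ := wd_exists F hF (PowerSeries.C (X ^ d))
  rw [hdeg] at hr
  have hF₁ : F * q = PowerSeries.C (X ^ d) - r := by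
    rw [hqr]
    ring
  have hc0 : PowerSeries.coeff 0 (F * q) = X ^ d - PowerSeries.coeff 0 r := by
    rw [hF₁, map_sub, PowerSeries.coeff_C, if_pos rfl]
  have hcj : ∀ j, 1 ≤ j → PowerSeries.coeff j (F * q) = -PowerSeries.coeff j r := by
    intro j hj
    rw [hF₁, map_sub, PowerSeries.coeff_C, if_neg (by omega), zero_sub]
  have hmon : (PowerSeries.coeff 0 (F * q)).Monic := by
    rw [hc0]
    exact Polynomial.monic_X_pow_sub (by
      have := hr 0
      exact Polynomial.degree_lt_iff_coeff_zero _ _ |>.2 fun m hm => by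
        exact Polynomial.coeff_eq_zero_of_degree_lt (this.trans_le (by exact_mod_cast hm)))
  have hdeg1 : (PowerSeries.coeff 0 (F * q)).degree = (d : WithBot ℕ) := by
    rw [hc0, Polynomial.degree_sub_eq_left_of_degree_lt, Polynomial.degree_X_pow]
    rw [Polynomial.degree_X_pow]
    exact hr 0
  have hq0 : PowerSeries.coeff 0 F * PowerSeries.coeff 0 q = PowerSeries.coeff 0 (F * q) := by
    rw [wd_coeff_mul]
    simp [mul_comm]
  have hq1 : (PowerSeries.coeff 0 q).degree = 0 := by
    have h1 := congrArg Polynomial.degree hq0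
    rw [Polynomial.degree_mul, hdeg, hdeg1] at h1
    have h2 : (d : WithBot ℕ) + (PowerSeries.coeff 0 q).degree = (d : WithBot ℕ) + 0 := by
      rw [h1, add_zero]
    exact (WithBot.add_left_inj (WithBot.natCast_ne_bot d)).1 h2
  have hqu : IsUnit (PowerSeries.coeff 0 q) := Polynomial.isUnit_iff_degree_eq_zero.2 hq1
  have hqU : IsUnit q := by
    rw [PowerSeries.isUnit_iff_constantCoeff, ← PowerSeries.coeff_zero_eq_constantCoeff_apply]
    exact hqu
  obtain ⟨u, hu⟩ := hqU
  have hFH : F = F * q * (↑u⁻¹ : PowerSeries k[X]) := by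
    rw [mul_assoc, ← hu, Units.mul_inv, mul_one]
  have hH0 : IsUnit (PowerSeries.coeff 0 (↑u⁻¹ : PowerSeries k[X])) := by
    rw [PowerSeries.coeff_zero_eq_constantCoeff_apply, ← PowerSeries.isUnit_iff_constantCoeff]
    exact Units.isUnit _
  refine ⟨F * q, ↑u⁻¹, hFH, hmon, ?_, ?_, ?_, ?_⟩
  · rw [hd]
    exact Polynomial.natDegree_eq_of_degree_eq_some hdeg1
  · intro j hj
    rw [hcj j hj, Polynomial.degree_neg, hdeg1]
    exact hr j
  · obtain ⟨c, hc, hc'⟩ := Polynomial.isUnit_iff.1 hH0
    exact ⟨c, hc.ne_zero, hc'.symm⟩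
  · refine wd_bdd (F * q) _ d b hdeg1 (fun j hj => ?_) (fun n => ?_)
    · rw [hcj j hj, Polynomial.degree_neg]
      exact hr j
    · rw [← hFH]
      exact hb n

end Pool.Agent.AB3
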