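import Pool.Agent.Lib.MP_5de024_nt.S.PatX.Emb
import Pool.Agent.Lib.MP_5de024_nt.S.PatX.Wd
import Pool.Agent.Lib.MP_5de024_nt.S.PatX.Ld

/-!
# Patching: Weierstrass division in the big ring (part PAT, file WdaA)
-/

set_option autoImplicit false
set_option linter.unusedSectionVars false

namespace Pool.Agent.AB3


open Polynomial

variable {k : Type} [Field k]

/-- the embedding of `k[t][[β]]` -/
noncomputable def jA (k : Type) [Field k] : PowerSeries k[X] →+* BA k :=
  (hmap (Polynomial.toLaurent : k[X] →+* LaurentPolynomial k)).comp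
    (HahnSeries.ofPowerSeries ℤ k[X])

private theorem WdaA_toL (f : k[X]) (m : ℤ) :
    (Polynomial.toLaurent f).coeff m = if 0 ≤ m then f.coeff m.toNat else 0 := by
  rw [LaurentPolynomial.coeff_toLaurent]
  by_cases h : 0 ≤ m
  · rw [if_pos h]
    obtain ⟨a, rfl⟩ := Int.eq_ofNat_of_zero_le h
    exact Finsupp.mapDomain_apply (Nat.castEmbedding (R := ℤ)).injective _ a
  · rw [if_neg h]
    refine Finsupp.mapDomain_of_notMem_range _ _ ?_
    rintro ⟨a, ha⟩
    have ha' : ((a : ℕ) : ℤ) = m := ha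
    omega

theorem cf_jA (f : PowerSeries k[X]) (n m : ℤ) : cf (jA k f) n m =
    if 0 ≤ n ∧ 0 ≤ m then (PowerSeries.coeff n.toNat f).coeff m.toNat else 0 := by
  unfold cf jA
  rw [RingHom.comp_apply, hmap_coeff]
  by_cases hn : 0 ≤ n
  · obtain ⟨a, rfl⟩ := Int.eq_ofNat_of_zero_le hn
    rw [show ((a : ℕ) : ℤ) = ((a : ℕ) : ℤ) from rfl, HahnSeries.ofPowerSeries_apply_coeff,
      WdaA_toL, Int.toNat_natCast]
    by_cases hm : 0 ≤ m
    · rw [if_pos hm, if_pos ⟨hn, hm⟩]
    · rw [if_neg hm, if_neg fun h => hm h.2]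
  · rw [LO_ofPowerSeries f n (not_le.1 hn), map_zero, if_neg fun h => hn h.1]
    rfl

theorem jA_surj {z : BA k} (hz : SU (fun n m => 0 ≤ n ∧ 0 ≤ m) z) :
    ∃ f : PowerSeries k[X], jA k f = z := by
  have key : ∀ x : LaurentPolynomial k, (∀ m : ℤ, m < 0 → x.coeff m = 0) →
      ∃ f : k[X], Polynomial.toLaurent f = x := by
    intro x hx
    refine ⟨∑ m ∈ x.coeff.support, Polynomial.monomial m.toNat (x.coeff m), ?_⟩
    refine LaurentPolynomial.ext fun m => ?_
    rw [WdaA_toL]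
    by_cases hm : 0 ≤ m
    · rw [if_pos hm, Polynomial.finsetSum_coeff, Finset.sum_eq_single m]
      · rw [Polynomial.coeff_monomial, if_pos rfl]
      · intro b hb hbm
        rw [Polynomial.coeff_monomial, if_neg]
        intro h
        have hb0 : 0 ≤ b := by
          by_contra h1
          exact Finsupp.mem_support_iff.1 hb (hx b (not_le.1 h1))
        omega
      · intro h
        rw [Polynomial.coeff_monomial, if_pos rfl]
        exact Finsupp.notMem_support_iff.1 h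
    · rw [if_neg hm, hx m (not_le.1 hm)]
  have h1 : ∀ n : ℕ, ∃ f : k[X], Polynomial.toLaurent f = z.coeff n := fun n =>
    key _ fun m hm => hz n m fun h => absurd h.2 (not_le.2 hm)
  choose f hf using h1
  refine ⟨PowerSeries.mk f, cf_ext fun n m => ?_⟩
  rw [cf_jA]
  by_cases h : 0 ≤ n ∧ 0 ≤ m
  · rw [if_pos h, PowerSeries.coeff_mk]
    obtain ⟨a, ha⟩ := Int.eq_ofNat_of_zero_le h.1
    have h2 := WdaA_toL (f n.toNat) m
    rw [if_pos h.2, hf] at h2
    rw [← h2, ha]
    rfl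
  · rw [if_neg h, hz n m h]

private theorem WdaA_Itg_mul {f g : (LaurentSeries k)[X]} (hf : Itg f) (hg : Itg g) :
    Itg (f * g) := by
  intro i
  rw [Polynomial.coeff_mul]
  have h : LO 0 (∑ x ∈ Finset.HasAntidiagonal.antidiagonal i, f.coeff x.1 * g.coeff x.2) := by
    refine LO_sum _ _ fun x _ => ?_
    have h1 := LO_mul (J := 0) (J' := 0) (f := f.coeff x.1) (g := g.coeff x.2)
      (fun j hj => hf _ j hj) (fun j hj => hg _ j hj)
    rw [add_zero] at h1
    exact h1
  exact h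

theorem Itg_pow {G : (LaurentSeries k)[X]} (h : Itg G) (i : ℕ) : Itg (G ^ i) := by
  induction i with
  | zero =>
    rw [pow_zero]
    intro i j hj
    rw [Polynomial.coeff_one]
    split_ifs
    · exact LD_one.1 j hj
    · rfl
  | succ i ih =>
    rw [pow_succ]
    exact WdaA_Itg_mul ih h

/-- the series of an integral polynomial -/
private theorem WdaA_series (G : (LaurentSeries k)[X]) (hG : G.Monic) (hi : Itg G) :
    ∃ F : PowerSeries k[X], jA k F = iA k G ∧
      (PowerSeries.coeff 0 F).degree = G.natDegree ∧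
      ∀ j, 1 ≤ j → (PowerSeries.coeff j F).degree < G.natDegree := by
  obtain ⟨F, hF⟩ := jA_surj (z := iA k G)
    (SU_mono (fun n m h => ⟨h.1, h.2.1⟩) (iA_SU G 0 hi))
  have hc : ∀ n m : ℕ, (PowerSeries.coeff n F).coeff m = (G.coeff m).coeff (n : ℤ) := by
    intro n m
    have h := cf_jA F n m
    rw [hF, cf_iA, if_pos (Int.natCast_nonneg m),
      if_pos ⟨Int.natCast_nonneg n, Int.natCast_nonneg m⟩, Int.toNat_natCast,
      Int.toNat_natCast] at h
    exact h.symm
  have hbig : ∀ n m : ℕ, G.natDegree < m → (PowerSeries.coeff n F).coeff m = 0 := by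
    intro n m hm
    rw [hc, Polynomial.coeff_eq_zero_of_natDegree_lt hm]
    rfl
  refine ⟨F, hF, ?_, ?_⟩
  · refine le_antisymm ?_ ?_
    · rw [Polynomial.degree_le_iff_coeff_zero]
      intro m hm
      exact hbig 0 m (by exact_mod_cast hm)
    · refine Polynomial.le_degree_of_ne_zero ?_
      rw [hc, hG.coeff_natDegree]
      have h1 := (LD_one (S := k)).2
      rw [Nat.cast_zero, h1]
      exact one_ne_zero
  · intro j hj
    rw [Polynomial.degree_lt_iff_coeff_zero]
    intro m hm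
    rcases hm.lt_or_eq with h | h
    · exact hbig j m h
    · rw [← h, hc, hG.coeff_natDegree]
      rw [HahnSeries.coeff_one, if_neg]
      omega

/-- Weierstrass division by a monic integral polynomial -/
theorem wd_ba (G : (LaurentSeries k)[X]) (hG : G.Monic) (hi : Itg G) (a : BA k)
    (ha : SU (fun n m => 0 ≤ n ∧ 0 ≤ m) a) :
    ∃ q r : BA k, SU (fun n m => 0 ≤ n ∧ 0 ≤ m) q ∧
      SU (fun n m => 0 ≤ n ∧ 0 ≤ m ∧ m ≤ G.natDegree) r ∧ a = iA k G * q + r := by
  obtain ⟨F, hF, hF0, -⟩ := WdaA_series G hG hi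
  obtain ⟨a', rfl⟩ := jA_surj ha
  have h0 : PowerSeries.coeff 0 F ≠ 0 := by
    intro h
    rw [h, Polynomial.degree_zero] at hF0
    exact absurd hF0 (by simp)
  obtain ⟨q, r, h1, h2⟩ := wd_exists F h0 a'
  refine ⟨jA k q, jA k r, ?_, ?_, ?_⟩
  · intro n m h
    rw [cf_jA, if_neg h]
  · intro n m h
    rw [cf_jA]
    by_cases h3 : 0 ≤ n ∧ 0 ≤ m
    · rw [if_pos h3]
      refine Polynomial.coeff_eq_zero_of_degree_lt (lt_of_lt_of_le (h2 _) ?_)
      rw [hF0]
      have h4 : ¬ m ≤ G.natDegree := fun h5 => h ⟨h3.1, h3.2, h5⟩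
      have h5 : G.natDegree ≤ m.toNat := by omega
      exact_mod_cast h5
    · rw [if_neg h3]
  · rw [h1, map_add, map_mul, hF]

theorem wd_ba_bdd (G : (LaurentSeries k)[X]) (hG : G.Monic) (hi : Itg G) (q : BA k)
    (hq : SU (fun n m => 0 ≤ n ∧ 0 ≤ m) q) (b : ℕ)
    (hb : SU (fun n m => 0 ≤ n ∧ 0 ≤ m ∧ m ≤ b) (iA k G * q)) :
    SU (fun n m => 0 ≤ n ∧ 0 ≤ m ∧ m ≤ b) q := by
  obtain ⟨F, hF, hF0, hF1⟩ := WdaA_series G hG hi
  obtain ⟨q', rfl⟩ := jA_surj hq
  rw [← hF, ← map_mul] at hb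
  have h1 : ∀ n, (PowerSeries.coeff n (F * q')).natDegree ≤ b := by
    intro n
    rw [Polynomial.natDegree_le_iff_coeff_eq_zero]
    intro m hm
    have h := hb n m (fun h2 => by omega)
    rw [cf_jA, if_pos ⟨Int.natCast_nonneg n, Int.natCast_nonneg m⟩, Int.toNat_natCast,
      Int.toNat_natCast] at h
    exact h
  have h2 := wd_bdd F q' G.natDegree b hF0 hF1 h1
  intro n m h
  rw [cf_jA]
  by_cases h3 : 0 ≤ n ∧ 0 ≤ m
  · rw [if_pos h3]
    refine Polynomial.coeff_eq_zero_of_natDegree_lt (lt_of_le_of_lt (h2 _) ?_)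
    have h4 : ¬ m ≤ b := fun h5 => h ⟨h3.1, h3.2, h5⟩
    omega
  · rw [if_neg h3]

end Pool.Agent.AB3
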