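import Pool.Agent.Lib.MP_5de024_nt.S.PatX.WdaA

/-!
# Patching: Weierstrass division with respect to `1 / t` (part PAT, file WdaB)
-/

set_option autoImplicit false
set_option linter.unusedSectionVars false

namespace Pool.Agent.AB3


open Polynomial

variable {k : Type} [Field k]

/-- the automorphism `t ↦ 1 / t` -/
noncomputable def invA (k : Type) [Field k] : BA k →+* BA k :=
  hmap ((LaurentPolynomial.invert : LaurentPolynomial k ≃ₐ[k] LaurentPolynomial k) :
    LaurentPolynomial k →+* LaurentPolynomial k)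

theorem cf_invA (z : BA k) (n m : ℤ) : cf (invA k z) n m = cf z n (-m) := by
  unfold invA cf
  rw [hmap_coeff]
  exact LaurentPolynomial.invert_apply (z.coeff n) m

theorem invA_invA (z : BA k) : invA k (invA k z) = z := by
  refine cf_ext fun n m => ?_
  rw [cf_invA, cf_invA, neg_neg]

/-- If `F` is integral with constant coefficient `1` then `t ^ (-e) F(t)`, `e = deg F`, is a monic
integral polynomial in `1 / t` (`Polynomial.reverse`). -/
theorem invA_rev (F : (LaurentSeries k)[X]) (h0 : F.coeff 0 = 1) (hi : Itg F) :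
    ∃ G : (LaurentSeries k)[X], G.Monic ∧ Itg G ∧ G.natDegree = F.natDegree ∧
      invA k (iA k G) = tz k (-(F.natDegree : ℤ)) * iA k F := by
  have h1 : F.coeff 0 ≠ 0 := by
    rw [h0]
    exact one_ne_zero
  have h2 : F.natTrailingDegree = 0 := Polynomial.natTrailingDegree_eq_zero.2 (Or.inr h1)
  have h3 : F.reverse.natDegree = F.natDegree := by
    rw [Polynomial.reverse_natDegree, h2, Nat.sub_zero]
  refine ⟨F.reverse, ?_, ?_, h3, ?_⟩
  · unfold Polynomial.Monic
    rw [Polynomial.reverse_leadingCoeff, Polynomial.trailingCoeff, h2, h0]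
  · intro i j hj
    rw [Polynomial.coeff_reverse]
    exact hi _ j hj
  · refine cf_ext fun n m => ?_
    rw [cf_invA, cf_iA, cf_tz, cf_iA]
    by_cases hm : 0 ≤ -m
    · rw [if_pos hm, Polynomial.coeff_reverse]
      by_cases hm2 : 0 ≤ m - -(F.natDegree : ℤ)
      · rw [if_pos hm2]
        have h4 : (-m).toNat ≤ F.natDegree := by omega
        rw [Polynomial.revAt_le h4]
        have h5 : F.natDegree - (-m).toNat = (m - -(F.natDegree : ℤ)).toNat := by omega
        rw [h5]
      · rw [if_neg hm2]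
        have h4 : F.natDegree < (-m).toNat := by omega
        have h5 : Polynomial.revAt F.natDegree (-m).toNat = (-m).toNat :=
          Polynomial.revAt_eq_self_of_lt h4
        rw [h5, Polynomial.coeff_eq_zero_of_natDegree_lt h4]
        rfl
    · rw [if_neg hm]
      have h4 : 0 ≤ m - -(F.natDegree : ℤ) := by omega
      rw [if_pos h4]
      have h5 : F.natDegree < (m - -(F.natDegree : ℤ)).toNat := by omega
      rw [Polynomial.coeff_eq_zero_of_natDegree_lt h5]
      rfl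

/-- the supports under `t ↦ 1 / t` -/
theorem WdaB_SU {U V : ℤ → ℤ → Prop} (h : ∀ n m, V n m → U n (-m)) {z : BA k} (hz : SU V z) :
    SU U (invA k z) := by
  intro n m hnm
  rw [cf_invA]
  refine hz n (-m) fun hV => hnm ?_
  have h1 := h n (-m) hV
  rwa [neg_neg] at h1

/-- Weierstrass division with respect to `1 / t` -/
theorem wd_rev (F : (LaurentSeries k)[X]) (h0 : F.coeff 0 = 1) (hi : Itg F) (a : BA k)
    (ha : SU (fun n m => 0 ≤ n ∧ m ≤ 0) a) :
    ∃ q r : BA k, SU (fun n m => 0 ≤ n ∧ m ≤ 0) q ∧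
      SU (fun n m => 0 ≤ n ∧ -(F.natDegree : ℤ) ≤ m ∧ m ≤ 0) r ∧
      a = tz k (-(F.natDegree : ℤ)) * iA k F * q + r := by
  obtain ⟨G, hG, hGi, hGd, hGF⟩ := invA_rev F h0 hi
  obtain ⟨q, r, hq, hr, hqr⟩ := wd_ba G hG hGi (invA k a)
    (WdaB_SU (fun n m h => ⟨h.1, neg_nonneg.2 h.2⟩) ha)
  refine ⟨invA k q, invA k r, ?_, ?_, ?_⟩
  · refine WdaB_SU (fun n m h => ⟨h.1, ?_⟩) hq
    have := h.2
    omega
  · refine WdaB_SU (fun n m h => ⟨h.1, ?_, ?_⟩) hr
    · have := h.2.2
      rw [hGd] at this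
      omega
    · have := h.2.1
      omega
  · rw [← hGF, ← map_mul, ← map_add, ← hqr, invA_invA]

theorem wd_rev_bdd (F : (LaurentSeries k)[X]) (h0 : F.coeff 0 = 1) (hi : Itg F) (q : BA k)
    (hq : SU (fun n m => 0 ≤ n ∧ m ≤ 0) q) (b : ℕ)
    (hb : SU (fun n m => 0 ≤ n ∧ -(b : ℤ) ≤ m ∧ m ≤ 0)
      (tz k (-(F.natDegree : ℤ)) * iA k F * q)) :
    SU (fun n m => 0 ≤ n ∧ -(b : ℤ) ≤ m ∧ m ≤ 0) q := by
  obtain ⟨G, hG, hGi, hGd, hGF⟩ := invA_rev F h0 hi
  have h1 : SU (fun n m => 0 ≤ n ∧ 0 ≤ m) (invA k q) := by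
    refine WdaB_SU (fun n m h => ⟨h.1, ?_⟩) hq
    have := h.2
    omega
  have h2 : SU (fun n m => 0 ≤ n ∧ 0 ≤ m ∧ m ≤ b) (iA k G * invA k q) := by
    have h3 : iA k G * invA k q = invA k (tz k (-(F.natDegree : ℤ)) * iA k F * q) := by
      rw [map_mul, ← hGF, invA_invA]
    rw [h3]
    refine WdaB_SU (fun n m h => ⟨h.1, ?_, ?_⟩) hb
    · have := h.2.2
      omega
    · have := h.2.1
      omega
  have h4 := wd_ba_bdd G hG hGi (invA k q) h1 b h2
  have h5 : SU (fun n m => 0 ≤ n ∧ -(b : ℤ) ≤ m ∧ m ≤ 0) (invA k (invA k q)) := by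
    refine WdaB_SU (fun n m h => ⟨h.1, ?_, ?_⟩) h4
    · have := h.2.2
      omega
    · have := h.2.1
      omega
  rwa [invA_invA] at h5

end Pool.Agent.AB3
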